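import Pool.Agent.H37.CH.Simplex

/-! The combinatorial algorithm, from the signs of minors. -/

set_option autoImplicit false

namespace Pool.Agent.H37.CH

/-- A row: its number and its kind: `0` for the inequality `A i x ≥ b i`, `1` and `2` for the
artificial inequalities `A i x ≥ -M` and `-A i x ≥ -M`. -/
abbrev Row : Type := ℕ × ℕ

/-- An entry of a matrix: a register, to be negated or not. -/
abbrev Src : Type := Bool × List ℕ

/-- A matrix. -/
abbrev Key : Type := List (List Src)

/-- The entries of a row, in the columns `q < n` of `A`, and of the right-hand side: its finite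
part for `k = 0`, the coefficient of `M` otherwise. -/
def src (n k : ℕ) (r : Row) (q : ℕ) : Src :=
  if q < n then (decide (r.2 = 2), [0, r.1, q])
  else if k = 0 then (if r.2 = 0 then (false, [1, r.1]) else (false, [3]))
  else (if r.2 = 0 then (false, [3]) else (true, [2]))

/-- rows of `A` -/
def keyA (n : ℕ) (L : List Row) : Key := L.map fun r => (List.range n).map fun q => src n 0 r q

/-- rows of `A` and the right-hand side -/
def keyB (n k : ℕ) (L : List Row) : Key :=
  L.map fun r => (List.range (n + 1)).map fun q => src n k r q

/-- minors of order two -/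
def keyP (n i i' j l : ℕ) : Key :=
  [[src n 0 (i, 0) j, src n 0 (i, 0) l], [src n 0 (i', 0) j, src n 0 (i', 0) l]]

/-- an entry -/
def keyE (n i j : ℕ) : Key := [[src n 0 (i, 0) j]]

/-- replace the element number `t` -/
def upd (n : ℕ) (L : List Row) (t : ℕ) (c : Row) : List Row :=
  (List.range n).map fun i => if i = t then c else L.getD i (0, 0)

section

variable (s : Key → ℤ) (n : ℕ)

/-- the sign of the slack of `r` at the vertex `L` -/
def gS (L : List Row) (r : Row) : ℤ :=
  s (keyA n L) * (if s (keyB n 1 (L ++ [r])) = 0 then s (keyB n 0 (L ++ [r]))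
    else s (keyB n 1 (L ++ [r])))

/-- the vertex `L` satisfies the rows in `P` -/
def allS (L P : List Row) : Bool := P.all fun r => decide (0 ≤ gS s n L r)

/-- `L` is dual feasible -/
def dualS (c : Row) (L : List Row) : Bool := decide (s (keyA n L) ≠ 0) &&
  (List.range n).all fun t => decide (s (keyA n L) * s (keyA n (upd n L t c)) = -1)

/-- the rows `i` and `i'` are parallel -/
def parS (i i' : ℕ) : Bool :=
  (List.range n).all fun j => (List.range n).all fun l => decide (s (keyP n i i' j l) = 0)

/-- the inequalities `i` and `i'` are parallel and contradict each other -/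
def incS (i i' : ℕ) : Bool := parS s n i i' && (List.range n).any fun j =>
  decide (s (keyE n i j) * s (keyE n i' j) = -1) && decide (s (keyE n i j) * s (keyP n i i' j n) = -1)

/-- the rows which are not parallel to the first one -/
def rl (m : ℕ) : List ℕ := (List.range m).filter fun i => !parS s n 0 i

/-- representatives of these rows -/
def reps (m : ℕ) : List ℕ := (rl s n m).filter fun i =>
  ((rl s n m).filter fun i' => decide (i' < i)).all fun i' => !parS s n i' i

/-- the rows processed -/
def pl (Vi : List Row) (R : List ℕ) (k : ℕ) : List Row :=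
  Vi ++ (R.filter fun i => decide (i < k)).map fun i => (i, 0)

/-- the first basis -/
def vi (V0 : List Row) (c : Row) : List Row := (List.range n).map fun p =>
  ((V0.getD p (0, 0)).1, if s (keyA n V0) * s (keyA n (upd n V0 p c)) = -1 then 1 else 2)

/-- the row number `k` is in the basis -/
def memS (L : List Row) (k : ℕ) : Bool :=
  (List.range n).any fun p => decide (L.getD p (0, 0) = (k, 0))

/-- the row `j` is a blocking row -/
def blockS (P L : List Row) (k : ℕ) (j : Row) : Bool := decide (gS s n L j < 0) &&
  (List.range n).any fun p => decide (L.getD p (0, 0) = (k, 0)) &&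
    (decide (s (keyA n (upd n L p j)) ≠ 0) && allS s n (upd n L p j) P)

/-- the rows which may enter -/
def qs (P L : List Row) (k : ℕ) : List Row :=
  if memS n L k then P.filter fun j => blockS s n P L k j else [(k, 0)]

/-- the possible new bases -/
def nl (c : Row) (P L : List Row) (k : ℕ) : List (List Row) := (qs s n P L k).flatMap fun q =>
  ((List.range n).filter fun p => dualS s n c (upd n L p q)).map fun p => upd n L p q

/-- A state: failure, the number of the row processed, the basis. -/
abbrev St : Type := Bool × ℕ × List Row

/-- A step. -/
def stepS (Vi : List Row) (R : List ℕ) (c : Row) (st : St) : St :=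
  if st.1 = true then st
  else if decide (st.2.1 ∈ R) = false then (false, st.2.1 + 1, st.2.2)
  else if allS s n st.2.2 (pl Vi R st.2.1 ++ [(st.2.1, 0)]) = true then
    (false, st.2.1 + 1, st.2.2)
  else (((nl s n c (pl Vi R st.2.1) st.2.2 st.2.1).head?).map fun L => (false, st.2.1, L)).getD
    (true, st.2.1, st.2.2)

/-- the number of steps -/
def fuel (m n : ℕ) : ℕ := m * (n * m + 2)

/-- the first vertex -/
def v0 (m : ℕ) : List Row := ((reps s n m).take n).map fun i => (i, 1)

/-- the run for the objective `c` -/
def runS (m : ℕ) (c : Row) : St :=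
  (stepS s n (vi s n (v0 s n m) c) (rl s n m) c)^[fuel m n] (false, 0, vi s n (v0 s n m) c)

/-- some pair of parallel inequalities is contradictory -/
def incAll (m : ℕ) : Bool := (List.range m).any fun i => (List.range m).any fun i' => incS s n i i'

/-- the last test -/
def lastS (m : ℕ) (L L' : List Row) : Bool := (List.range m).all fun i =>
  !parS s n 0 i || (decide (0 ≤ gS s n L (i, 0)) || decide (0 ≤ gS s n L' (i, 0)))

/-- the answer -/
def ansS (m : ℕ) : Bool := !incAll s n m && (decide ((reps s n m).length < n) ||
  (!(runS s n m (0, 1)).1 && (!(runS s n m (0, 2)).1 &&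
    lastS s n m (runS s n m (0, 1)).2.2 (runS s n m (0, 2)).2.2)))

end

end Pool.Agent.H37.CH
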