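import Pool.Agent.H37.CH.Loop

/-! Correctness of the algorithm. -/

set_option autoImplicit false

namespace Pool.Agent.H37.CH

open Finset Matrix Function

namespace Data

variable {m n N : ℕ} {D : Data m n N} {s : Key → ℤ} {M : ℝ} {c : Row} {Vi : List Row}

theorem wt_arith {m n k P : ℕ} (hk : k < m) (hP : P ≤ n * m) :
    (m - k) * (n * m + 2) - (n * m + 1) + P < (m - k) * (n * m + 2) ∧
    (m - (k + 1)) * (n * m + 2) < (m - k) * (n * m + 2) - (n * m + 1) + P ∧
    (m - (k + 1)) * (n * m + 2) < (m - k) * (n * m + 2) := by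
  obtain ⟨d, rfl⟩ : ∃ d, m = k + 1 + d := ⟨m - (k + 1), by omega⟩
  have e1 : k + 1 + d - k = d + 1 := by omega
  have e2 : k + 1 + d - (k + 1) = d := by omega
  rw [e1, e2, add_one_mul]
  generalize n * (k + 1 + d) = a at *
  generalize d * (a + 2) = b
  omega

/-- One step keeps the invariant, and the weight decreases. -/
theorem Run.step (H : Run D s M c Vi) {st : St} (h : D.Inv s M c Vi st) :
    D.Inv s M c Vi (stepS s n Vi (rl s n m) c st) ∧
      (st.1 = false → st.2.1 < m →
        D.Wt c (stepS s n Vi (rl s n m) c st) < D.Wt c st) ∧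
      (st.1 = true → stepS s n Vi (rl s n m) c st = st) ∧
      (st.1 = false → m ≤ st.2.1 → (stepS s n Vi (rl s n m) c st).1 = false ∧
        m ≤ (stepS s n Vi (rl s n m) c st).2.1) := by
  obtain ⟨f, k, L⟩ := st
  cases f with
  | true =>
    have e : stepS s n Vi (rl s n m) c (true, k, L) = (true, k, L) := if_pos rfl
    rw [e]
    exact ⟨h, fun h => absurd h (by simp), fun _ => rfl, fun h => absurd h (by simp)⟩
  | false =>
    have h' : D.Off s M c Vi k L ∨ D.On s M c Vi k L := by
      simpa [Inv] using h
    have hP := D.Phi_le (c := c) k L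
    by_cases hk : k ∈ rl s n m
    · have hkm : k < m := (H.hs.mem_rl.1 hk).1
      by_cases hall : allS s n L (pl Vi (rl s n m) k ++ [(k, 0)]) = true
      · have e : stepS s n Vi (rl s n m) c (false, k, L) = (false, k + 1, L) := by
          simp [stepS, hk, hall]
        rw [e]
        have hoff : D.Off s M c Vi (k + 1) L := by
          have hkv : ((k, 0) : Row).1 ∈ rl s n m ∧ ((k, 0) : Row).2 < 3 := ⟨hk, by norm_num⟩
          have hPv : ∀ r ∈ pl Vi (rl s n m) k ++ [(k, 0)], r.1 < m ∧ r.2 < 3 := by
            intro r hr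
            rcases List.mem_append.1 hr with hr | hr
            · exact H.valid (H.pl_val hr)
            · rw [List.mem_singleton.1 hr]; exact H.valid hkv
          rcases h' with h' | h'
          · refine ⟨h'.val, h'.len, h'.det, h'.dual, fun p => (mem_pl_succ hk).2
              (Or.inl (h'.mem p)), fun x hx r hr => ?_⟩
            refine (H.allS_iff h'.val h'.len h'.det hPv hx).1 hall r ?_
            rcases (mem_pl_succ hk).1 hr with hr | hr
            · exact List.mem_append_left _ hr
            · exact List.mem_append_right _ (List.mem_singleton.2 hr)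
          · obtain ⟨pk, hpk, hPm, -⟩ := h'.pth
            refine ⟨h'.val, h'.len, h'.det, h'.dual, fun p => (mem_pl_succ hk).2 ?_,
              fun x hx r hr => ?_⟩
            · by_cases hp : p = pk
              · rw [hp]; exact Or.inr hpk
              · exact Or.inl (hPm p hp)
            · refine (H.allS_iff h'.val h'.len h'.det hPv hx).1 hall r ?_
              rcases (mem_pl_succ hk).1 hr with hr | hr
              · exact List.mem_append_left _ hr
              · exact List.mem_append_right _ (List.mem_singleton.2 hr)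
        have hm' : memS n L (k + 1) = false := H.off_mem hoff
        refine ⟨by simp only [Inv]; exact Or.inl hoff, fun _ _ => ?_,
          fun h => absurd h (by simp), fun _ hmk => absurd hmk (by simpa using hkm)⟩
        simp only [Wt, hm', Bool.false_eq_true, if_false]
        have := wt_arith hkm hP
        split_ifs <;> omega
      · rcases h' with h' | h'
        · obtain ⟨h1, h2⟩ := H.step_off hk h' hall
          have hm' : memS n L k = false := H.off_mem h'
          rcases hnl : nl s n c (pl Vi (rl s n m) k) L k with _ | ⟨L', t⟩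
          · have e : stepS s n Vi (rl s n m) c (false, k, L) = (true, k, L) := by
              simp [stepS, hk, hall, hnl]
            rw [e]
            refine ⟨by simp only [Inv]; exact h2 hnl, fun _ _ => ?_,
              fun h => absurd h (by simp), fun _ hmk => absurd hmk (by simpa using hkm)⟩
            simp only [Wt, hm', Bool.false_eq_true, if_false, if_true]
            have := wt_arith hkm hP
            omega
          · have e : stepS s n Vi (rl s n m) c (false, k, L) = (false, k, L') := by
              simp [stepS, hk, hall, hnl]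
            rw [e]
            have hon := h1 L' (by rw [hnl]; exact List.mem_cons_self)
            refine ⟨by simp only [Inv]; exact Or.inr hon, fun _ _ => ?_,
              fun h => absurd h (by simp), fun _ hmk => absurd hmk (by simpa using hkm)⟩
            simp only [Wt, hm', hon.mem_true, Bool.false_eq_true, if_false, if_true]
            have := (wt_arith hkm (D.Phi_le (c := c) k L')).1
            omega
        · obtain ⟨h1, h2⟩ := H.step_on h' hall
          have hm' : memS n L k = true := h'.mem_true
          rcases hnl : nl s n c (pl Vi (rl s n m) k) L k with _ | ⟨L', t⟩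
          · have e : stepS s n Vi (rl s n m) c (false, k, L) = (true, k, L) := by
              simp [stepS, hk, hall, hnl]
            rw [e]
            refine ⟨by simp only [Inv]; exact h2 hnl, fun _ _ => ?_,
              fun h => absurd h (by simp), fun _ hmk => absurd hmk (by simpa using hkm)⟩
            simp only [Wt, hm', Bool.false_eq_true, if_false, if_true]
            have := wt_arith hkm hP
            omega
          · have e : stepS s n Vi (rl s n m) c (false, k, L) = (false, k, L') := by
              simp [stepS, hk, hall, hnl]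
            rw [e]
            obtain ⟨hon, hlt⟩ := h1 L' (by rw [hnl]; exact List.mem_cons_self)
            refine ⟨by simp only [Inv]; exact Or.inr hon, fun _ _ => ?_,
              fun h => absurd h (by simp), fun _ hmk => absurd hmk (by simpa using hkm)⟩
            simp only [Wt, hm', hon.mem_true, Bool.false_eq_true, if_false, if_true]
            omega
    · have e : stepS s n Vi (rl s n m) c (false, k, L) = (false, k + 1, L) := by
        simp [stepS, hk]
      rw [e]
      have h' := h'.resolve_right fun h => hk h.kr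
      have hoff : D.Off s M c Vi (k + 1) L := by
        refine ⟨h'.val, h'.len, h'.det, h'.dual, ?_, ?_⟩
        · rw [pl_succ_not hk]; exact h'.mem
        · rw [pl_succ_not hk]; exact h'.opt
      have hm1 : memS n L (k + 1) = false := H.off_mem hoff
      have hm2 : memS n L k = false := H.off_mem h'
      refine ⟨by simp only [Inv]; exact Or.inl hoff, fun _ hkm => ?_,
        fun h => absurd h (by simp), fun _ hmk => ⟨rfl, ?_⟩⟩
      · simp only [Wt, hm1, hm2, Bool.false_eq_true, if_false]
        have hkm' : k < m := hkm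
        exact (wt_arith hkm' hP).2.2
      · show m ≤ k + 1
        have : m ≤ k := hmk
        omega

theorem Run.iter (H : Run D s M c Vi) {st : St} (h : D.Inv s M c Vi st) (i : ℕ) :
    D.Inv s M c Vi ((stepS s n Vi (rl s n m) c)^[i] st) ∧
      (((stepS s n Vi (rl s n m) c)^[i] st).1 = true ∨
        (((stepS s n Vi (rl s n m) c)^[i] st).1 = false ∧
          m ≤ ((stepS s n Vi (rl s n m) c)^[i] st).2.1) ∨
        D.Wt c ((stepS s n Vi (rl s n m) c)^[i] st) + i ≤ D.Wt c st) := by
  induction i with
  | zero => exact ⟨h, Or.inr (Or.inr (by simp))⟩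
  | succ i ih =>
    rw [iterate_succ_apply']
    obtain ⟨ih1, ih2⟩ := ih
    set st' := (stepS s n Vi (rl s n m) c)^[i] st
    obtain ⟨h1, h2, h3, h4⟩ := H.step ih1
    refine ⟨h1, ?_⟩
    rcases ih2 with ih2 | ih2 | ih2
    · rw [h3 ih2]
      exact Or.inl ih2
    · exact Or.inr (Or.inl (h4 ih2.1 ih2.2))
    · rcases Bool.eq_false_or_eq_true st'.1 with hf | hf
      · rw [h3 hf]
        exact Or.inl hf
      · by_cases hk : st'.2.1 < m
        · right; right
          have := h2 hf hk
          omega
        · exact Or.inr (Or.inl (h4 hf (not_lt.1 hk)))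

/-- The end of the run. -/
theorem Run.result (H : Run D s M c Vi) {L : List Row} (h : D.Off s M c Vi 0 L) :
    let st := (stepS s n Vi (rl s n m) c)^[fuel m n] (false, 0, L)
    (st.1 = true → D.Inf s M Vi) ∧ (st.1 = false → ∃ k, m ≤ k ∧ D.Off s M c Vi k st.2.2) := by
  intro st
  have hinv : D.Inv s M c Vi (false, 0, L) := by simp only [Inv]; exact Or.inl h
  obtain ⟨h1, h2⟩ := H.iter hinv (fuel m n)
  change D.Inv s M c Vi st at h1
  change st.1 = true ∨ (st.1 = false ∧ m ≤ st.2.1) ∨
    D.Wt c st + fuel m n ≤ D.Wt c (false, 0, L) at h2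
  have hm' : memS n L 0 = false := H.off_mem h
  refine ⟨fun hf => ?_, fun hf => ?_⟩
  · unfold Inv at h1
    rwa [if_pos hf] at h1
  · unfold Inv at h1
    rw [if_neg (by rw [hf]; simp)] at h1
    have hk : m ≤ st.2.1 := by
      rcases h2 with h2 | h2 | h2
      · rw [hf] at h2; simp at h2
      · exact h2.2
      · by_contra hk
        push Not at hk
        have e : D.Wt c (false, 0, L) = fuel m n := by
          simp [Wt, hm', fuel]
        rw [e] at h2
        have h3 : D.Wt c st = 0 := by omega
        have := wt_arith hk (D.Phi_le (c := c) st.2.1 st.2.2)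
        unfold Wt at h3
        rw [if_neg (by rw [hf]; simp)] at h3
        split_ifs at h3 <;> omega
    refine ⟨st.2.1, hk, ?_⟩
    rcases h1 with h1 | h1
    · exact h1
    · have := (H.hs.mem_rl.1 h1.kr).1
      omega

/-! ### The first basis -/

theorem v0_props (hs : D.Orc s) (hr : n ≤ (reps s n m).length) :
    (v0 s n m).length = n ∧ (∀ r ∈ v0 s n m, r.1 ∈ rl s n m ∧ r.2 = 1) ∧
      Injective fun p => D.nu (fn n (v0 s n m) p) := by
  have hlen : (v0 s n m).length = n := by
    rw [v0, List.length_map, List.length_take, min_eq_left hr]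
  refine ⟨hlen, ?_, ?_⟩
  · intro r hr'
    obtain ⟨i, hi, rfl⟩ := List.mem_map.1 hr'
    exact ⟨(hs.mem_reps.1 (List.mem_of_mem_take hi)).1, rfl⟩
  · have hsorted : ((reps s n m).take n).Pairwise (· < ·) := (reps_sorted s n m).take
    have hlt : ∀ p q : Fin n, p < q → D.nu (fn n (v0 s n m) p) ≠ D.nu (fn n (v0 s n m) q) := by
      intro p q hpq
      have hpl : (p : ℕ) < ((reps s n m).take n).length := by
        rw [List.length_take, min_eq_left hr]; exact p.2
      have hql : (q : ℕ) < ((reps s n m).take n).length := by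
        rw [List.length_take, min_eq_left hr]; exact q.2
      have e : ∀ p : Fin n, ∀ h : (p : ℕ) < ((reps s n m).take n).length,
          fn n (v0 s n m) p = (((reps s n m).take n)[(p : ℕ)], 1) := by
        intro p h
        unfold fn
        rw [List.getD_eq_getElem _ _ (by rw [hlen]; exact p.2)]
        simp [v0]
      rw [e p hpl, e q hql]
      have h1 := List.pairwise_iff_getElem.1 hsorted p q hpl hql hpq
      have h2 := hs.mem_reps.1 (List.mem_of_mem_take (List.getElem_mem hql))
      have h3 := hs.mem_reps.1 (List.mem_of_mem_take (List.getElem_mem hpl))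
      exact h2.2 _ h3.1 h1
    intro p q hpq
    rcases lt_trichotomy p q with h | h | h
    · exact absurd hpq (hlt p q h)
    · exact h
    · exact absurd hpq.symm (hlt q p h)

theorem vi_props (hs : D.Orc s) (hr : n ≤ (reps s n m).length) (hM : D.Large M)
    (hc : c.1 < m ∧ c.2 < 3) (hc0 : D.nu c = D.ν (D.cl 0)) :
    Run D s M c (vi s n (v0 s n m) c) ∧
      D.Off s M c (vi s n (v0 s n m) c) 0 (vi s n (v0 s n m) c) := by
  obtain ⟨h1, h2, h3⟩ := v0_props hs hr
  set V0 := v0 s n m with hV0
  set V := vi s n V0 c with hV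
  have hVlen : V.length = n := by simp [hV, vi]
  have hval0 : Val m V0 := fun r hr' => ⟨(hs.mem_rl.1 (h2 r hr').1).1, by rw [(h2 r hr').2]; norm_num⟩
  have hdet0 : (mat D.v (fn n V0)).det ≠ 0 := (det_ne_iff D.hT D.de_ne D.v_eq).2 h3
  have hmem0 : ∀ p : Fin n, fn n V0 p ∈ V0 := by
    intro p
    unfold fn
    rw [List.getD_eq_getElem _ _ (by rw [h1]; exact p.2)]
    exact List.getElem_mem _
  have hfnV : ∀ p : Fin n, fn n V p = ((fn n V0 p).1,
      if s (keyA n V0) * s (keyA n (upd n V0 p c)) = -1 then 1 else 2) := by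
    intro p
    unfold fn
    rw [List.getD_eq_getElem _ _ (by rw [hVlen]; exact p.2)]
    simp only [hV, vi, List.getElem_map, List.getElem_range]
  have hVmem : ∀ r ∈ V, ∃ p : Fin n, r = fn n V p := by
    intro r hr'
    obtain ⟨i, hi, rfl⟩ := List.getElem_of_mem hr'
    rw [hVlen] at hi
    refine ⟨⟨i, hi⟩, ?_⟩
    unfold fn
    rw [List.getD_eq_getElem _ _ (by rw [hVlen]; exact hi)]
  have hVr : ∀ r ∈ V, r.1 ∈ rl s n m ∧ r.2 < 3 ∧ r.2 ≠ 0 := by
    intro r hr'
    obtain ⟨p, rfl⟩ := hVmem r hr'
    rw [hfnV]
    refine ⟨(h2 _ (hmem0 p)).1, ?_, ?_⟩ <;> split_ifs <;> norm_num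
  have H : Run D s M c V := ⟨hs, hM, hc, hc0, hVr⟩
  refine ⟨H, ?_⟩
  have hval : Val m V := fun r hr' => H.valid ⟨(hVr r hr').1, (hVr r hr').2.1⟩
  have hnuV : ∀ p, D.nu (fn n V p) = D.nu (fn n V0 p) := by
    intro p
    rw [hfnV]
    rfl
  have hdet : (mat D.v (fn n V)).det ≠ 0 := by
    refine (det_ne_iff D.hT D.de_ne D.v_eq).2 ?_
    have : (fun p => D.nu (fn n V p)) = fun p => D.nu (fn n V0 p) := funext hnuV
    rw [this]
    exact h3
  have hpl0 : ∀ {R : List ℕ} {r : Row}, r ∈ pl V R 0 ↔ r ∈ V := by
    intro R r
    rw [mem_pl]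
    simp
  have hfnVmem : ∀ p : Fin n, fn n V p ∈ V := by
    intro p
    unfold fn
    rw [List.getD_eq_getElem _ _ (by rw [hVlen]; exact p.2)]
    exact List.getElem_mem _
  refine ⟨hval, hVlen, hdet, ?_, fun p => hpl0.2 (hfnVmem p), fun x hx r hr' => ?_⟩
  · obtain ⟨y, hy⟩ := coords hdet0 (D.v c)
    have hy0 : ∀ p, y p ≠ 0 := by
      intro p h0
      have h4 := nondeg D.hT D.de_ne D.v_eq hdet0 (c := c)
        (fun p => H.nu_ne (h2 _ (hmem0 p)).1) p
      rw [det_coord hy p, h0, zero_mul] at h4
      exact h4 rfl
    have hsig : ∀ p : Fin n, s (keyA n V0) * s (keyA n (upd n V0 p c)) = -1 ↔ y p < 0 := by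
      intro p
      rw [hs.hA V0 hval0 h1, hs.hA _ (val_upd hval0 h1 hc p) (upd_length _ _ _ _),
        sz_mul_eq_neg, fn_upd, mat_update, det_coord hy p]
      have e : (-1 : ℝ) ^ (n - 1) * (mat D.v (fn n V0)).det *
          ((-1) ^ (n - 1) * (y p * (mat D.v (fn n V0)).det)) =
          y p * (((-1 : ℝ) ^ (n - 1) * (mat D.v (fn n V0)).det) ^ 2) := by ring
      rw [e]
      have hpos : 0 < ((-1 : ℝ) ^ (n - 1) * (mat D.v (fn n V0)).det) ^ 2 := by
        have : (-1 : ℝ) ^ (n - 1) * (mat D.v (fn n V0)).det ≠ 0 :=
          mul_ne_zero (pow_ne_zero _ (by norm_num)) hdet0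
        positivity
      constructor
      · intro h
        by_contra hge
        push Not at hge
        have := mul_nonneg hge hpos.le
        linarith
      · exact fun h => mul_neg_of_neg_of_pos h hpos
    refine ⟨fun p => |y p|, fun p => abs_pos.2 (hy0 p), ?_⟩
    rw [hy, ← Finset.sum_neg_distrib]
    refine Finset.sum_congr rfl fun p _ => ?_
    have hr0 := (h2 _ (hmem0 p)).2
    have hv0 : D.v (fn n V0 p) = D.A (D.cl (fn n V0 p).1) := by
      rw [v, hr0]
      simp [sg]
    rw [hfnV, hv0]
    by_cases h : y p < 0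
    · rw [if_pos ((hsig p).2 h)]
      have e1 : (fun p => |y p|) p = -y p := abs_of_neg h
      have e2 : D.v ((fn n V0 p).1, 1) = D.A (D.cl (fn n V0 p).1) := by simp [v, sg]
      rw [e1, e2, neg_smul, neg_neg]
    · rw [if_neg fun h' => h ((hsig p).1 h')]
      have e1 : (fun p => |y p|) p = y p := abs_of_nonneg (not_lt.1 h)
      have e2 : D.v ((fn n V0 p).1, 2) = -D.A (D.cl (fn n V0 p).1) := by simp [v, sg]
      rw [e1, e2, smul_neg, neg_neg]
  · obtain ⟨p, rfl⟩ := hVmem r (hpl0.1 hr')
    exact (hx p).ge

end Data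

end Pool.Agent.H37.CH
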