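import Pool.Agent.H37.CH.PT

/-! The algorithm is controlled in polynomial time. -/

set_option autoImplicit false

namespace Pool.Agent.H37.CH

open Pool.Agent.NPC Pool.Agent.H558R2 Pool.Agent.H622R3.SM Pool.Agent.W920.FC

/-- a bound for the states -/
def SI (B n : ℕ) (Vi : List Row) (i : ℕ) (st : St) : Prop :=
  st.2.1 ≤ i ∧ st.2.2.length ≤ n + Vi.length ∧ ∀ r ∈ st.2.2, NPC.sz r ≤ B

theorem sz_nat' (k : ℕ) : NPC.sz k ≤ 4 * k + 1 := by
  have h1 := sz_nat_le k
  have h2 := NPC.Poly.size_le_self k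
  omega

theorem sz_zero' : NPC.sz (0 : ℕ) = 1 := by
  rw [NPC.sz_nat]
  simp

theorem mem_upd {n : ℕ} {L : List Row} {t : ℕ} {c r : Row} (h : r ∈ upd n L t c) :
    r = c ∨ r ∈ L ∨ r = (0, 0) := by
  simp only [upd, List.mem_map, List.mem_range] at h
  obtain ⟨i, hi, rfl⟩ := h
  split_ifs
  · exact Or.inl rfl
  · right
    by_cases h' : i < L.length
    · left
      rw [List.getD_eq_getElem _ _ h']
      exact List.getElem_mem _
    · right
      rw [List.getD_eq_default _ _ (by omega)]

theorem si_step {B N n : ℕ} {Vi : List Row} {R : List ℕ} {c : Row} {s : Key → ℤ} {i : ℕ} {st : St}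
    (hB : NPC.sz Vi + NPC.sz R + 4 * N + 10 ≤ B) (hi : i ≤ N) (h : SI B n Vi i st) :
    SI B n Vi (i + 1) (stepS s n Vi R c st) := by
  obtain ⟨h1, h2, h3⟩ := h
  unfold stepS
  split_ifs
  · exact ⟨h1.trans (Nat.le_succ i), h2, h3⟩
  · exact ⟨Nat.succ_le_succ h1, h2, h3⟩
  · exact ⟨Nat.succ_le_succ h1, h2, h3⟩
  · cases hh : (nl s n c (pl Vi R st.2.1) st.2.2 st.2.1).head? with
    | none => exact ⟨h1.trans (Nat.le_succ i), h2, h3⟩
    | some L =>
      refine ⟨h1.trans (Nat.le_succ i), ?_⟩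
      have h4 := List.mem_of_mem_head? hh
      simp only [nl, List.mem_flatMap, List.mem_map] at h4
      obtain ⟨q, hq, p, -, rfl⟩ := h4
      refine ⟨?_, ?_⟩
      · show (upd n st.2.2 p q).length ≤ _
        rw [len_upd]
        omega
      · intro r hr
        have hr' : r ∈ upd n st.2.2 p q := hr
        rcases mem_upd hr' with rfl | h5 | rfl
        · rcases List.mem_append.1 (mem_qs hq) with h6 | h6
          · unfold pl at h6
            rcases List.mem_append.1 h6 with h6 | h6
            · have := sz_le_of_mem h6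
              omega
            · obtain ⟨j, hj, rfl⟩ := List.mem_map.1 h6
              have := sz_le_of_mem (List.mem_filter.1 hj).1
              rw [NPC.sz_pair, sz_zero']
              omega
          · rw [List.mem_singleton.1 h6, NPC.sz_pair, sz_zero']
            have := sz_nat' st.2.1
            omega
        · exact h3 r h5
        · rw [NPC.sz_pair, sz_zero']
          omega

theorem out_step {n : ℕ} {Vi : List Row} {R : List ℕ} {c : Row} {st st' : St}
    (h : Out (stepT n Vi R c st) st') : ∃ s, st' = stepS s n Vi R c st := by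
  unfold stepT at h
  obtain ⟨o, -, h2⟩ := t_OUT.1.2.1 _ _ _ _ _ h
  exact ⟨_, t_OUT.1.1 _ _ _ h2⟩

theorem shr_step (n : ℕ) (Vi : List Row) (R : List ℕ) (c : Row) (st : St) :
    Shr (stepT n Vi R c st) :=
  t_OUT.1.2.2.2.2.1 _ _ _ _ (t_OUT.1.2.2.2.2.2.1 _) fun _ => t_OUT.1.2.2.2.1 _ _

theorem out_iter {B N n : ℕ} {Vi : List Row} {R : List ℕ} {c : Row}
    (hB : NPC.sz Vi + NPC.sz R + 4 * N + 10 ≤ B) (i : ℕ) : ∀ st, i ≤ N →
    Out (iter (stepT n Vi R c) i (false, 0, Vi)) st → SI B n Vi i st := by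
  induction i with
  | zero =>
    intro st _ h
    have h1 : st = (false, 0, Vi) := t_OUT.1.1 _ _ _ h
    rw [h1]
    refine ⟨le_rfl, by simp, fun r hr => ?_⟩
    have : NPC.sz r < NPC.sz Vi := sz_le_of_mem hr
    omega
  | succ i ih =>
    intro st hi h
    obtain ⟨st', h1, h2⟩ := t_OUT.1.2.2.1 _ _ _ _ _ h
    obtain ⟨s, rfl⟩ := out_step h2
    exact si_step hB (by omega) (ih st' (by omega) h1)

theorem si_sz {B n : ℕ} {Vi : List Row} {i : ℕ} {st : St} (h : SI B n Vi i st) :
    NPC.sz st ≤ (n + Vi.length) * (B + 1) + 4 * i + 7 := by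
  obtain ⟨h1, h2, h3⟩ := h
  have e1 := sz_bool_le st.1
  have e2 := sz_nat' st.2.1
  have e3 := sz_le_length_mul st.2.2 B h3
  have e4 : st.2.2.length * (B + 1) ≤ (n + Vi.length) * (B + 1) := Nat.mul_le_mul_right _ h2
  have e5 : NPC.sz st = NPC.sz st.1 + (NPC.sz st.2.1 + NPC.sz st.2.2 + 1) + 1 := by
    obtain ⟨a, b, c⟩ := st
    rw [NPC.sz_pair, NPC.sz_pair]
  omega

variable {α : Type} [TEnc α]

theorem ufuel {U V : α → List Unit} (hU : Poly U) (hV : Poly V) :
    UPoly (fun a => fuel (U a).length (V a).length) := by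
  unfold fuel
  exact UPoly.mul (UPoly.length hU) (UPoly.add (UPoly.mul (UPoly.length hV) (UPoly.length hU))
    (UPoly.const 2))

theorem piter {U V : α → List Unit} (hU : Poly U) (hV : Poly V) {Vi : α → List Row}
    {R : α → List ℕ} {c : α → Row} (h1 : Poly Vi) (h2 : Poly R) (h3 : Poly c) :
    PT (fun a => iter (stepT (V a).length (Vi a) (R a) (c a)) (fuel (U a).length (V a).length)
      (false, 0, Vi a)) := by
  have hf := ufuel hU hV
  refine t_PTITER α St (fun a => stepT (V a).length (Vi a) (R a) (c a))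
    (fun a => fuel (U a).length (V a).length) (fun a => (false, 0, Vi a)) ?_ hf ?_
    (fun a st => shr_step _ _ _ _ _) ?_
  · have b : Poly (fun q : α × St => q.1) := NPC.Poly.fst NPC.Poly.id
    exact pstepT (α := α × St) (U := fun p => V p.1) (hV.comp b) (h1.comp b) (h2.comp b)
      (h3.comp b) (NPC.Poly.snd NPC.Poly.id)
  · exact NPC.Poly.pair (NPC.Poly.const false) (NPC.Poly.pair (NPC.Poly.const 0) h1)
  · obtain ⟨qV, hqV⟩ := hV.sz_le
    obtain ⟨q1, hq1⟩ := h1.sz_le
    obtain ⟨q2, hq2⟩ := h2.sz_le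
    obtain ⟨qf, hqf⟩ := NPC.Poly.sz_le hf
    refine ⟨(qV + q1) * ((q1 + q2 + 4 * qf + 10) + 1) + 4 * qf + 7, fun a i st hi hout => ?_⟩
    have e0 : fuel (U a).length (V a).length ≤ qf.eval (NPC.sz a) := by
      have := hqf a
      simp only at this
      have h4 := length_lt_sz (List.replicate (fuel (U a).length (V a).length) ())
      rw [List.length_replicate] at h4
      omega
    have e1 := hqV a
    have e2 := hq1 a
    have e3 := hq2 a
    have e4 := length_lt_sz (V a)
    have e5 := length_lt_sz (Vi a)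
    have hB : NPC.sz (Vi a) + NPC.sz (R a) + 4 * fuel (U a).length (V a).length + 10 ≤
        q1.eval (NPC.sz a) + q2.eval (NPC.sz a) + 4 * qf.eval (NPC.sz a) + 10 := by omega
    have h5 := si_sz (out_iter hB i st hi hout)
    simp only [Polynomial.eval_add, Polynomial.eval_mul, Polynomial.eval_ofNat,
      Polynomial.eval_one]
    refine h5.trans ?_
    have e6 : (V a).length + (Vi a).length ≤ qV.eval (NPC.sz a) + q1.eval (NPC.sz a) := by omega
    have e7 := Nat.mul_le_mul_right
      (q1.eval (NPC.sz a) + q2.eval (NPC.sz a) + 4 * qf.eval (NPC.sz a) + 10 + 1) e6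
    omega

theorem pTA : PT (fun p : List Unit × List Unit => TA p.1.length p.2.length) := by
  unfold TA
  have hU : Poly (fun p : List Unit × List Unit => p.1) := NPC.Poly.fst NPC.Poly.id
  have hV : Poly (fun p : List Unit × List Unit => p.2) := NPC.Poly.snd NPC.Poly.id
  refine t_PT.2.1 _ _ _ _ (fun (p : List Unit × List Unit) (x : List ℕ × List Row) =>
    bnd (T2 p.2.length x.2) fun y =>
      bnd (iter (stepT p.2.length y.1 x.1 (0, 1)) (fuel p.1.length p.2.length) (false, 0, y.1))
        fun st => bnd (iter (stepT p.2.length y.2 x.1 (0, 2)) (fuel p.1.length p.2.length)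
          (false, 0, y.2)) fun st' => T3 p.1.length p.2.length st st') (pT1 hU hV) ?_
  refine t_PT.2.1 _ _ _ _ (fun (q : (List Unit × List Unit) × (List ℕ × List Row))
    (y : List Row × List Row) =>
      bnd (iter (stepT q.1.2.length y.1 q.2.1 (0, 1)) (fuel q.1.1.length q.1.2.length)
        (false, 0, y.1)) fun st =>
      bnd (iter (stepT q.1.2.length y.2 q.2.1 (0, 2)) (fuel q.1.1.length q.1.2.length)
          (false, 0, y.2)) fun st' => T3 q.1.1.length q.1.2.length st st')
      (pT2 (α := (List Unit × List Unit) × (List ℕ × List Row)) (V := fun q => q.1.2)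
        (V0 := fun q => q.2.2) (NPC.Poly.snd (NPC.Poly.fst NPC.Poly.id))
        (NPC.Poly.snd (NPC.Poly.snd NPC.Poly.id))) ?_
  refine t_PT.2.1 _ _ _ _ (fun (q : ((List Unit × List Unit) × (List ℕ × List Row)) ×
    (List Row × List Row)) (st : St) =>
      bnd (iter (stepT q.1.1.2.length q.2.2 q.1.2.1 (0, 2)) (fuel q.1.1.1.length q.1.1.2.length)
          (false, 0, q.2.2)) fun st' => T3 q.1.1.1.length q.1.1.2.length st st')
      (piter (α := ((List Unit × List Unit) × (List ℕ × List Row)) × (List Row × List Row))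
        (U := fun q => q.1.1.1) (V := fun q => q.1.1.2) (Vi := fun q => q.2.1)
        (R := fun q => q.1.2.1) (c := fun _ => (0, 1))
        (NPC.Poly.fst (NPC.Poly.fst (NPC.Poly.fst NPC.Poly.id)))
        (NPC.Poly.snd (NPC.Poly.fst (NPC.Poly.fst NPC.Poly.id)))
        (NPC.Poly.fst (NPC.Poly.snd NPC.Poly.id))
        (NPC.Poly.fst (NPC.Poly.snd (NPC.Poly.fst NPC.Poly.id))) (NPC.Poly.const _)) ?_
  refine t_PT.2.1 _ _ _ _ (fun (q : (((List Unit × List Unit) × (List ℕ × List Row)) ×
    (List Row × List Row)) × St) (st' : St) => T3 q.1.1.1.1.length q.1.1.1.2.length q.2 st')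
      (piter (α := (((List Unit × List Unit) × (List ℕ × List Row)) ×
        (List Row × List Row)) × St)
        (U := fun q => q.1.1.1.1) (V := fun q => q.1.1.1.2) (Vi := fun q => q.1.2.2)
        (R := fun q => q.1.1.2.1) (c := fun _ => (0, 2))
        (NPC.Poly.fst (NPC.Poly.fst (NPC.Poly.fst (NPC.Poly.fst NPC.Poly.id))))
        (NPC.Poly.snd (NPC.Poly.fst (NPC.Poly.fst (NPC.Poly.fst NPC.Poly.id))))
        (NPC.Poly.snd (NPC.Poly.snd (NPC.Poly.fst NPC.Poly.id)))
        (NPC.Poly.fst (NPC.Poly.snd (NPC.Poly.fst (NPC.Poly.fst NPC.Poly.id))))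
        (NPC.Poly.const _)) ?_
  exact pT3 (α := ((((List Unit × List Unit) × (List ℕ × List Row)) ×
    (List Row × List Row)) × St) × St)
    (U := fun q => q.1.1.1.1.1) (V := fun q => q.1.1.1.1.2) (st := fun q => q.1.2)
    (st' := fun q => q.2)
    (NPC.Poly.fst (NPC.Poly.fst (NPC.Poly.fst (NPC.Poly.fst (NPC.Poly.fst NPC.Poly.id)))))
    (NPC.Poly.snd (NPC.Poly.fst (NPC.Poly.fst (NPC.Poly.fst (NPC.Poly.fst NPC.Poly.id)))))
    (NPC.Poly.snd (NPC.Poly.fst NPC.Poly.id)) (NPC.Poly.snd NPC.Poly.id)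

theorem ctrl : PolyControl alg := t_OUT.2 TA pTA

theorem oracleFree : OracleFree alg := by
  intro m n h w
  unfold alg algOf
  cases TA m n h <;> simp

end Pool.Agent.H37.CH
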