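import Pool.Agent.H37.CH.Alg

/-! Instances, and the meaning of the signs. -/

set_option autoImplicit false

namespace Pool.Agent.H37.CH

open Finset Matrix Function

/-! ### Signs -/

/-- the sign as an integer -/
noncomputable def sz (x : ℝ) : ℤ := if 0 < x then 1 else if x < 0 then -1 else 0

theorem sz_pos {x : ℝ} (h : 0 < x) : sz x = 1 := if_pos h

theorem sz_neg {x : ℝ} (h : x < 0) : sz x = -1 := by
  unfold sz
  rw [if_neg h.not_gt, if_pos h]

theorem sz_zero : sz 0 = 0 := by simp [sz]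

theorem sz_eq_zero {x : ℝ} : sz x = 0 ↔ x = 0 := by
  rcases lt_trichotomy x 0 with h | h | h
  · rw [sz_neg h]; simp [h.ne]
  · rw [h, sz_zero]; simp
  · rw [sz_pos h]; simp [h.ne']

theorem sz_nonneg {x : ℝ} : 0 ≤ sz x ↔ 0 ≤ x := by
  rcases lt_trichotomy x 0 with h | h | h
  · rw [sz_neg h]; simp [h]
  · rw [h, sz_zero]; simp
  · rw [sz_pos h]; simp [h.le]

theorem sz_lt {x : ℝ} : sz x < 0 ↔ x < 0 := by
  rw [← not_le, sz_nonneg, not_le]

theorem sz_mul (x y : ℝ) : sz (x * y) = sz x * sz y := by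
  rcases lt_trichotomy x 0 with h | h | h <;> rcases lt_trichotomy y 0 with h' | h' | h'
  · rw [sz_neg h, sz_neg h', sz_pos (mul_pos_of_neg_of_neg h h')]; rfl
  · rw [h', mul_zero, sz_zero, mul_zero]
  · rw [sz_neg h, sz_pos h', sz_neg (mul_neg_of_neg_of_pos h h')]; rfl
  · rw [h, zero_mul, sz_zero, zero_mul]
  · rw [h, zero_mul, sz_zero, zero_mul]
  · rw [h, zero_mul, sz_zero, zero_mul]
  · rw [sz_pos h, sz_neg h', sz_neg (mul_neg_of_pos_of_neg h h')]; rfl
  · rw [h', mul_zero, sz_zero, mul_zero]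
  · rw [sz_pos h, sz_pos h', sz_pos (mul_pos h h')]; rfl

theorem sz_mul_eq_neg {x y : ℝ} : sz x * sz y = -1 ↔ x * y < 0 := by
  rw [← sz_mul]
  rcases lt_trichotomy (x * y) 0 with h | h | h
  · rw [sz_neg h]; simp [h]
  · rw [h, sz_zero]; simp
  · rw [sz_pos h]; simp [h.le]

/-! ### Determinants with a right-hand side -/

/-- rows with a right-hand side -/
def bm {E : Type} {n : ℕ} (v : E → Fin n → ℝ) (β : E → ℝ) (W : ℕ → E) :
    Matrix (Fin (n + 1)) (Fin (n + 1)) ℝ :=
  Matrix.of fun p q => if h : (q : ℕ) < n then v (W p) ⟨q, h⟩ else β (W p)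

theorem bm_det {E : Type} {n : ℕ} (v : E → Fin n → ℝ) (β : E → ℝ) (W : ℕ → E) (x : Fin n → ℝ)
    (hx : ∀ p < n, gap v β (W p) x = 0) :
    (bm v β W).det = -((mat v fun p : Fin n => W p).det * gap v β (W n) x) := by
  let w : Fin (n + 1) → ℝ := fun p => if p = Fin.last n then -gap v β (W n) x else 0
  let B := (bm v β W).updateCol (Fin.last n) w
  let c : Fin (n + 1) → ℝ := Fin.snoc x 1
  have hB1 : ∀ p (q : Fin n), B p q.castSucc = v (W p) q := by
    intro p q
    simp only [B]
    rw [Matrix.updateCol_ne (Fin.castSucc_lt_last q).ne]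
    simp only [bm, Matrix.of_apply, Fin.val_castSucc]
    rw [dif_pos q.2]
  have hB2 : ∀ p, B p (Fin.last n) = w p := fun p => by
    simp only [B]
    rw [Matrix.updateCol_self]
  have h1 : bm v β W = B.updateCol (Fin.last n) fun p => ∑ k, c k • B p k := by
    funext p q
    refine Fin.lastCases ?_ (fun q => ?_) q
    · rw [Matrix.updateCol_self, Fin.sum_univ_castSucc]
      simp only [c, Fin.snoc_castSucc, Fin.snoc_last, hB1, hB2, smul_eq_mul, one_mul]
      simp only [bm, Matrix.of_apply, Fin.val_last, lt_irrefl, dite_false]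
      have e : ∑ i : Fin n, x i * v (W p) i = v (W p) ⬝ᵥ x := by
        rw [dotProduct]
        exact Finset.sum_congr rfl fun i _ => mul_comm _ _
      rw [e]
      simp only [w]
      by_cases hp : p = Fin.last n
      · rw [if_pos hp, hp, gap]
        simp
      · rw [if_neg hp, add_zero]
        have h2 : (p : ℕ) < n := by
          have := p.2
          have : (p : ℕ) ≠ n := fun h => hp (Fin.ext h)
          omega
        have := hx p h2
        rw [gap, sub_eq_zero] at this
        exact this.symm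
    · rw [Matrix.updateCol_ne (Fin.castSucc_lt_last q).ne, hB1]
      simp only [bm, Matrix.of_apply, Fin.val_castSucc]
      rw [dif_pos q.2]
  have h2 : (bm v β W).det = B.det := by
    have := Matrix.det_updateCol_sum B (Fin.last n) c
    rw [← h1] at this
    rw [this]
    simp [c]
  rw [h2, Matrix.det_succ_column B (Fin.last n), Finset.sum_eq_single (Fin.last n)]
  · rw [hB2]
    have e : B.submatrix (Fin.last n).succAbove (Fin.last n).succAbove =
        mat v fun p : Fin n => W p := by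
      funext p q
      rw [Matrix.submatrix_apply, Fin.succAbove_last, hB1]
      rfl
    rw [e]
    simp only [w, if_pos]
    have : ((-1 : ℝ)) ^ ((Fin.last n : ℕ) + (Fin.last n : ℕ)) = 1 := Even.neg_one_pow ⟨_, rfl⟩
    rw [this]
    ring
  · intro i _ hi
    rw [hB2]
    simp only [w]
    rw [if_neg hi]
    ring
  · exact fun h => absurd (Finset.mem_univ _) h

theorem bm_linear {E : Type} {n : ℕ} (v : E → Fin n → ℝ) (β β' : E → ℝ) (W : ℕ → E) (M : ℝ) :
    (bm v (fun r => β r + M * β' r) W).det = (bm v β W).det + M * (bm v β' W).det := by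
  have h : ∀ γ : E → ℝ, bm v γ W = (bm v β W).updateCol (Fin.last n) fun p => γ (W p) := by
    intro γ
    funext p q
    refine Fin.lastCases ?_ (fun q => ?_) q
    · rw [Matrix.updateCol_self]
      simp [bm]
    · rw [Matrix.updateCol_ne (Fin.castSucc_lt_last q).ne]
      simp only [bm, Matrix.of_apply, Fin.val_castSucc]
      rw [dif_pos q.2, dif_pos q.2]
  rw [h fun r => β r + M * β' r, h β']
  have e : (fun p : Fin (n + 1) => β (W p) + M * β' (W p)) =
      (fun p : Fin (n + 1) => β (W p)) + M • fun p : Fin (n + 1) => β' (W p) := rfl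
  rw [e, Matrix.det_updateCol_add, Matrix.det_updateCol_smul, ← h β]

/-! ### Instances -/

/-- An instance `A x ≥ b` whose rows are nonzero multiples of the rows of a Chebyshev system. -/
structure Data (m n N : ℕ) where
  A : Matrix (Fin m) (Fin n) ℝ
  b : Fin m → ℝ
  T : Fin N → Fin n → ℝ
  ν : Fin m → Fin N
  δ : Fin m → ℝ
  hm : 0 < m
  hn : 0 < n
  hN : n ≤ N
  hT : IsCheb T
  hδ : ∀ i, δ i ≠ 0
  hA : ∀ i, A i = δ i • T (ν i)
  hone : n = 1 → ∀ i j, ν i = ν j

namespace Data

variable {m n N : ℕ} (D : Data m n N)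

/-- row numbers -/
def cl (i : ℕ) : Fin m := if h : i < m then ⟨i, h⟩ else ⟨0, D.hm⟩

theorem cl_val {i : ℕ} (h : i < m) : D.cl i = ⟨i, h⟩ := dif_pos h

/-- signs of the rows -/
def sg (f : ℕ) : ℝ := if f = 2 then -1 else 1

theorem sg_ne (f : ℕ) : sg f ≠ 0 := by
  unfold sg
  split_ifs <;> norm_num

/-- the vector of a row -/
noncomputable def v (r : Row) : Fin n → ℝ := sg r.2 • D.A (D.cl r.1)

/-- the node of a row -/
def nu (r : Row) : Fin N := D.ν (D.cl r.1)

/-- the factor of a row -/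
noncomputable def de (r : Row) : ℝ := sg r.2 * D.δ (D.cl r.1)

theorem de_ne (r : Row) : D.de r ≠ 0 := mul_ne_zero (sg_ne _) (D.hδ _)

theorem v_eq (r : Row) : D.v r = D.de r • D.T (D.nu r) := by
  rw [v, D.hA, smul_smul]
  rfl

/-- the right-hand side: finite part, and coefficient of `M` -/
noncomputable def rhs (k : ℕ) (r : Row) : ℝ :=
  if k = 0 then (if r.2 = 0 then D.b (D.cl r.1) else 0) else (if r.2 = 0 then 0 else -1)

/-- the right-hand side -/
noncomputable def be (M : ℝ) (r : Row) : ℝ := D.rhs 0 r + M * D.rhs 1 r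

theorem be_zero (M : ℝ) (i : ℕ) : D.be M (i, 0) = D.b (D.cl i) := by
  simp [be, rhs]

theorem be_art (M : ℝ) {r : Row} (h : r.2 ≠ 0) : D.be M r = -M := by
  simp [be, rhs, h]

/-- the entries of `A` and `b` -/
def e (i j : ℕ) : ℝ := if h : j < n then D.A (D.cl i) ⟨j, h⟩ else D.b (D.cl i)

/-- the rows of a list -/
def fn (n : ℕ) (L : List Row) : Fin n → Row := fun p => L.getD p (0, 0)

/-- valid lists of rows -/
def Val (m : ℕ) (L : List Row) : Prop := ∀ r ∈ L, r.1 < m ∧ r.2 < 3

/-- The signs `s` are correct. -/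
structure Orc (s : Key → ℤ) : Prop where
  hA : ∀ L : List Row, Val m L → L.length = n →
    s (keyA n L) = sz ((-1) ^ (n - 1) * (mat D.v (fn n L)).det)
  hB : ∀ (k : ℕ) (L : List Row), Val m L → L.length = n + 1 →
    s (keyB n k L) = sz ((-1) ^ n * (bm D.v (D.rhs k) fun p => L.getD p (0, 0)).det)
  hP : ∀ i i' j l : ℕ, i < m → i' < m → j < n → l ≤ n →
    s (keyP n i i' j l) = sz (-(D.e i j * D.e i' l - D.e i l * D.e i' j))
  hE : ∀ i j : ℕ, i < m → j < n → s (keyE n i j) = sz (D.e i j)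

/-- the number `M` is large -/
def Large (M : ℝ) : Prop := ∀ W : ℕ → Row, (∀ p ≤ n, (W p).1 < m ∧ (W p).2 < 3) →
  ((bm D.v (D.rhs 1) W).det = 0 ∨
    sz ((bm D.v (D.be M) W).det) = sz ((bm D.v (D.rhs 1) W).det))

theorem eventually_large : ∀ᶠ M : ℝ in Filter.atTop, D.Large M := by
  have h1 : ∀ W : Fin (n + 1) → Fin m × Fin 3, ∀ᶠ M : ℝ in Filter.atTop,
      ((bm D.v (D.rhs 1) fun p => if h : p < n + 1 then ((W ⟨p, h⟩).1.val, (W ⟨p, h⟩).2.val)
        else (0, 0)).det = 0 ∨
      sz ((bm D.v (D.be M) fun p => if h : p < n + 1 then ((W ⟨p, h⟩).1.val, (W ⟨p, h⟩).2.val)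
        else (0, 0)).det) =
        sz ((bm D.v (D.rhs 1) fun p => if h : p < n + 1 then
          ((W ⟨p, h⟩).1.val, (W ⟨p, h⟩).2.val) else (0, 0)).det)) := by
    intro W
    generalize (fun p => if h : p < n + 1 then ((W ⟨p, h⟩).1.val, (W ⟨p, h⟩).2.val)
        else ((0, 0) : Row)) = W'
    have e : ∀ M : ℝ, (bm D.v (D.be M) W').det =
        (bm D.v (D.rhs 0) W').det + M * (bm D.v (D.rhs 1) W').det := fun M =>
      bm_linear D.v (D.rhs 0) (D.rhs 1) W' M
    set d0 := (bm D.v (D.rhs 0) W').det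
    set d1 := (bm D.v (D.rhs 1) W').det
    rcases lt_trichotomy d1 0 with h | h | h
    · filter_upwards [Filter.eventually_gt_atTop (-(d0 / d1))] with M hM
      right
      rw [e, sz_neg h, sz_neg]
      have : M * d1 < -(d0 / d1) * d1 := mul_lt_mul_of_neg_right hM h
      have h2 : -(d0 / d1) * d1 = -d0 := by rw [neg_mul, div_mul_cancel₀ _ h.ne]
      linarith
    · exact Filter.Eventually.of_forall fun M => Or.inl h
    · filter_upwards [Filter.eventually_gt_atTop (-(d0 / d1))] with M hM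
      right
      rw [e, sz_pos h, sz_pos]
      have : -(d0 / d1) * d1 < M * d1 := mul_lt_mul_of_pos_right hM h
      have h2 : -(d0 / d1) * d1 = -d0 := by rw [neg_mul, div_mul_cancel₀ _ h.ne']
      linarith
  filter_upwards [Filter.eventually_all.2 h1] with M hM
  intro W hW
  have := hM fun p => (⟨(W p).1, (hW p (by omega)).1⟩, ⟨(W p).2, (hW p (by omega)).2⟩)
  have e : ∀ γ : Row → ℝ, (bm D.v γ fun p => if h : p < n + 1 then ((W p).1, (W p).2)
      else (0, 0)) = bm D.v γ W := by
    intro γ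
    funext p q
    simp only [bm, Matrix.of_apply, p.2, dif_pos]
  simp only at this
  rwa [e, e] at this

variable {D}

theorem getD_append_right (L : List Row) (r : Row) : (L ++ [r]).getD L.length (0, 0) = r := by
  simp [List.getD_eq_getElem?_getD]

theorem getD_append_left {L : List Row} (r : Row) {p : ℕ} (h : p < L.length) :
    (L ++ [r]).getD p (0, 0) = L.getD p (0, 0) := by
  simp [List.getD_eq_getElem?_getD, List.getElem?_append_left h]

theorem val_append {L : List Row} {r : Row} (h : Val m L) (hr : r.1 < m ∧ r.2 < 3) :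
    Val m (L ++ [r]) := by
  intro q hq
  rcases List.mem_append.1 hq with hq | hq
  · exact h q hq
  · rw [List.mem_singleton.1 hq]; exact hr

theorem val_getD {L : List Row} (h : Val m L) {p : ℕ} (hp : p < L.length) :
    (L.getD p (0, 0)).1 < m ∧ (L.getD p (0, 0)).2 < 3 := by
  rw [List.getD_eq_getElem _ _ hp]
  exact h _ (List.getElem_mem _)

theorem Orc.gS {s : Key → ℤ} (hs : D.Orc s) {M : ℝ} (hM : D.Large M) {L : List Row}
    (hL : Val m L) (hl : L.length = n) {r : Row} (hr : r.1 < m ∧ r.2 < 3)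
    (hd : (mat D.v (fn n L)).det ≠ 0) {x : Fin n → ℝ} (hx : Vert D.v (D.be M) (fn n L) x) :
    gS s n L r = sz (gap D.v (D.be M) r x) := by
  have hn := D.hn
  have hv := val_append hL hr
  have hlen : (L ++ [r]).length = n + 1 := by rw [List.length_append, hl]; rfl
  have hW : ∀ p ≤ n, ((L ++ [r]).getD p (0, 0)).1 < m ∧ ((L ++ [r]).getD p (0, 0)).2 < 3 :=
    fun p hp => val_getD hv (by omega)
  have e1 : (if s (keyB n 1 (L ++ [r])) = 0 then s (keyB n 0 (L ++ [r]))
      else s (keyB n 1 (L ++ [r]))) =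
      sz ((-1) ^ n * (bm D.v (D.be M) fun p => (L ++ [r]).getD p (0, 0)).det) := by
    rw [hs.hB 1 _ hv hlen, hs.hB 0 _ hv hlen, sz_mul, sz_mul, sz_mul]
    have hne : sz ((-1 : ℝ) ^ n) ≠ 0 := by
      rw [Ne, sz_eq_zero]
      exact pow_ne_zero _ (by norm_num)
    have hlin : (bm D.v (D.be M) fun p => (L ++ [r]).getD p (0, 0)).det =
        (bm D.v (D.rhs 0) fun p => (L ++ [r]).getD p (0, 0)).det +
          M * (bm D.v (D.rhs 1) fun p => (L ++ [r]).getD p (0, 0)).det :=
      bm_linear D.v (D.rhs 0) (D.rhs 1) _ M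
    by_cases h0 : (bm D.v (D.rhs 1) fun p => (L ++ [r]).getD p (0, 0)).det = 0
    · rw [hlin, h0, sz_zero, mul_zero, if_pos rfl, mul_zero, add_zero]
    · rw [if_neg (mul_ne_zero hne fun h => h0 (sz_eq_zero.1 h))]
      rcases hM _ hW with h | h
      · exact absurd h h0
      · rw [h]
  have e2 : (bm D.v (D.be M) fun p => (L ++ [r]).getD p (0, 0)).det =
      -((mat D.v (fn n L)).det * gap D.v (D.be M) r x) := by
    have := bm_det D.v (D.be M) (fun p => (L ++ [r]).getD p (0, 0)) x fun p hp => by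
      rw [getD_append_left r (by omega)]
      exact hx ⟨p, hp⟩
    rw [this]
    have h1 : (L ++ [r]).getD n (0, 0) = r := by
      conv_lhs => rw [← hl]
      exact getD_append_right L r
    rw [h1]
    congr 3
    funext p q
    simp only [mat, Matrix.of_apply, fn]
    rw [getD_append_left r (by rw [hl]; exact p.2)]
  rw [Pool.Agent.H37.CH.gS, e1, hs.hA L hL hl, ← sz_mul, e2]
  have h3 : (-1 : ℝ) ^ (n - 1) * (mat D.v (fn n L)).det *
      ((-1) ^ n * -((mat D.v (fn n L)).det * gap D.v (D.be M) r x)) =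
      ((mat D.v (fn n L)).det) ^ 2 * gap D.v (D.be M) r x := by
    obtain ⟨k, rfl⟩ : ∃ k, n = k + 1 := ⟨n - 1, by omega⟩
    rw [Nat.add_sub_cancel, pow_succ]
    have : (-1 : ℝ) ^ k * (-1) ^ k = 1 := by
      rw [← pow_add]
      exact Even.neg_one_pow ⟨_, rfl⟩
    calc _ = ((-1 : ℝ) ^ k * (-1) ^ k) * (((mat D.v (fn (k + 1) L)).det) ^ 2 *
          gap D.v (D.be M) r x) := by ring
      _ = _ := by rw [this, one_mul]
  rw [h3, sz_mul, sz_pos (by positivity), one_mul]

theorem upd_length (n : ℕ) (L : List Row) (t : ℕ) (c : Row) : (upd n L t c).length = n := by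
  simp [upd]

theorem fn_upd (L : List Row) (t : Fin n) (c : Row) :
    fn n (upd n L t c) = update (fn n L) t c := by
  funext p
  simp only [fn, upd]
  rw [List.getD_eq_getElem _ _ (by simp), List.getElem_map, List.getElem_range]
  by_cases h : (p : ℕ) = t
  · rw [if_pos h, Fin.ext h, update_self]
  · rw [if_neg h, update_of_ne fun h' => h (congrArg Fin.val h')]
    rfl

theorem val_upd {L : List Row} (hL : Val m L) (hl : L.length = n) {c : Row}
    (hc : c.1 < m ∧ c.2 < 3) (t : ℕ) : Val m (upd n L t c) := by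
  intro r hr
  simp only [upd, List.mem_map, List.mem_range] at hr
  obtain ⟨i, hi, rfl⟩ := hr
  split_ifs
  · exact hc
  · exact val_getD hL (by omega)

theorem Orc.dualS {s : Key → ℤ} (hs : D.Orc s) {L : List Row}
    (hL : Val m L) (hl : L.length = n) {c : Row} (hc : c.1 < m ∧ c.2 < 3) :
    dualS s n c L = true ↔ (mat D.v (fn n L)).det ≠ 0 ∧ Dual D.v (D.v c) (fn n L) := by
  have h1 : s (keyA n L) ≠ 0 ↔ (mat D.v (fn n L)).det ≠ 0 := by
    rw [hs.hA L hL hl, Ne, sz_eq_zero, mul_eq_zero, not_or]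
    exact and_iff_right (pow_ne_zero _ (by norm_num))
  simp only [Pool.Agent.H37.CH.dualS, Bool.and_eq_true, decide_eq_true_eq, List.all_eq_true,
    List.mem_range]
  rw [h1]
  refine and_congr_right fun hd => ?_
  rw [dual_iff hd]
  have key : ∀ t : Fin n, (s (keyA n L) * s (keyA n (upd n L t c)) = -1 ↔
      (mat D.v (fn n L)).det * ((mat D.v (fn n L)).updateRow t (D.v c)).det < 0) := by
    intro t
    rw [hs.hA L hL hl, hs.hA _ (val_upd hL hl hc t) (upd_length _ _ _ _), sz_mul_eq_neg,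
      fn_upd, mat_update]
    have : (-1 : ℝ) ^ (n - 1) * (mat D.v (fn n L)).det *
        ((-1) ^ (n - 1) * ((mat D.v (fn n L)).updateRow t (D.v c)).det) =
        (mat D.v (fn n L)).det * ((mat D.v (fn n L)).updateRow t (D.v c)).det := by
      have h2 : (-1 : ℝ) ^ (n - 1) * (-1) ^ (n - 1) = 1 := by
        rw [← pow_add]
        exact Even.neg_one_pow ⟨_, rfl⟩
      calc _ = ((-1 : ℝ) ^ (n - 1) * (-1) ^ (n - 1)) * ((mat D.v (fn n L)).det *
            ((mat D.v (fn n L)).updateRow t (D.v c)).det) := by ring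
        _ = _ := by rw [h2, one_mul]
    rw [this]
  exact ⟨fun h t => (key t).1 (h t t.2), fun h t ht => (key ⟨t, ht⟩).2 (h ⟨t, ht⟩)⟩

end Data

end Pool.Agent.H37.CH
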