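import Pool.Agent.H37.CH.Alg
import Pool.Graph.R_seed8.Y648.CS.T_DET
import Pool.Graph.R_seed8.Y648.CS.T_QQ

/-! The query for a determinant. -/

set_option autoImplicit false

namespace Pool.Agent.H37.CH

open Pool.Agent.NPC Pool.Agent.H558R2 Pool.Agent.H622R3.SM Pool.Agent.W920.FC
open Pool.Agent.Y648.CS.TDET

/-- the register read -/
def rd (x : Src) : Reg := if x.2.headD 0 < 4 then x.2 else [3]

/-- the instruction for a source -/
def srcI (x : Src) (r : Reg) : Instr :=
  if x.1 = true then ⟨Op.sub, r, [3], rd x⟩ else ⟨Op.add, r, rd x, [3]⟩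

/-- the entry of a matrix -/
def kget (K : Key) (i k : ℕ) : Src := (K.getD i []).getD k (false, [3])

/-- the entries -/
def entK (K : Key) : List Instr :=
  (List.range K.length).flatMap fun i => (List.range K.length).map fun k =>
    srcI (kget K i k) [4, i, k]

/-- the query -/
def detK (K : Key) : Qry :=
  if K.length = 0 then ([], [3]) else (entK K ++ flProg K.length, [10, K.length - 1])

/-- the value of a source -/
noncomputable def sv (g : Reg → ℝ) (x : Src) : ℝ := (if x.1 = true then -1 else 1) * g (rd x)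

/-- the matrix -/
noncomputable def MK (g : Reg → ℝ) (K : Key) : Matrix (Fin K.length) (Fin K.length) ℝ :=
  Matrix.of fun i k => sv g (kget K i k)

/-- the value of the query -/
noncomputable def dv (g : Reg → ℝ) (K : Key) : ℝ :=
  if K.length = 0 then 0 else (-1) ^ (K.length - 1) * (MK g K).det

theorem rd_mem (x : Src) : rd x ∈ baseReg := by
  unfold rd
  split_ifs with h
  · exact h
  · exact b3

theorem mem_entK {K : Key} {I : Instr} (hI : I ∈ entK K) :
    ∃ i k, i < K.length ∧ k < K.length ∧ I = srcI (kget K i k) [4, i, k] := by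
  simp only [entK, List.mem_flatMap, List.mem_map, List.mem_range] at hI
  obtain ⟨i, hi, k, hk, rfl⟩ := hI
  exact ⟨i, k, hi, hk, rfl⟩

theorem srcI_dst (x : Src) (r : Reg) : (srcI x r).dst = r := by
  unfold srcI
  split_ifs <;> rfl

theorem srcI_ops (x : Src) (r : Reg) : (srcI x r).fst ∈ baseReg ∧ (srcI x r).snd ∈ baseReg := by
  unfold srcI
  split_ifs
  · exact ⟨b3, rd_mem x⟩
  · exact ⟨rd_mem x, b3⟩

theorem srcI_eqn (x : Src) (r : Reg) (g V : Reg → ℝ) (hg : Base g)
    (hV : ∀ r ∈ baseReg, V r = g r) (hr : V r = sv g x) : Eqn V (srcI x r) := by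
  have h3 : V [3] = 0 := (hV _ b3).trans hg.2
  have h4 : V (rd x) = g (rd x) := hV _ (rd_mem x)
  unfold sv at hr
  unfold srcI
  split_ifs at hr ⊢ <;> refine ⟨?_, by simp⟩ <;> simp only [Op.eval, hr, h3, h4] <;> ring

theorem ordK (K : Key) : Ord baseReg (entK K) := by
  refine TORD.ord_of_sorted _ _ ?_ ?_ ?_
  · refine TORD.pwF _ _ (fun i hi => TORD.pwM _ _ fun a b hab hb => ?_)
      fun i i' hii hi' x hx y hy => ?_
    · simp only [TORD.LT, srcI_dst, TORD.key4]
      simp [List.cons_lt_cons_iff]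
      omega
    · simp only [List.mem_map, List.mem_range] at hx hy
      obtain ⟨j, hj, rfl⟩ := hx
      obtain ⟨j', hj', rfl⟩ := hy
      simp only [TORD.LT, srcI_dst, TORD.key4]
      simp [List.cons_lt_cons_iff]
      omega
  · intro I hI
    obtain ⟨i, k, hi, hk, rfl⟩ := mem_entK hI
    rw [srcI_dst]
    simp [baseReg]
  · intro I hI r hr
    obtain ⟨i, k, hi, hk, rfl⟩ := mem_entK hI
    have h := srcI_ops (kget K i k) [4, i, k]
    rcases hr with rfl | rfl
    · exact Or.inl h.1
    · exact Or.inl h.2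

theorem wrK {K : Key} {i k : ℕ} (hi : i < K.length) (hk : k < K.length) :
    [4, i, k] ∈ wr (entK K) := by
  refine ⟨srcI (kget K i k) [4, i, k], ?_, srcI_dst _ _⟩
  simp only [entK, List.mem_flatMap, List.mem_map, List.mem_range]
  exact ⟨i, hi, k, hk, rfl⟩

theorem wrK_hd {K : Key} {r : Reg} (hr : r ∈ wr (entK K)) : r.headD 0 = 4 := by
  obtain ⟨I, hI, rfl⟩ := hr
  obtain ⟨i, k, hi, hk, rfl⟩ := mem_entK hI
  rw [srcI_dst]
  rfl

theorem cVal_det' {K : ℕ} (hK : 1 ≤ K) (G : Matrix (Fin K) (Fin K) ℝ) :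
    cVal G (K - 1) = (-1) ^ (K - 1) * G.det := by
  obtain ⟨k, rfl⟩ : ∃ k, K = k + 1 := ⟨K - 1, by omega⟩
  exact cVal_det G

theorem sv_IB (g : Reg → ℝ) (x : Src) {D lam : ℕ}
    (h : ∀ r ∈ baseReg, ∃ z : ℤ, z.natAbs ≤ 2 ^ lam ∧ g r * D = z) :
    IB (sv g x) D (2 ^ lam) := by
  obtain ⟨z, h2, h3⟩ := h _ (rd_mem x)
  have hz : |z| ≤ ((2 ^ lam : ℕ) : ℤ) := by
    rw [← Int.natCast_natAbs]
    exact_mod_cast h2
  unfold sv
  split_ifs
  · refine ⟨-z, by rw [mul_assoc, h3]; push_cast; ring, ?_⟩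
    rw [abs_neg]
    exact hz
  · exact ⟨z, by rw [one_mul, h3], hz⟩

/-- The query for a determinant. -/
theorem t_detK (N : ℕ) (g : Reg → ℝ) (hg : Base g) (K : Key) (hN : K.length ≤ N + 2) :
    HasVal g (Gd qD N g) (detK K) (dv g K) ∧ (detK K).1.length ≤ qD.eval N := by
  by_cases h0 : K.length = 0
  · unfold detK dv
    rw [if_pos h0, if_pos h0]
    exact ⟨⟨trivial, g, fun _ _ => rfl, fun I hI => absurd hI (by simp), Or.inl b3, hg.2⟩,
      Nat.zero_le _⟩
  unfold detK dv
  rw [if_neg h0, if_neg h0]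
  have hK : 1 ≤ K.length := by omega
  set G := MK g K with hG
  have hord1 : Ord baseReg (entK K) := ordK K
  have hfl := t_ORD2B t_ORD1 K.length (baseReg ∪ wr (entK K)) Set.subset_union_left
    (fun i hi j hj => Or.inr (wrK hi hj)) (fun r hr => by
      rcases hr with hr | hr
      · have : r.headD 0 < 4 := hr
        omega
      · have := wrK_hd hr
        omega)
  have hord : Ord baseReg (entK K ++ flProg K.length) :=
    (t_ORD1.1 _ _ _).2 ⟨hord1, hfl.1⟩
  have hent : ∀ i k, i < K.length → k < K.length →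
      vd g G [4, i, k] = sv g (kget K i k) := by
    intro i k hi hk
    rw [v4, Pool.Agent.W920.FD.TEQM.ent_mk _ _ _ hi hk, hG]
    rfl
  refine ⟨⟨hord, vd g G, vd_base g G, ?_, ?_, ?_⟩, ?_⟩
  · intro I hI
    have hE : Eqn (vd g G) I := by
      rcases List.mem_append.1 hI with hI | hI
      · obtain ⟨i, k, hi, hk, rfl⟩ := mem_entK hI
        exact srcI_eqn _ _ g _ hg (vd_base g G) (hent i k hi hk)
      · exact good_fl G hg I hI
    refine ⟨hE.1, hE.2, ?_⟩
    intro lam hlam
    obtain ⟨D, hD1, hD2, hD3⟩ := hlam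
    have hIB : ∀ i j, IB (G i j) D (2 ^ lam) := fun i j =>
      sv_IB g (kget K i j) hD3
    have hs := sizes (K := K.length) hK (g := g) G hD1 hD2 hIB
      (qD_ge K.length lam (N + lam) (by omega) (by omega))
    rcases List.mem_append.1 hI with hI | hI
    · obtain ⟨i, k, hi, hk, rfl⟩ := mem_entK hI
      rw [srcI_dst]
      exact hs.1 i k
    · exact hs.2 I hI
  · right
    obtain ⟨I, hI, hI2⟩ := hfl.2.2.2 (K.length - 1) (by omega)
    exact ⟨I, List.mem_append_right _ hI, hI2⟩
  · show cVal G (K.length - 1) = _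
    rw [cVal_det' hK]
  · show (entK K ++ flProg K.length).length ≤ _
    rw [List.length_append]
    have h1 : (entK K).length = K.length * K.length := by
      unfold entK
      rw [List.length_flatMap]
      simp
    have h2 := Pool.Agent.W920.FD.TLEN.l_fl K.length
    rw [h1]
    refine le_trans (Nat.add_le_add_left h2 _) (len_ge K.length N (by omega))

section

variable {α : Type} [TEnc α]

theorem prd {x : α → Src} (h : Poly x) : Poly (fun a => rd (x a)) := by
  unfold rd
  exact NPC.Poly.ite (NPC.Poly.decide_lt (Pool.Agent.Y648.CS.TQQ.pheadD (NPC.Poly.snd h))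
    (NPC.Poly.const 4)) (NPC.Poly.snd h) (NPC.Poly.const _)

theorem psrcI {x : α → Src} {r : α → Reg} (h : Poly x) (hr : Poly r) :
    Poly (fun a => srcI (x a) (r a)) := by
  unfold srcI
  exact NPC.Poly.ite (NPC.Poly.decide_bool (NPC.Poly.fst h))
    (TPM.pInstr _ hr (NPC.Poly.const _) (prd h)) (TPM.pInstr _ hr (prd h) (NPC.Poly.const _))

theorem pkget {K : α → Key} {i k : α → ℕ} (hK : Poly K) (hi : Poly i) (hk : Poly k) :
    Poly (fun a => kget (K a) (i a) (k a)) :=
  NPC.Poly.getD (NPC.Poly.getD hK hi (NPC.Poly.const _)) hk (NPC.Poly.const _)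

theorem pdetK {K : α → Key} (hK : Poly K) : Poly (fun a => detK (K a)) := by
  unfold detK
  have hU : UPoly (fun a => (K a).length) := UPoly.length hK
  have hL : Poly (fun a => (K a).length) := NPC.Poly.length hK
  refine NPC.Poly.ite (NPC.Poly.dec_eq hL (NPC.Poly.const 0)) (NPC.Poly.const _) ?_
  refine NPC.Poly.pair (NPC.Poly.append ?_ (Pool.Agent.Y648.CS.TQQ.pfl hU)) ?_
  · unfold entK
    refine NPC.Poly.flatMap (F := fun a i => (List.range (K a).length).map fun k =>
      srcI (kget (K a) i k) [4, i, k]) hU.range ?_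
    refine NPC.Poly.map (l := fun p : α × ℕ => List.range (K p.1).length)
      (F := fun p k => srcI (kget (K p.1) p.2 k) [4, p.2, k])
      (hU.range.comp (NPC.Poly.fst NPC.Poly.id)) ?_
    have b : Poly (fun q : (α × ℕ) × ℕ => q.1.1) := NPC.Poly.fst (NPC.Poly.fst NPC.Poly.id)
    have b2 : Poly (fun q : (α × ℕ) × ℕ => q.1.2) := NPC.Poly.snd (NPC.Poly.fst NPC.Poly.id)
    have b3 : Poly (fun q : (α × ℕ) × ℕ => q.2) := NPC.Poly.snd NPC.Poly.id
    exact psrcI (pkget (hK.comp b) b2 b3)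
      (NPC.Poly.cons (NPC.Poly.const 4) (NPC.Poly.cons b2 (NPC.Poly.cons b3
        (NPC.Poly.const []))))
  · exact NPC.Poly.cons (NPC.Poly.const 10) (NPC.Poly.cons
      (NPC.Poly.sub hL (NPC.Poly.const 1)) (NPC.Poly.const []))

end

end Pool.Agent.H37.CH
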