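import Pool.Agent.H37.CH.Orc
import Pool.Agent.H37.CH.Ctrl
import Pool.Graph.R_seed8.R533.GU.Defs
import Pool.Graph.R_seed8.W920.FC.T_RUN
import Pool.Graph.R_seed8.W920.FC.T_BITS
import Pool.Graph.R_seed8.Y648.CS.T_FINAL

/-! The algorithm decides all instances. -/

set_option autoImplicit false

namespace Pool.Agent.H37.CH

open Matrix Pool.Agent.H558R2 Pool.Agent.H622R3.SM Pool.Agent.W920.FC Pool.Agent.R533.GU
open Pool.Agent.Y648.CS.TDET (qD)

theorem decides (C : ∀ m n : ℕ, Matrix (Fin m) (Fin n) ℝ → (Fin m → ℝ) → Prop)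
    (hC : ∀ (m n : ℕ) (A : Matrix (Fin m) (Fin n) ℝ) (b : Fin m → ℝ), 1 ≤ m → 1 ≤ n →
      C m n A b → ∃ (N : ℕ) (D : Data m n N), D.A = A ∧ D.b = b) : DecidesOn ∅ C alg := by
  refine ⟨qT + 1 + (2 * qD.comp (3 * Polynomial.X) + 3), fun m n hm hn A b hA => ?_⟩
  obtain ⟨N, D, rfl, rfl⟩ := hC m n A b hm hn hA
  have hbase : Base (start D.A D.b) := ⟨rfl, rfl⟩
  have hr := runs_TA' (m := m) (n := n) hbase
  have hfuel : qT.eval (m + n) + 1 ≤
      (qT + 1 + (2 * qD.comp (3 * Polynomial.X) + 3)).eval (m + n) := by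
    simp only [Polynomial.eval_add, Polynomial.eval_one]
    omega
  obtain ⟨nums, steps, hrun, hsteps, hG⟩ := t_RUN TA m n _ _ _ _ hr ∅ _ hfuel
  refine ⟨_, nums, steps, hrun, ?_, by omega, ?_⟩
  · rw [D.orc.answer]
    rfl
  · intro A' b' hA' hb' v hv
    have hA2 : (fun i j => ((A' i j : ℚ) : ℝ)) = (D.A : Fin m → Fin n → ℝ) := by
      funext i j
      exact hA' i j
    have hb2 : (fun i => ((b' i : ℚ) : ℝ)) = D.b := by
      funext i
      exact hb' i
    have hRB := t_BITS.2 m n A' b'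
    rw [hA2, hb2] at hRB
    have hQ := hG v hv _ hRB
    obtain ⟨q, hq, hq2⟩ := t_BITS.1 _ _ hQ
    refine ⟨q, hq, hq2.trans ?_⟩
    have hL := Pool.Agent.Y648.CS.FL.le_inputLength hm A' b'
    have hmono := Pool.Agent.Y648.CS.pe_mono qD
      (show m + n + 2 * inputLength A' b' ≤ 3 * inputLength A' b' by omega)
    simp only [Polynomial.eval_add, Polynomial.eval_mul, Polynomial.eval_comp,
      Polynomial.eval_X, Polynomial.eval_ofNat]
    omega

/-! ### Chebyshev systems -/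

/-- The vectors `T 0, ..., T (N - 1)` form a Chebyshev system: all determinants of `n` of them, in
increasing order, are different from zero and have the same sign. -/
def Chebyshev {N n : ℕ} (T : Fin N → Fin n → ℝ) : Prop :=
  n ≤ N ∧ ∃ σ : ℝ, ∀ f : Fin n → Fin N, StrictMono f →
    0 < σ * (Matrix.of fun p => T (f p)).det

/-- The rows of `A` are nonzero multiples of vectors of a Chebyshev system. -/
def ChebyshevRows (m n : ℕ) (A : Matrix (Fin m) (Fin n) ℝ) : Prop :=
  ∃ (N : ℕ) (T : Fin N → Fin n → ℝ), Chebyshev T ∧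
    ∀ i, ∃ (u : Fin N) (δ : ℝ), δ ≠ 0 ∧ ∀ j, A i j = δ * T u j

theorem data_of {m n : ℕ} (hm : 1 ≤ m) (hn : 1 ≤ n) {A : Matrix (Fin m) (Fin n) ℝ}
    (b : Fin m → ℝ) (h : ChebyshevRows m n A) :
    ∃ (N : ℕ) (D : Data m n N), D.A = A ∧ D.b = b := by
  obtain ⟨N, T, ⟨hN, σ, hT⟩, hA⟩ := h
  choose ν δ hδ hA using hA
  by_cases h1 : n = 1
  · subst h1
    refine ⟨1, ⟨A, b, fun _ _ => 1, fun _ => 0, fun i => A i 0, hm, hn, le_rfl, ⟨1, fun s => ?_⟩,
      fun i => ?_, fun i => ?_, fun _ _ _ => rfl⟩, rfl, rfl⟩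
    · simp
    · rw [hA i 0]
      refine mul_ne_zero (hδ i) fun h0 => ?_
      have := hT (fun _ => ν i) (fun a b hab => absurd hab (by
        have := a.2; have := b.2; omega))
      rw [Matrix.det_fin_one] at this
      simp only [Matrix.of_apply] at this
      rw [h0, mul_zero] at this
      exact lt_irrefl _ this
    · funext j
      rw [Subsingleton.elim j 0]
      simp
  · refine ⟨N, ⟨A, b, T, ν, δ, hm, hn, hN, ⟨σ, fun s => hT s s.strictMono⟩, hδ, fun i => ?_,
      fun h => absurd h h1⟩, rfl, rfl⟩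
    funext j
    exact hA i j

theorem main : PolyControl alg ∧ OracleFree alg ∧
    DecidesOn ∅ (fun m n A _ => ChebyshevRows m n A) alg :=
  ⟨ctrl, oracleFree, decides _ fun _ _ _ b hm hn h => data_of hm hn b h⟩

/-- Any basis may be used. -/
theorem chebyshevRows_mul {m n : ℕ} {A : Matrix (Fin m) (Fin n) ℝ} (h : ChebyshevRows m n A)
    {P : Matrix (Fin n) (Fin n) ℝ} (hP : P.det ≠ 0) : ChebyshevRows m n (A * P) := by
  obtain ⟨N, T, ⟨hN, σ, hT⟩, hA⟩ := h
  refine ⟨N, fun u => T u ᵥ* P, ⟨hN, σ * P.det, fun f hf => ?_⟩, fun i => ?_⟩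
  · have h1 : (Matrix.of fun p => T (f p) ᵥ* P) = (Matrix.of fun p => T (f p)) * P := by
      ext p q
      rfl
    rw [h1, Matrix.det_mul]
    have h2 := hT f hf
    have h3 : 0 < P.det * P.det := by
      rcases lt_or_gt_of_ne hP with h | h
      · exact mul_pos_of_neg_of_neg h h
      · exact mul_pos h h
    calc 0 < σ * (Matrix.of fun p => T (f p)).det * (P.det * P.det) := mul_pos h2 h3
      _ = _ := by ring
  · obtain ⟨u, δ, hδ, hA⟩ := hA i
    refine ⟨u, δ, hδ, fun j => ?_⟩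
    rw [Matrix.mul_apply]
    simp only [Matrix.vecMul, dotProduct, Finset.mul_sum]
    exact Finset.sum_congr rfl fun k _ => by rw [hA k]; ring

/-- Polynomials of degree less than `n`. -/
theorem chebyshevRows_poly {m n : ℕ} (t δ : Fin m → ℝ) (hδ : ∀ i, δ i ≠ 0) :
    ChebyshevRows m n (Matrix.of fun i j => δ i * t i ^ (j : ℕ)) := by
  classical
  let S : Finset ℝ := Finset.univ.image t ∪ (Finset.range n).image (fun k : ℕ => (k : ℝ))
  have hS : n ≤ S.card := by
    calc n = ((Finset.range n).image (fun k : ℕ => (k : ℝ))).card := by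
          rw [Finset.card_image_of_injective _ Nat.cast_injective, Finset.card_range]
      _ ≤ S.card := Finset.card_le_card Finset.subset_union_right
  let e := S.orderEmbOfFin rfl
  refine ⟨S.card, fun u j => e u ^ (j : ℕ), ⟨hS, 1, fun f hf => ?_⟩, fun i => ?_⟩
  · have h1 : (Matrix.of fun p j => e (f p) ^ ((j : Fin n) : ℕ)) =
        Matrix.vandermonde fun p => e (f p) := rfl
    rw [one_mul]
    show 0 < (Matrix.of fun p j => e (f p) ^ ((j : Fin n) : ℕ)).det
    rw [h1, Matrix.det_vandermonde]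
    refine Finset.prod_pos fun i _ => Finset.prod_pos fun j hj => ?_
    rw [sub_pos]
    exact e.strictMono (hf (Finset.mem_Ioi.1 hj))
  · have h1 : t i ∈ Set.range e := by
      rw [Finset.range_orderEmbOfFin]
      exact Finset.mem_coe.2 (Finset.mem_union_left _
        (Finset.mem_image_of_mem _ (Finset.mem_univ i)))
    obtain ⟨u, hu⟩ := h1
    refine ⟨u, δ i, hδ i, fun j => ?_⟩
    show δ i * t i ^ (j : ℕ) = δ i * e u ^ (j : ℕ)
    rw [hu]

end Pool.Agent.H37.CH
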