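import Pool.Agent.H37.CH.Data

/-! Correctness of the main loop. -/

set_option autoImplicit false

namespace Pool.Agent.H37.CH

open Finset Matrix Function

theorem IsCheb.interp {N n : ℕ} {T : Fin N → Fin n → ℝ} (hT : IsCheb T) (hN : n ≤ N)
    {S : Finset (Fin N)} (hS : S.card ≤ n) (y : Fin N → ℝ) :
    ∃ x : Fin n → ℝ, ∀ u ∈ S, T u ⬝ᵥ x = y u := by
  obtain ⟨S', hSS, hS'⟩ := Finset.exists_superset_card_eq hS (by rwa [Fintype.card_fin])
  have hd := hT.ne (S'.orderEmbOfFin hS')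
  set M := Matrix.of fun p => T (S'.orderEmbOfFin hS' p) with hM
  refine ⟨M⁻¹ *ᵥ fun p => y (S'.orderEmbOfFin hS' p), fun u hu => ?_⟩
  have h1 : M *ᵥ (M⁻¹ *ᵥ fun p => y (S'.orderEmbOfFin hS' p)) =
      fun p => y (S'.orderEmbOfFin hS' p) := by
    rw [Matrix.mulVec_mulVec, Matrix.mul_nonsing_inv _ (isUnit_iff_ne_zero.2 hd),
      Matrix.one_mulVec]
  have h2 : u ∈ Set.range (S'.orderEmbOfFin hS') := by
    rw [Finset.range_orderEmbOfFin]
    exact hSS hu
  obtain ⟨p, rfl⟩ := h2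
  exact congrFun h1 p

namespace Data

variable {m n N : ℕ} {D : Data m n N} {s : Key → ℤ}

theorem e_lt {i j : ℕ} (hj : j < n) : D.e i j = D.δ (D.cl i) * D.T (D.ν (D.cl i)) ⟨j, hj⟩ := by
  rw [e, dif_pos hj, D.hA]
  rfl

theorem Orc.par (hs : D.Orc s) {i i' : ℕ} (hi : i < m) (hi' : i' < m) :
    parS s n i i' = true ↔ D.ν (D.cl i) = D.ν (D.cl i') := by
  have key : parS s n i i' = true ↔ ∀ j l : Fin n,
      D.T (D.ν (D.cl i)) j * D.T (D.ν (D.cl i')) l =
        D.T (D.ν (D.cl i)) l * D.T (D.ν (D.cl i')) j := by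
    simp only [parS, List.all_eq_true, List.mem_range, decide_eq_true_eq]
    have h1 : ∀ j l : Fin n, (s (keyP n i i' j l) = 0 ↔
        D.T (D.ν (D.cl i)) j * D.T (D.ν (D.cl i')) l =
        D.T (D.ν (D.cl i)) l * D.T (D.ν (D.cl i')) j) := by
      intro j l
      rw [hs.hP i i' j l hi hi' j.2 l.2.le, sz_eq_zero, neg_eq_zero, e_lt j.2, e_lt l.2, e_lt l.2,
        e_lt j.2]
      have hne : D.δ (D.cl i) * D.δ (D.cl i') ≠ 0 := mul_ne_zero (D.hδ _) (D.hδ _)
      rw [← sub_eq_zero (a := D.T (D.ν (D.cl i)) j * D.T (D.ν (D.cl i')) l)]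
      constructor
      · intro h
        refine (mul_eq_zero.1 (?_ : D.δ (D.cl i) * D.δ (D.cl i') * _ = 0)).resolve_left hne
        rw [← h]
        ring
      · intro h
        have : D.δ (D.cl i) * D.δ (D.cl i') * (D.T (D.ν (D.cl i)) j * D.T (D.ν (D.cl i')) l -
          D.T (D.ν (D.cl i)) l * D.T (D.ν (D.cl i')) j) = 0 := by rw [h, mul_zero]
        rw [← this]
        ring
    exact ⟨fun h j l => (h1 j l).1 (h j j.2 l l.2), fun h j hj l hl =>
      (h1 ⟨j, hj⟩ ⟨l, hl⟩).2 (h ⟨j, hj⟩ ⟨l, hl⟩)⟩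
  rw [key]
  constructor
  · intro h
    by_contra hne
    have hn2 : 2 ≤ n := by
      have h1 := D.hn
      by_contra h2
      exact hne (D.hone (by omega) _ _)
    obtain ⟨x, hx⟩ := D.hT.interp D.hN (S := {D.ν (D.cl i), D.ν (D.cl i')})
      (by rw [Finset.card_pair hne]; exact hn2) (fun u => if u = D.ν (D.cl i) then 1 else 0)
    have h1 := hx _ (Finset.mem_insert_self _ _)
    have h2 := hx (D.ν (D.cl i')) (by simp)
    rw [if_pos rfl] at h1
    rw [if_neg (Ne.symm hne)] at h2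
    have h3 : D.T (D.ν (D.cl i')) = 0 := by
      funext l
      have : ∑ j, D.T (D.ν (D.cl i)) j * D.T (D.ν (D.cl i')) l * x j =
          ∑ j, D.T (D.ν (D.cl i)) l * D.T (D.ν (D.cl i')) j * x j :=
        Finset.sum_congr rfl fun j _ => by rw [h j l]
      have e1 : ∑ j, D.T (D.ν (D.cl i)) j * D.T (D.ν (D.cl i')) l * x j =
          (D.T (D.ν (D.cl i)) ⬝ᵥ x) * D.T (D.ν (D.cl i')) l := by
        rw [dotProduct, Finset.sum_mul]
        exact Finset.sum_congr rfl fun j _ => by ring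
      have e2 : ∑ j, D.T (D.ν (D.cl i)) l * D.T (D.ν (D.cl i')) j * x j =
          D.T (D.ν (D.cl i)) l * (D.T (D.ν (D.cl i')) ⬝ᵥ x) := by
        rw [dotProduct, Finset.mul_sum]
        exact Finset.sum_congr rfl fun j _ => by ring
      rw [e1, e2, h1, h2, one_mul, mul_zero] at this
      exact this
    obtain ⟨x', hx'⟩ := D.hT.interp D.hN (S := {D.ν (D.cl i')})
      (by rw [Finset.card_singleton]; omega) (fun _ => 1)
    have := hx' _ (Finset.mem_singleton_self _)
    rw [h3, zero_dotProduct] at this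
    norm_num at this
  · intro h j l
    rw [h]
    ring

theorem Orc.mem_rl (hs : D.Orc s) {i : ℕ} :
    i ∈ rl s n m ↔ i < m ∧ D.ν (D.cl i) ≠ D.ν (D.cl 0) := by
  rw [rl, List.mem_filter, List.mem_range]
  refine and_congr_right fun hi => ?_
  rw [Bool.not_eq_true', ← Bool.not_eq_true, hs.par D.hm hi]
  exact ne_comm

theorem Orc.mem_reps (hs : D.Orc s) {i : ℕ} : i ∈ reps s n m ↔ i ∈ rl s n m ∧
    ∀ i' ∈ rl s n m, i' < i → D.ν (D.cl i') ≠ D.ν (D.cl i) := by
  rw [reps, List.mem_filter]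
  refine and_congr_right fun hi => ?_
  simp only [List.all_eq_true, List.mem_filter, decide_eq_true_eq, Bool.not_eq_true',
    ← Bool.not_eq_true, and_imp]
  refine forall_congr' fun i' => forall_congr' fun h1 => forall_congr' fun _ => ?_
  rw [hs.par (hs.mem_rl.1 h1).1 (hs.mem_rl.1 hi).1]

theorem reps_sorted (s : Key → ℤ) (n m : ℕ) : (reps s n m).Pairwise (· < ·) :=
  (List.Pairwise.filter _ (List.Pairwise.filter _ List.pairwise_lt_range))

/-! ### The invariant -/

/-- The parameters of a run. -/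
structure Run (D : Data m n N) (s : Key → ℤ) (M : ℝ) (c : Row) (Vi : List Row) : Prop where
  hs : D.Orc s
  hM : D.Large M
  hc : c.1 < m ∧ c.2 < 3
  hc0 : D.nu c = D.ν (D.cl 0)
  hV : ∀ r ∈ Vi, r.1 ∈ rl s n m ∧ r.2 < 3 ∧ r.2 ≠ 0

section loop

variable (D s) (M : ℝ) (c : Row) (Vi : List Row)

/-- before or after an insertion -/
structure Off (k : ℕ) (L : List Row) : Prop where
  val : Val m L
  len : L.length = n
  det : (mat D.v (fn n L)).det ≠ 0
  dual : Dual D.v (D.v c) (fn n L)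
  mem : ∀ p, fn n L p ∈ pl Vi (rl s n m) k
  opt : ∀ x, Vert D.v (D.be M) (fn n L) x → ∀ r ∈ pl Vi (rl s n m) k, 0 ≤ gap D.v (D.be M) r x

/-- during the insertion of the row `k` -/
structure On (k : ℕ) (L : List Row) : Prop where
  kr : k ∈ rl s n m
  val : Val m L
  len : L.length = n
  det : (mat D.v (fn n L)).det ≠ 0
  dual : Dual D.v (D.v c) (fn n L)
  pth : ∃ pk, fn n L pk = (k, 0) ∧ (∀ p, p ≠ pk → fn n L p ∈ pl Vi (rl s n m) k) ∧
    ∃ x0 : Fin n → ℝ, (∀ p, p ≠ pk → gap D.v (D.be M) (fn n L p) x0 = 0) ∧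
      gap D.v (D.be M) (k, 0) x0 ≤ 0 ∧ ∀ r ∈ pl Vi (rl s n m) k, 0 ≤ gap D.v (D.be M) r x0

/-- the inequalities have no solution -/
def Inf : Prop := ¬∃ x, ∀ r ∈ Vi ++ (rl s n m).map fun i => (i, 0), 0 ≤ gap D.v (D.be M) r x

/-- the rank of a node after the node of `c` -/
def rk (u : Fin N) : ℕ := (Finset.univ.filter fun i : Fin m =>
  cyc (D.nu c) (D.ν i) < cyc (D.nu c) u).card

/-- the total distance to the row `k` -/
def Phi (k : ℕ) (L : List Row) : ℕ := ∑ p : Fin n,
  ((D.rk c (D.nu (fn n L p)) - D.rk c (D.nu (k, 0))) +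
    (D.rk c (D.nu (k, 0)) - D.rk c (D.nu (fn n L p))))

/-- the number of steps left -/
def Wt (st : St) : ℕ := if st.1 = true then 0 else
  if memS n st.2.2 st.2.1 = true then
    (m - st.2.1) * (n * m + 2) - (n * m + 1) + D.Phi c st.2.1 st.2.2
  else (m - st.2.1) * (n * m + 2)

/-- the invariant -/
def Inv (st : St) : Prop := if st.1 = true then D.Inf s M Vi else
  (D.Off s M c Vi st.2.1 st.2.2 ∨ D.On s M c Vi st.2.1 st.2.2)

end loop

variable {M : ℝ} {c : Row} {Vi : List Row}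

theorem rk_le (u : Fin N) : D.rk c u ≤ m := by
  unfold rk
  exact (Finset.card_le_univ _).trans (by simp)

theorem rk_mono {u w : Fin N} (h : cyc (D.nu c) u ≤ cyc (D.nu c) w) : D.rk c u ≤ D.rk c w := by
  unfold rk
  refine Finset.card_le_card fun i hi => ?_
  rw [Finset.mem_filter] at hi ⊢
  exact ⟨hi.1, hi.2.trans_le h⟩

theorem rk_lt {r : Row} {w : Fin N} (h : cyc (D.nu c) (D.nu r) < cyc (D.nu c) w) :
    D.rk c (D.nu r) < D.rk c w := by
  unfold rk
  refine Finset.card_lt_card ?_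
  rw [Finset.ssubset_iff_of_subset]
  · refine ⟨D.cl r.1, ?_, ?_⟩
    · rw [Finset.mem_filter]
      exact ⟨Finset.mem_univ _, h⟩
    · rw [Finset.mem_filter, not_and]
      intro _
      exact lt_irrefl _
  · intro i hi
    rw [Finset.mem_filter] at hi ⊢
    exact ⟨hi.1, hi.2.trans h⟩

theorem Phi_le (k : ℕ) (L : List Row) : D.Phi c k L ≤ n * m := by
  unfold Phi
  calc _ ≤ ∑ _p : Fin n, m := Finset.sum_le_sum fun p _ => by
        have h1 := D.rk_le (c := c) (D.nu (fn n L p))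
        have h2 := D.rk_le (c := c) (D.nu (k, 0))
        omega
    _ = n * m := by simp

theorem mem_pl {Vi : List Row} {R : List ℕ} {k : ℕ} {r : Row} :
    r ∈ pl Vi R k ↔ r ∈ Vi ∨ (r.2 = 0 ∧ r.1 ∈ R ∧ r.1 < k) := by
  obtain ⟨i, f⟩ := r
  simp only [pl, List.mem_append, List.mem_map, List.mem_filter, decide_eq_true_eq,
    Prod.mk.injEq]
  constructor
  · rintro (h | ⟨a, ⟨h1, h2⟩, rfl, rfl⟩)
    · exact Or.inl h
    · exact Or.inr ⟨rfl, h1, h2⟩
  · rintro (h | ⟨rfl, h1, h2⟩)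
    · exact Or.inl h
    · exact Or.inr ⟨i, ⟨h1, h2⟩, rfl, rfl⟩

theorem Run.pl_val (H : Run D s M c Vi) {k : ℕ} {r : Row} (hr : r ∈ pl Vi (rl s n m) k) :
    r.1 ∈ rl s n m ∧ r.2 < 3 := by
  rcases mem_pl.1 hr with h | ⟨h1, h2, -⟩
  · exact ⟨(H.hV r h).1, (H.hV r h).2.1⟩
  · exact ⟨h2, by omega⟩

theorem Run.valid (H : Run D s M c Vi) {r : Row} (hr : r.1 ∈ rl s n m ∧ r.2 < 3) :
    r.1 < m ∧ r.2 < 3 := ⟨(H.hs.mem_rl.1 hr.1).1, hr.2⟩

theorem Run.nu_ne (H : Run D s M c Vi) {r : Row} (hr : r.1 ∈ rl s n m) : D.nu r ≠ D.nu c := by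
  rw [H.hc0]
  exact (H.hs.mem_rl.1 hr).2

theorem Run.k_notMem (H : Run D s M c Vi) {k : ℕ} : ((k, 0) : Row) ∉ pl Vi (rl s n m) k := by
  rw [mem_pl]
  rintro (h | ⟨-, -, h⟩)
  · exact (H.hV _ h).2.2 rfl
  · exact h.false

theorem memS_iff {L : List Row} {k : ℕ} : memS n L k = true ↔ ∃ p : Fin n, fn n L p = (k, 0) := by
  simp only [memS, List.any_eq_true, List.mem_range, decide_eq_true_eq]
  exact ⟨fun ⟨p, h1, h2⟩ => ⟨⟨p, h1⟩, h2⟩, fun ⟨p, h⟩ => ⟨p, p.2, h⟩⟩

theorem Run.off_mem (H : Run D s M c Vi) {k : ℕ} {L : List Row} (h : D.Off s M c Vi k L) :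
    memS n L k = false := by
  rw [← Bool.not_eq_true, memS_iff]
  rintro ⟨p, hp⟩
  exact H.k_notMem (hp ▸ h.mem p)

theorem On.mem_true {k : ℕ} {L : List Row} (h : D.On s M c Vi k L) : memS n L k = true := by
  obtain ⟨pk, hpk, -⟩ := h.pth
  exact memS_iff.2 ⟨pk, hpk⟩

theorem Run.allS_iff (H : Run D s M c Vi) {L : List Row} (hL : Val m L) (hl : L.length = n)
    (hd : (mat D.v (fn n L)).det ≠ 0) {P : List Row} (hP : ∀ r ∈ P, r.1 < m ∧ r.2 < 3)
    {x : Fin n → ℝ} (hx : Vert D.v (D.be M) (fn n L) x) :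
    allS s n L P = true ↔ ∀ r ∈ P, 0 ≤ gap D.v (D.be M) r x := by
  simp only [allS, List.all_eq_true, decide_eq_true_eq]
  refine forall₂_congr fun r hr => ?_
  rw [H.hs.gS H.hM hL hl (hP r hr) hd hx, sz_nonneg]

theorem pl_succ_not {R : List ℕ} {k : ℕ} (h : k ∉ R) : pl Vi R (k + 1) = pl Vi R k := by
  unfold pl
  congr 2
  refine List.filter_congr fun i hi => ?_
  have : i ≠ k := fun h' => h (h' ▸ hi)
  simp only [decide_eq_decide]
  omega

theorem mem_pl_succ {R : List ℕ} {k : ℕ} (h : k ∈ R) {r : Row} :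
    r ∈ pl Vi R (k + 1) ↔ r ∈ pl Vi R k ∨ r = (k, 0) := by
  rw [mem_pl, mem_pl]
  constructor
  · rintro (h1 | ⟨h1, h2, h3⟩)
    · exact Or.inl (Or.inl h1)
    · by_cases h4 : r.1 = k
      · exact Or.inr (Prod.ext h4 h1)
      · exact Or.inl (Or.inr ⟨h1, h2, by omega⟩)
  · rintro ((h1 | ⟨h1, h2, h3⟩) | rfl)
    · exact Or.inl h1
    · exact Or.inr ⟨h1, h2, by omega⟩
    · exact Or.inr ⟨rfl, h, Nat.lt_succ_self _⟩

/-- one exchange -/
theorem Run.exch (H : Run D s M c Vi) {L : List Row} (hL : Val m L) (hl : L.length = n)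
    (hd : (mat D.v (fn n L)).det ≠ 0) (hdual : Dual D.v (D.v c) (fn n L))
    (hnu : ∀ p, D.nu (fn n L p) ≠ D.nu c) {x : Fin n → ℝ}
    (hx : Vert D.v (D.be M) (fn n L) x) {q : Row} (hq : q.1 ∈ rl s n m ∧ q.2 < 3)
    (hqx : gap D.v (D.be M) q x < 0) :
    (∃ p : Fin n, dualS s n c (upd n L p q) = true) ∨
      ¬∃ x', (∀ p, 0 ≤ gap D.v (D.be M) (fn n L p) x') ∧ 0 ≤ gap D.v (D.be M) q x' := by
  rcases exchange hd hdual hx hqx (fun p hp t => by
    refine nondeg D.hT D.de_ne D.v_eq hp (fun t => ?_) t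
    by_cases h : t = p
    · rw [h, update_self]; exact H.nu_ne hq.1
    · rw [update_of_ne h]; exact hnu t) with ⟨p, h1, h2⟩ | h
  · left
    refine ⟨p, ?_⟩
    rw [H.hs.dualS (val_upd hL hl (H.valid hq) p) (upd_length _ _ _ _) H.hc, fn_upd]
    exact ⟨h1, h2⟩
  · exact Or.inr h

theorem mem_nl {P L L' : List Row} {k : ℕ} : L' ∈ nl s n c P L k ↔
    ∃ q ∈ qs s n P L k, ∃ p : Fin n, dualS s n c (upd n L p q) = true ∧ L' = upd n L p q := by
  simp only [nl, List.mem_flatMap, List.mem_map, List.mem_filter, List.mem_range]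
  constructor
  · rintro ⟨q, hq, p, ⟨h1, h2⟩, rfl⟩
    exact ⟨q, hq, ⟨p, h1⟩, h2, rfl⟩
  · rintro ⟨q, hq, p, h2, rfl⟩
    exact ⟨q, hq, p, ⟨p.2, h2⟩, rfl⟩

theorem Run.fn_val (H : Run D s M c Vi) {k : ℕ} {L : List Row} (h : D.On s M c Vi k L)
    (p : Fin n) : (fn n L p).1 ∈ rl s n m ∧ (fn n L p).2 < 3 := by
  obtain ⟨pk, hpk, hP, -⟩ := h.pth
  by_cases hp : p = pk
  · rw [hp, hpk]; exact ⟨h.kr, by norm_num⟩
  · exact H.pl_val (hP p hp)

/-- the step from outside -/
theorem Run.step_off (H : Run D s M c Vi) {k : ℕ} {L : List Row} (hk : k ∈ rl s n m)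
    (h : D.Off s M c Vi k L) (hall : allS s n L (pl Vi (rl s n m) k ++ [(k, 0)]) ≠ true) :
    (∀ L' ∈ nl s n c (pl Vi (rl s n m) k) L k, D.On s M c Vi k L') ∧
      (nl s n c (pl Vi (rl s n m) k) L k = [] → D.Inf s M Vi) := by
  obtain ⟨x, hx⟩ := exists_vert (v := D.v) (β := D.be M) h.det
  have hkv : ((k, 0) : Row).1 ∈ rl s n m ∧ ((k, 0) : Row).2 < 3 := ⟨hk, by norm_num⟩
  have hPv : ∀ r ∈ pl Vi (rl s n m) k ++ [(k, 0)], r.1 < m ∧ r.2 < 3 := by
    intro r hr
    rcases List.mem_append.1 hr with hr | hr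
    · exact H.valid (H.pl_val hr)
    · rw [List.mem_singleton.1 hr]; exact H.valid hkv
  have hgk : gap D.v (D.be M) (k, 0) x < 0 := by
    rw [Ne, H.allS_iff h.val h.len h.det hPv hx] at hall
    by_contra hge
    push Not at hge
    refine hall fun r hr => ?_
    rcases List.mem_append.1 hr with hr | hr
    · exact h.opt x hx r hr
    · rw [List.mem_singleton.1 hr]; exact hge
  have hqs : qs s n (pl Vi (rl s n m) k) L k = [(k, 0)] := by
    rw [qs, H.off_mem h]
    rfl
  have hnu : ∀ p, D.nu (fn n L p) ≠ D.nu c := fun p => H.nu_ne (H.pl_val (h.mem p)).1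
  constructor
  · intro L' hL'
    obtain ⟨q, hq, p, hp, rfl⟩ := mem_nl.1 hL'
    rw [hqs, List.mem_singleton] at hq
    subst hq
    have hval := val_upd h.val h.len (H.valid hkv) p
    rw [H.hs.dualS hval (upd_length _ _ _ _) H.hc] at hp
    refine ⟨hk, hval, upd_length _ _ _ _, hp.1, hp.2, p, ?_, fun t ht => ?_, x, fun t ht => ?_,
      hgk.le, h.opt x hx⟩
    · rw [fn_upd, update_self]
    · rw [fn_upd, update_of_ne ht]; exact h.mem t
    · rw [fn_upd, update_of_ne ht]; exact hx t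
  · intro hnl
    rcases H.exch h.val h.len h.det h.dual hnu hx hkv hgk with ⟨p, hp⟩ | hinf
    · have : upd n L p (k, 0) ∈ nl s n c (pl Vi (rl s n m) k) L k :=
        mem_nl.2 ⟨(k, 0), by rw [hqs]; exact List.mem_singleton_self _, p, hp, rfl⟩
      rw [hnl] at this
      exact absurd this List.not_mem_nil
    · rintro ⟨x', hx'⟩
      refine hinf ⟨x', fun p => hx' _ ?_, hx' _ ?_⟩
      · rcases mem_pl.1 (h.mem p) with h1 | ⟨h1, h2, -⟩
        · exact List.mem_append_left _ h1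
        · exact List.mem_append_right _ (List.mem_map.2 ⟨_, h2, Prod.ext rfl h1.symm⟩)
      · exact List.mem_append_right _ (List.mem_map.2 ⟨_, hk, rfl⟩)

/-- the step from inside -/
theorem Run.step_on (H : Run D s M c Vi) {k : ℕ} {L : List Row}
    (h : D.On s M c Vi k L) (hall : allS s n L (pl Vi (rl s n m) k ++ [(k, 0)]) ≠ true) :
    (∀ L' ∈ nl s n c (pl Vi (rl s n m) k) L k, D.On s M c Vi k L' ∧
        D.Phi c k L' < D.Phi c k L) ∧
      (nl s n c (pl Vi (rl s n m) k) L k = [] → D.Inf s M Vi) := by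
  obtain ⟨y, hy⟩ := exists_vert (v := D.v) (β := D.be M) h.det
  obtain ⟨pk, hpk, hP, x0, hx0, hk0, hPx⟩ := h.pth
  have hkv : ((k, 0) : Row).1 ∈ rl s n m ∧ ((k, 0) : Row).2 < 3 := ⟨h.kr, by norm_num⟩
  have hPv : ∀ r ∈ pl Vi (rl s n m) k ++ [(k, 0)], r.1 < m ∧ r.2 < 3 := by
    intro r hr
    rcases List.mem_append.1 hr with hr | hr
    · exact H.valid (H.pl_val hr)
    · rw [List.mem_singleton.1 hr]; exact H.valid hkv
  have hyk : gap D.v (D.be M) (k, 0) y = 0 := by rw [← hpk]; exact hy pk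
  have hviol : ∃ r ∈ pl Vi (rl s n m) k, gap D.v (D.be M) r y < 0 := by
    rw [Ne, H.allS_iff h.val h.len h.det hPv hy] at hall
    push Not at hall
    obtain ⟨r, hr, hr'⟩ := hall
    rcases List.mem_append.1 hr with hr | hr
    · exact ⟨r, hr, hr'⟩
    · rw [List.mem_singleton.1 hr, hyk] at hr'
      exact absurd hr' (lt_irrefl _)
  have hk0' : gap D.v (D.be M) (fn n L pk) x0 ≤ 0 := by rw [hpk]; exact hk0
  have hnu : ∀ p, D.nu (fn n L p) ≠ D.nu c := fun p => H.nu_ne (H.fn_val h p).1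
  have hqs : ∀ j, j ∈ qs s n (pl Vi (rl s n m) k) L k ↔ j ∈ pl Vi (rl s n m) k ∧
      blockS s n (pl Vi (rl s n m) k) L k j = true := by
    intro j
    rw [qs, h.mem_true, if_pos rfl, List.mem_filter]
  have hblock : ∀ j ∈ pl Vi (rl s n m) k, (blockS s n (pl Vi (rl s n m) k) L k j = true ↔
      gap D.v (D.be M) j y < 0 ∧ ∀ z, Vert D.v (D.be M) (update (fn n L) pk j) z →
        ∀ r ∈ pl Vi (rl s n m) k, 0 ≤ gap D.v (D.be M) r z) := by
    intro j hj
    have hjv := H.valid (H.pl_val hj)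
    have hL' := val_upd h.val h.len hjv pk
    simp only [blockS, Bool.and_eq_true, decide_eq_true_eq, List.any_eq_true, List.mem_range]
    rw [H.hs.gS H.hM h.val h.len hjv h.det hy, sz_lt]
    refine and_congr_right fun hjy => ?_
    have hdet := move_det h.det hy hx0 hk0' (hPx j hj) hjy
    obtain ⟨z, hz⟩ := exists_vert (v := D.v) (β := D.be M) hdet
    have hz' : Vert D.v (D.be M) (fn n (upd n L pk j)) z := by rw [fn_upd]; exact hz
    have hdet' : (mat D.v (fn n (upd n L pk j))).det ≠ 0 := by rw [fn_upd]; exact hdet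
    have hA : s (keyA n (upd n L pk j)) ≠ 0 := by
      rw [H.hs.hA _ hL' (upd_length _ _ _ _), Ne, sz_eq_zero]
      exact mul_ne_zero (pow_ne_zero _ (by norm_num)) hdet'
    have hall' := H.allS_iff hL' (upd_length _ _ _ _) hdet'
      (P := pl Vi (rl s n m) k) (fun r hr => H.valid (H.pl_val hr)) hz'
    constructor
    · rintro ⟨p, hp, hpe, -, hp2⟩ w hw
      have : (⟨p, hp⟩ : Fin n) = pk := by
        refine (det_ne_iff D.hT D.de_ne D.v_eq).1 h.det ?_
        show D.nu (fn n L ⟨p, hp⟩) = D.nu (fn n L pk)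
        rw [hpk]
        exact congrArg D.nu hpe
      have hp3 : p = (pk : ℕ) := congrArg Fin.val this
      rw [hp3] at hp2
      rw [vert_unique hdet hw hz]
      exact hall'.1 hp2
    · intro hz2
      exact ⟨pk, pk.2, hpk, hA, hall'.2 (hz2 z hz)⟩
  constructor
  · intro L' hL'
    obtain ⟨j, hj, p, hp, rfl⟩ := mem_nl.1 hL'
    obtain ⟨hjP, hjb⟩ := (hqs j).1 hj
    obtain ⟨hjy, hjz⟩ := (hblock j hjP).1 hjb
    have hjv := H.valid (H.pl_val hjP)
    have hval := val_upd h.val h.len hjv p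
    rw [H.hs.dualS hval (upd_length _ _ _ _) H.hc, fn_upd] at hp
    have hne : p ≠ pk := move_ne h.det hy hx0 hk0' (hPx j hjP) hjy h.dual hp.2
    obtain ⟨z, hz⟩ := exists_vert (v := D.v) (β := D.be M)
      (move_det h.det hy hx0 hk0' (hPx j hjP) hjy)
    have hzk := move_gap_k h.det hy hx0 hk0' (hPx j hjP) hjy hz
    constructor
    · refine ⟨h.kr, hval, upd_length _ _ _ _, by rw [fn_upd]; exact hp.1,
        by rw [fn_upd]; exact hp.2, pk, ?_, fun t ht => ?_, z, fun t ht => ?_, ?_, hjz z hz⟩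
      · rw [fn_upd, update_of_ne hne.symm, hpk]
      · rw [fn_upd]
        by_cases h1 : t = p
        · rw [h1, update_self]; exact hjP
        · rw [update_of_ne h1]; exact hP t ht
      · rw [fn_upd]
        by_cases h1 : t = p
        · rw [h1, update_self]
          have := hz pk
          rwa [update_self] at this
        · rw [update_of_ne h1]
          have := hz t
          rwa [update_of_ne ht] at this
      · rw [hpk] at hzk
        exact hzk
    · -- the potential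
      have hjn : D.nu j ≠ D.nu c := H.nu_ne (H.pl_val hjP).1
      have hd' := hp.1
      have hjk : ∀ t, D.nu j ≠ D.nu (fn n L t) := by
        have h1 := (det_ne_iff D.hT D.de_ne D.v_eq).1 hp.1
        have h2 := (det_ne_iff D.hT D.de_ne D.v_eq).1
          (move_det h.det hy hx0 hk0' (hPx j hjP) hjy)
        intro t ht
        by_cases h3 : t = p
        · have h4 : (fun a => D.nu (update (fn n L) pk j a)) pk =
              (fun a => D.nu (update (fn n L) pk j a)) t := by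
            simp only [update_self]
            rw [update_of_ne (by rw [h3]; exact hne)]
            exact ht
          have := h2 h4
          exact hne (by rw [← h3]; exact this.symm)
        · have h4 : (fun a => D.nu (update (fn n L) p j a)) p =
              (fun a => D.nu (update (fn n L) p j a)) t := by
            simp only [update_self]
            rw [update_of_ne h3]
            exact ht
          exact h3 (h1 h4).symm
      obtain ⟨hdk, hdj⟩ := move_k h.det hy hx0 hk0' (hPx j hjP) hjy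
      have htw := towards D.hT D.de_ne D.v_eq h.det hnu hne hp.1 hjn hjk h.dual hp.2
        (move_facts hy hx0) hdk hdj
      rw [hpk] at htw
      unfold Phi
      refine Finset.sum_lt_sum (fun t _ => ?_) ⟨p, Finset.mem_univ _, ?_⟩
      · rw [fn_upd]
        by_cases h1 : t = p
        · rw [h1, update_self]
          rcases htw with ⟨h2, h3⟩ | ⟨h2, h3⟩
          · have h4 := D.rk_lt (c := c) h2
            have h5 := D.rk_lt (c := c) h3
            omega
          · have h4 := D.rk_lt (c := c) h2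
            have h5 := D.rk_lt (c := c) h3
            omega
        · rw [update_of_ne h1]
      · rw [fn_upd, update_self]
        rcases htw with ⟨h2, h3⟩ | ⟨h2, h3⟩
        · have h4 := D.rk_lt (c := c) h2
          have h5 := D.rk_lt (c := c) h3
          omega
        · have h4 := D.rk_lt (c := c) h2
          have h5 := D.rk_lt (c := c) h3
          omega
  · intro hnl
    obtain ⟨j, hjP, hjy, hjz⟩ := exists_block h.det hy hx0 hk0' hPx hviol
    have hjb := (hblock j hjP).2 ⟨hjy, hjz⟩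
    rcases H.exch h.val h.len h.det h.dual hnu hy (H.pl_val hjP) hjy with ⟨p, hp⟩ | hinf
    · have : upd n L p j ∈ nl s n c (pl Vi (rl s n m) k) L k :=
        mem_nl.2 ⟨j, (hqs j).2 ⟨hjP, hjb⟩, p, hp, rfl⟩
      rw [hnl] at this
      exact absurd this List.not_mem_nil
    · have hmem : ∀ r ∈ pl Vi (rl s n m) k, r ∈ Vi ++ (rl s n m).map fun i => (i, 0) := by
        intro r hr
        rcases mem_pl.1 hr with h1 | ⟨h1, h2, -⟩
        · exact List.mem_append_left _ h1
        · exact List.mem_append_right _ (List.mem_map.2 ⟨_, h2, Prod.ext rfl h1.symm⟩)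
      rintro ⟨x', hx'⟩
      refine hinf ⟨x', fun t => ?_, hx' _ (hmem _ hjP)⟩
      by_cases ht : t = pk
      · rw [ht, hpk]
        exact hx' _ (List.mem_append_right _ (List.mem_map.2 ⟨_, h.kr, rfl⟩))
      · exact hx' _ (hmem _ (hP t ht))

end Data

end Pool.Agent.H37.CH
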