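import Pool.Agent.H37.CH.Corr

/-! The answer of the algorithm is correct. -/

set_option autoImplicit false

namespace Pool.Agent.H37.CH

open Finset Matrix Function

/-- Helly's theorem on the line. -/
theorem helly_line {ι : Type} (F : ι → Set ℝ) (S : Finset ι) (hc : ∀ i ∈ S, Convex ℝ (F i))
    (h : ∀ i ∈ S, ∀ j ∈ S, (F i ∩ F j).Nonempty) : ∃ t, ∀ i ∈ S, t ∈ F i := by
  classical
  have := Convex.helly_theorem' (𝕜 := ℝ) (F := F) (s := S) hc (fun I hI hcard => by
    rw [Module.finrank_self] at hcard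
    rcases I.eq_empty_or_nonempty with rfl | ⟨i, hi⟩
    · exact ⟨0, by simp⟩
    · have hc2 : (I.erase i).card ≤ 1 := by
        rw [Finset.card_erase_of_mem hi]
        omega
      rcases (I.erase i).eq_empty_or_nonempty with he | ⟨j, hj⟩
      · obtain ⟨t, ht, -⟩ := h i (hI hi) i (hI hi)
        refine ⟨t, Set.mem_iInter₂.2 fun a ha => ?_⟩
        have : a = i := by
          by_contra hne
          have : a ∈ I.erase i := Finset.mem_erase.2 ⟨hne, ha⟩
          rw [he] at this
          exact absurd this (Finset.notMem_empty _)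
        rw [this]
        exact ht
      · have hj' := (Finset.mem_erase.1 hj).2
        obtain ⟨t, ht, ht'⟩ := h i (hI hi) j (hI hj')
        refine ⟨t, Set.mem_iInter₂.2 fun a ha => ?_⟩
        by_cases hne : a = i
        · rw [hne]
          exact ht
        · have : a = j := Finset.card_le_one.1 hc2 a (Finset.mem_erase.2 ⟨hne, ha⟩) j hj
          rw [this]
          exact ht')
  obtain ⟨t, ht⟩ := this
  exact ⟨t, fun i hi => Set.mem_iInter₂.1 ht i hi⟩

theorem convex_half (δ b : ℝ) : Convex ℝ {t : ℝ | b ≤ δ * t} := by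
  intro x hx y hy p q hp hq hpq
  simp only [Set.mem_ofPred_eq, smul_eq_mul] at *
  have e : δ * (p * x + q * y) = p * (δ * x) + q * (δ * y) := by ring
  have e2 : b = p * b + q * b := by rw [← add_mul, hpq, one_mul]
  rw [e, e2]
  exact add_le_add (mul_le_mul_of_nonneg_left hx hp) (mul_le_mul_of_nonneg_left hy hq)

theorem pair_line {δ δ' b b' : ℝ} (h : δ ≠ 0) (h' : δ' ≠ 0)
    (hno : ¬(δ * δ' < 0 ∧ 0 < δ * (δ * b' - δ' * b))) : ∃ t, b ≤ δ * t ∧ b' ≤ δ' * t := by
  by_cases h1 : 0 < δ * (δ * b' - δ' * b)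
  · have h2 : 0 < δ * δ' := by
      have : ¬δ * δ' < 0 := fun h3 => hno ⟨h3, h1⟩
      exact lt_of_le_of_ne (not_lt.1 this) (mul_ne_zero h h').symm
    refine ⟨b' / δ', ?_, ?_⟩
    · have e : δ * (b' / δ') - b = (δ * (δ * b' - δ' * b)) / (δ * δ') := by
        field_simp
      have := div_pos h1 h2
      linarith
    · rw [mul_div_cancel₀ _ h']
  · push Not at h1
    refine ⟨b / δ, ?_, ?_⟩
    · rw [mul_div_cancel₀ _ h]
    · have e : δ' * (b / δ) - b' = -(δ * (δ * b' - δ' * b)) / (δ * δ) := by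
        field_simp
        ring
      have : 0 ≤ -(δ * (δ * b' - δ' * b)) / (δ * δ) :=
        div_nonneg (by linarith) (mul_self_nonneg _)
      linarith

namespace Data

variable {m n N : ℕ} {D : Data m n N} {s : Key → ℤ}

theorem dot_eq (i : ℕ) (x : Fin n → ℝ) :
    D.A (D.cl i) ⬝ᵥ x = D.δ (D.cl i) * (D.T (D.ν (D.cl i)) ⬝ᵥ x) := by
  rw [D.hA, smul_dotProduct, smul_eq_mul]

theorem gap_zero (M : ℝ) (i : ℕ) (x : Fin n → ℝ) :
    gap D.v (D.be M) (i, 0) x = D.A (D.cl i) ⬝ᵥ x - D.b (D.cl i) := by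
  rw [gap, be_zero]
  simp [v, sg]

theorem T_ne (D : Data m n N) (u : Fin N) : ∃ j, D.T u j ≠ 0 := by
  by_contra h
  push Not at h
  obtain ⟨x, hx⟩ := D.hT.interp D.hN (S := {u}) (by rw [Finset.card_singleton]; exact D.hn)
    (fun _ => 1)
  have := hx u (Finset.mem_singleton_self u)
  have h2 : D.T u = 0 := funext h
  rw [h2, zero_dotProduct] at this
  norm_num at this

/-- Meaning of the test for contradictory pairs. -/
theorem Orc.inc (hs : D.Orc s) {i i' : ℕ} (hi : i < m) (hi' : i' < m) :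
    incS s n i i' = true ↔ D.ν (D.cl i) = D.ν (D.cl i') ∧ D.δ (D.cl i) * D.δ (D.cl i') < 0 ∧
      0 < D.δ (D.cl i) *
        (D.δ (D.cl i) * D.b (D.cl i') - D.δ (D.cl i') * D.b (D.cl i)) := by
  simp only [incS, Bool.and_eq_true, List.any_eq_true, List.mem_range, decide_eq_true_eq]
  rw [hs.par hi hi']
  refine and_congr_right fun hν => ?_
  have key : ∀ j : Fin n, ((s (keyE n i j) * s (keyE n i' j) = -1 ∧
      s (keyE n i j) * s (keyP n i i' j n) = -1) ↔ D.T (D.ν (D.cl i)) j ≠ 0 ∧
      (D.δ (D.cl i) * D.δ (D.cl i') < 0 ∧ 0 < D.δ (D.cl i) *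
        (D.δ (D.cl i) * D.b (D.cl i') - D.δ (D.cl i') * D.b (D.cl i)))) := by
    intro j
    have en : ∀ i, D.e i n = D.b (D.cl i) := fun i => dif_neg (lt_irrefl _)
    rw [hs.hE i j hi j.2, hs.hE i' j hi' j.2, hs.hP i i' j n hi hi' j.2 le_rfl, sz_mul_eq_neg,
      sz_mul_eq_neg, e_lt j.2, e_lt j.2, en, en, ← hν]
    set t := D.T (D.ν (D.cl i)) j with ht
    have e1 : D.δ (D.cl i) * t * (D.δ (D.cl i') * t) = t ^ 2 * (D.δ (D.cl i) * D.δ (D.cl i')) := by
      ring
    have e2 : D.δ (D.cl i) * t * -(D.δ (D.cl i) * t * D.b (D.cl i') -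
        D.b (D.cl i) * (D.δ (D.cl i') * t)) = -(t ^ 2 * (D.δ (D.cl i) *
        (D.δ (D.cl i) * D.b (D.cl i') - D.δ (D.cl i') * D.b (D.cl i)))) := by ring
    rw [e1, e2, neg_lt_zero]
    constructor
    · rintro ⟨h1, h2⟩
      have ht0 : t ≠ 0 := by
        intro h0
        rw [h0] at h1
        norm_num at h1
      have hp : 0 < t ^ 2 := by positivity
      exact ⟨ht0, (pos_iff_neg_of_mul_neg h1).1 hp, (pos_iff_pos_of_mul_pos h2).1 hp⟩
    · rintro ⟨h0, h1, h2⟩
      have hp : 0 < t ^ 2 := by positivity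
      exact ⟨mul_neg_of_pos_of_neg hp h1, mul_pos hp h2⟩
  constructor
  · rintro ⟨j, hj, h1, h2⟩
    exact ((key ⟨j, hj⟩).1 ⟨h1, h2⟩).2
  · intro h
    obtain ⟨j, hj⟩ := D.T_ne (D.ν (D.cl i))
    obtain ⟨h1, h2⟩ := (key j).2 ⟨hj, h⟩
    exact ⟨j, j.2, h1, h2⟩

theorem Orc.pairs (hs : D.Orc s) (h : incAll s n m = false) {i i' : Fin m}
    (hν : D.ν i = D.ν i') : ∃ t, D.b i ≤ D.δ i * t ∧ D.b i' ≤ D.δ i' * t := by
  refine pair_line (D.hδ _) (D.hδ _) fun hno => ?_
  have h1 : incS s n i i' = true := by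
    rw [hs.inc i.2 i'.2, D.cl_val i.2, D.cl_val i'.2]
    exact ⟨hν, hno⟩
  have : incAll s n m = true := by
    simp only [incAll, List.any_eq_true, List.mem_range]
    exact ⟨i, i.2, i', i'.2, h1⟩
  rw [h] at this
  exact absurd this (by simp)

/-- few nodes -/
theorem Orc.few (hs : D.Orc s) (h : incAll s n m = false) (hr : (reps s n m).length < n) :
    ∃ x, ∀ i, D.b i ≤ D.A i ⬝ᵥ x := by
  classical
  have h1 : ∀ u : Fin N, ∃ t, ∀ i ∈ Finset.univ.filter (fun i => D.ν i = u),
      t ∈ {t : ℝ | D.b i ≤ D.δ i * t} := by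
    intro u
    refine helly_line (fun i => {t : ℝ | D.b i ≤ D.δ i * t}) _ (fun i _ => convex_half _ _)
      fun i hi j hj => ?_
    rw [Finset.mem_filter] at hi hj
    obtain ⟨t, h1, h2⟩ := hs.pairs h (hi.2.trans hj.2.symm)
    exact ⟨t, h1, h2⟩
  choose t ht using h1
  have hS : (Finset.univ.image D.ν).card ≤ n := by
    have hsub : Finset.univ.image D.ν ⊆
        insert (D.ν (D.cl 0)) ((reps s n m).toFinset.image fun i => D.ν (D.cl i)) := by
      intro u hu
      obtain ⟨i, -, rfl⟩ := Finset.mem_image.1 hu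
      rw [Finset.mem_insert]
      by_cases h0 : D.ν i = D.ν (D.cl 0)
      · exact Or.inl h0
      · right
        have hex : ∃ k, k ∈ rl s n m ∧ D.ν (D.cl k) = D.ν i :=
          ⟨i, hs.mem_rl.2 ⟨i.2, by rw [D.cl_val i.2]; exact h0⟩, by rw [D.cl_val i.2]⟩
        obtain ⟨h2, h3⟩ := Nat.find_spec hex
        rw [Finset.mem_image]
        refine ⟨Nat.find hex, List.mem_toFinset.2 (hs.mem_reps.2 ⟨h2, fun i' hi' hlt heq => ?_⟩),
          h3⟩
        exact Nat.find_min hex hlt ⟨hi', heq.trans h3⟩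
    refine (Finset.card_le_card hsub).trans ((Finset.card_insert_le _ _).trans ?_)
    have h2 : ((reps s n m).toFinset.image fun i => D.ν (D.cl i)).card ≤ (reps s n m).length :=
      Finset.card_image_le.trans (List.toFinset_card_le _)
    omega
  obtain ⟨x, hx⟩ := D.hT.interp D.hN hS t
  refine ⟨x, fun i => ?_⟩
  rw [D.hA, smul_dotProduct, smul_eq_mul, hx _ (Finset.mem_image_of_mem _ (Finset.mem_univ i))]
  exact ht (D.ν i) i (by simp)

theorem objective_le {M : ℝ} {c : Row} {V : Fin n → Row} (hd : Dual D.v (D.v c) V)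
    {x x' : Fin n → ℝ} (hx : Vert D.v (D.be M) V x)
    (hx' : ∀ p, 0 ≤ gap D.v (D.be M) (V p) x') : D.v c ⬝ᵥ x' ≤ D.v c ⬝ᵥ x := by
  obtain ⟨y, hy, hc⟩ := hd
  rw [← sub_nonneg, ← dotProduct_sub, hc, neg_dotProduct, sum_dotProduct]
  rw [neg_nonneg]
  refine Finset.sum_nonpos fun p _ => ?_
  rw [smul_dotProduct, smul_eq_mul]
  refine mul_nonpos_of_nonneg_of_nonpos (hy p).le ?_
  rw [← gap_sub (β := D.be M), hx p]
  linarith [hx' p]

/-- The answer is correct. -/
theorem Orc.answer (hs : D.Orc s) : ansS s n m = true ↔ ∃ x, ∀ i, D.b i ≤ D.A i ⬝ᵥ x := by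
  classical
  have hm := D.hm
  have c1 : ((0, 1) : Row).1 < m ∧ ((0, 1) : Row).2 < 3 := ⟨hm, by norm_num⟩
  have c2 : ((0, 2) : Row).1 < m ∧ ((0, 2) : Row).2 < 3 := ⟨hm, by norm_num⟩
  have hall : ∀ {Vi : List Row} {k : ℕ}, m ≤ k → ∀ i ∈ rl s n m,
      ((i, 0) : Row) ∈ pl Vi (rl s n m) k := fun {Vi k} hk i hi =>
    mem_pl.2 (Or.inr ⟨rfl, hi, (hs.mem_rl.1 hi).1.trans_le hk⟩)
  simp only [ansS, Bool.and_eq_true, Bool.or_eq_true, Bool.not_eq_true', decide_eq_true_eq]
  constructor
  · rintro ⟨hinc, hr | ⟨hf1, hf2, hlast⟩⟩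
    · exact hs.few hinc hr
    · by_cases hr : (reps s n m).length < n
      · exact hs.few hinc hr
      push Not at hr
      obtain ⟨M, hM⟩ := D.eventually_large.exists
      obtain ⟨H1, hoff1⟩ := vi_props (c := (0, 1)) hs hr hM c1 rfl
      obtain ⟨H2, hoff2⟩ := vi_props (c := (0, 2)) hs hr hM c2 rfl
      obtain ⟨k1, hk1, ho1⟩ := (H1.result hoff1).2 hf1
      obtain ⟨k2, hk2, ho2⟩ := (H2.result hoff2).2 hf2
      change D.Off s M (0, 1) _ k1 (runS s n m (0, 1)).2.2 at ho1
      change D.Off s M (0, 2) _ k2 (runS s n m (0, 2)).2.2 at ho2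
      obtain ⟨x1, hx1⟩ := exists_vert (v := D.v) (β := D.be M) ho1.det
      obtain ⟨x2, hx2⟩ := exists_vert (v := D.v) (β := D.be M) ho2.det
      set w := D.ν (D.cl 0) with hw
      obtain ⟨t, ht⟩ := helly_line (ι := Option (Fin m)) (fun o => match o with
        | none => Set.uIcc (D.T w ⬝ᵥ x2) (D.T w ⬝ᵥ x1)
        | some i => {t : ℝ | D.b i ≤ D.δ i * t})
        (insert none ((Finset.univ.filter fun i => D.ν i = w).image some))
        (by
          intro o _
          match o with
          | none => exact convex_uIcc _ _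
          | some i => exact convex_half _ _)
        (by
          have hseg : ∀ i, D.ν i = w → ((Set.uIcc (D.T w ⬝ᵥ x2) (D.T w ⬝ᵥ x1)) ∩
              {t : ℝ | D.b i ≤ D.δ i * t}).Nonempty := by
            intro i hi
            have hpar : parS s n 0 i = true := by
              rw [hs.par hm i.2, D.cl_val i.2]
              exact hi.symm
            have hi2 := List.all_eq_true.1 hlast i (List.mem_range.2 i.2)
            rw [hpar] at hi2
            simp only [Bool.not_true, Bool.false_or, Bool.or_eq_true, decide_eq_true_eq] at hi2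
            have hiv : (((i : ℕ), 0) : Row).1 < m ∧ (((i : ℕ), 0) : Row).2 < 3 :=
              ⟨i.2, by norm_num⟩
            have hg : ∀ x, 0 ≤ gap D.v (D.be M) ((i : ℕ), 0) x ↔ D.b i ≤ D.δ i * (D.T w ⬝ᵥ x) := by
              intro x
              rw [gap_zero, sub_nonneg, dot_eq, D.cl_val i.2]
              show D.b i ≤ D.δ i * (D.T (D.ν i) ⬝ᵥ x) ↔ _
              rw [hi]
            rw [hs.gS hM ho1.val ho1.len hiv ho1.det hx1, hs.gS hM ho2.val ho2.len hiv ho2.det hx2,
              sz_nonneg, sz_nonneg, hg, hg] at hi2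
            rcases hi2 with h | h
            · exact ⟨_, Set.right_mem_uIcc, h⟩
            · exact ⟨_, Set.left_mem_uIcc, h⟩
          have hmem : ∀ o ∈ insert none ((Finset.univ.filter fun i => D.ν i = w).image some),
              o = none ∨ ∃ i, o = some i ∧ D.ν i = w := by
            intro o ho
            rcases Finset.mem_insert.1 ho with h | h
            · exact Or.inl h
            · obtain ⟨i, hi, rfl⟩ := Finset.mem_image.1 h
              exact Or.inr ⟨i, rfl, (Finset.mem_filter.1 hi).2⟩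
          intro o ho o' ho'
          rcases hmem o ho with rfl | ⟨i, rfl, hi⟩ <;> rcases hmem o' ho' with rfl | ⟨i', rfl, hi'⟩
          · exact ⟨_, Set.left_mem_uIcc, Set.left_mem_uIcc⟩
          · exact hseg i' hi'
          · obtain ⟨t, h1, h2⟩ := hseg i hi
            exact ⟨t, h2, h1⟩
          · obtain ⟨t, h1, h2⟩ := hs.pairs hinc (hi.trans hi'.symm)
            exact ⟨t, h1, h2⟩)
      have ht0 : t ∈ Set.uIcc (D.T w ⬝ᵥ x2) (D.T w ⬝ᵥ x1) := ht none (by simp)
      rw [← segment_eq_uIcc, segment_eq_image'] at ht0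
      obtain ⟨θ, ⟨hθ0, hθ1⟩, hθ⟩ := ht0
      have hθ' : D.T w ⬝ᵥ (x2 + θ • (x1 - x2)) = t := by
        rw [← hθ]
        simp only [dotProduct_add, dotProduct_smul, dotProduct_sub]
      refine ⟨x2 + θ • (x1 - x2), fun i => ?_⟩
      by_cases hi : D.ν i = w
      · rw [D.hA, smul_dotProduct, smul_eq_mul, hi, hθ']
        exact ht (some i) (by simp [hi])
      · have hirl : (i : ℕ) ∈ rl s n m := hs.mem_rl.2 ⟨i.2, by rw [D.cl_val i.2]; exact hi⟩
        have g1 := ho1.opt x1 hx1 _ (hall hk1 i hirl)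
        have g2 := ho2.opt x2 hx2 _ (hall hk2 i hirl)
        have := gap_line (v := D.v) (β := D.be M) ((i : ℕ), 0) x2 x1 θ
        have h0 : 0 ≤ gap D.v (D.be M) ((i : ℕ), 0) (x2 + θ • (x1 - x2)) := by
          rw [this]
          exact add_nonneg (mul_nonneg (by linarith) g2) (mul_nonneg hθ0 g1)
        rw [gap_zero, sub_nonneg, D.cl_val i.2] at h0
        exact h0
  · rintro ⟨x, hx⟩
    constructor
    · rw [← Bool.not_eq_true]
      intro h
      simp only [incAll, List.any_eq_true, List.mem_range] at h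
      obtain ⟨i, hi, i', hi', h⟩ := h
      obtain ⟨hν, h1, h2⟩ := (hs.inc hi hi').1 h
      have g1 := hx (D.cl i)
      have g2 := hx (D.cl i')
      rw [dot_eq] at g1 g2
      rw [← hν] at g2
      set t := D.T (D.ν (D.cl i)) ⬝ᵥ x
      have k1 := mul_le_mul_of_nonneg_left g2 (mul_self_nonneg (D.δ (D.cl i)))
      have k2 := mul_le_mul_of_nonpos_left g1 h1.le
      nlinarith
    · by_cases hr : (reps s n m).length < n
      · exact Or.inl hr
      right
      push Not at hr
      have hev : ∀ᶠ M : ℝ in Filter.atTop, D.Large M ∧ ∀ i, |D.A i ⬝ᵥ x| ≤ M :=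
        D.eventually_large.and (Filter.eventually_all.2 fun i => Filter.eventually_ge_atTop _)
      obtain ⟨M, hM, hMx⟩ := hev.exists
      have hpt : ∀ (c : Row) (Vi : List Row), Run D s M c Vi →
          ∀ r ∈ Vi ++ (rl s n m).map fun i => ((i, 0) : Row), 0 ≤ gap D.v (D.be M) r x := by
        intro c Vi H r hr
        rcases List.mem_append.1 hr with hr | hr
        · rw [gap, D.be_art M (H.hV r hr).2.2, v, smul_dotProduct, smul_eq_mul]
          have := abs_le.1 (hMx (D.cl r.1))
          unfold sg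
          split_ifs <;> linarith [this.1, this.2]
        · obtain ⟨i, hi, rfl⟩ := List.mem_map.1 hr
          rw [gap_zero, sub_nonneg]
          exact hx _
      have hsub : ∀ {Vi : List Row} {k : ℕ} {r : Row}, r ∈ pl Vi (rl s n m) k →
          r ∈ Vi ++ (rl s n m).map fun i => ((i, 0) : Row) := by
        intro Vi k r hr
        rcases mem_pl.1 hr with h1 | ⟨h1, h2, -⟩
        · exact List.mem_append_left _ h1
        · exact List.mem_append_right _ (List.mem_map.2 ⟨_, h2, Prod.ext rfl h1.symm⟩)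
      obtain ⟨H1, hoff1⟩ := vi_props (c := (0, 1)) hs hr hM c1 rfl
      obtain ⟨H2, hoff2⟩ := vi_props (c := (0, 2)) hs hr hM c2 rfl
      have hf1 : (runS s n m (0, 1)).1 = false := by
        rw [← Bool.not_eq_true]
        exact fun h => (H1.result hoff1).1 h ⟨x, hpt _ _ H1⟩
      have hf2 : (runS s n m (0, 2)).1 = false := by
        rw [← Bool.not_eq_true]
        exact fun h => (H2.result hoff2).1 h ⟨x, hpt _ _ H2⟩
      obtain ⟨k1, hk1, ho1⟩ := (H1.result hoff1).2 hf1
      obtain ⟨k2, hk2, ho2⟩ := (H2.result hoff2).2 hf2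
      change D.Off s M (0, 1) _ k1 (runS s n m (0, 1)).2.2 at ho1
      change D.Off s M (0, 2) _ k2 (runS s n m (0, 2)).2.2 at ho2
      obtain ⟨x1, hx1⟩ := exists_vert (v := D.v) (β := D.be M) ho1.det
      obtain ⟨x2, hx2⟩ := exists_vert (v := D.v) (β := D.be M) ho2.det
      refine ⟨hf1, hf2, ?_⟩
      have o1 := objective_le ho1.dual hx1 fun p => hpt _ _ H1 _ (hsub (ho1.mem p))
      have o2 := objective_le ho2.dual hx2 fun p => hpt _ _ H2 _ (hsub (ho2.mem p))
      have e1 : ∀ y, D.v (0, 1) ⬝ᵥ y = D.δ (D.cl 0) * (D.T (D.ν (D.cl 0)) ⬝ᵥ y) := by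
        intro y
        rw [← dot_eq]
        simp [v, sg]
      have e2 : ∀ y, D.v (0, 2) ⬝ᵥ y = -(D.δ (D.cl 0) * (D.T (D.ν (D.cl 0)) ⬝ᵥ y)) := by
        intro y
        rw [← dot_eq]
        simp [v, sg]
      rw [e1, e1] at o1
      rw [e2, e2] at o2
      rw [lastS, List.all_eq_true]
      intro i hi
      rw [List.mem_range] at hi
      simp only [Bool.or_eq_true, Bool.not_eq_true', decide_eq_true_eq]
      by_cases hpar : parS s n 0 i = true
      · right
        have hν := (hs.par hm hi).1 hpar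
        have hiv : ((i, 0) : Row).1 < m ∧ ((i, 0) : Row).2 < 3 := ⟨hi, by norm_num⟩
        change 0 ≤ Pool.Agent.H37.CH.gS s n _ (i, 0) ∨ 0 ≤ Pool.Agent.H37.CH.gS s n _ (i, 0)
        rw [hs.gS hM ho1.val ho1.len hiv ho1.det hx1, hs.gS hM ho2.val ho2.len hiv ho2.det hx2,
          sz_nonneg, sz_nonneg, gap_zero, gap_zero, sub_nonneg, sub_nonneg, dot_eq, dot_eq, ← hν]
        have hxi := hx (D.cl i)
        rw [dot_eq, ← hν] at hxi
        set t := D.T (D.ν (D.cl 0)) ⬝ᵥ x
        set t1 := D.T (D.ν (D.cl 0)) ⬝ᵥ x1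
        set t2 := D.T (D.ν (D.cl 0)) ⬝ᵥ x2
        have h0 := D.hδ (D.cl 0)
        have hi0 := D.hδ (D.cl i)
        rcases lt_or_gt_of_ne h0 with h0 | h0 <;> rcases lt_or_gt_of_ne hi0 with hi0 | hi0
        · left
          have : t1 ≤ t := by
            by_contra hlt
            push Not at hlt
            have := mul_lt_mul_of_neg_left hlt h0
            linarith
          have := mul_le_mul_of_nonpos_left this hi0.le
          linarith
        · right
          have : t ≤ t2 := by
            by_contra hlt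
            push Not at hlt
            have := mul_lt_mul_of_neg_left hlt h0
            linarith
          have := mul_le_mul_of_nonneg_left this hi0.le
          linarith
        · right
          have : t2 ≤ t := by
            by_contra hlt
            push Not at hlt
            have := mul_lt_mul_of_pos_left hlt h0
            linarith
          have := mul_le_mul_of_nonpos_left this hi0.le
          linarith
        · left
          have : t ≤ t1 := by
            by_contra hlt
            push Not at hlt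
            have := mul_lt_mul_of_pos_left hlt h0
            linarith
          have := mul_le_mul_of_nonneg_left this hi0.le
          linarith
      · left
        simpa using hpar

end Data

end Pool.Agent.H37.CH
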