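import Pool.Agent.H37.CH.Tab
import Pool.Graph.R_seed8.W920.FC.T_TT

/-! The run of the computation. -/

set_option autoImplicit false

namespace Pool.Agent.H37.CH

open Pool.Agent.NPC Pool.Agent.H558R2 Pool.Agent.H622R3.SM Pool.Agent.W920.FC
open Pool.Agent.Y648.CS.TDET (qD)

/-- the signs of the determinants -/
noncomputable def sO (g : Reg → ℝ) (K : Key) : ℤ := osg (signOut (dv g K))

theorem orc_sO (g : Reg → ℝ) {Ks : List Key} {K : Key} (h : K ∈ Ks) :
    orc Ks (Ks.map fun K => signOut (dv g K)) K = sO g K := orc_eq _ h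

section

variable {m n : ℕ} {g : Reg → ℝ} (hg : Base g)

include hg

theorem runs_ask (Ks : List Key) (h : ∀ K ∈ Ks, K.length ≤ m + n + 2) {C : ℕ}
    (hC : Ks.length ≤ C) : Runs g (Gd qD (m + n) g) (askT Ks)
      (Ks.map fun K => signOut (dv g K)) (C * (qD.eval (m + n) + 1)) := by
  have h1 : List.Forall₂ (HasVal g (Gd qD (m + n) g)) (Ks.map detK) (Ks.map (dv g)) := by
    rw [List.forall₂_map_left_iff, List.forall₂_map_right_iff, List.forall₂_same]
    exact fun K hK => (t_detK (m + n) g hg K (h K hK)).1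
  have h2 := t_TT.2.1 _ _ _ _ h1
  rw [List.map_map] at h2
  refine t_TT.2.2.2 _ _ _ _ _ _ _ _ (fun _ h => h) ?_ h2
  have h3 : ∀ L : List Key, (∀ K ∈ L, K.length ≤ m + n + 2) →
      ((L.map detK).map fun q => q.1.length + 1).sum ≤ L.length * (qD.eval (m + n) + 1) := by
    intro L
    induction L with
    | nil => simp
    | cons K L ih =>
      intro hL
      have e1 := ih fun K' hK' => hL K' (by simp [hK'])
      have e2 := (t_detK (m + n) g hg K (hL K (by simp))).2
      simp only [List.map_cons, List.sum_cons, List.length_cons]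
      rw [Nat.succ_mul]
      omega
  exact (h3 Ks h).trans (Nat.mul_le_mul_right _ hC)

/-- asking, and then computing -/
theorem runs_comp {β : Type} (Ks : List Key) (h : ∀ K ∈ Ks, K.length ≤ m + n + 2) {C : ℕ}
    (hC : Ks.length ≤ C) (F : (Key → ℤ) → β)
    (hF : ∀ s : Key → ℤ, (∀ K ∈ Ks, s K = sO g K) → F s = F (sO g)) :
    Runs g (Gd qD (m + n) g) (bnd (askT Ks) fun o => ret (F (orc Ks o))) (F (sO g))
      (C * (qD.eval (m + n) + 1)) := by
  have h1 := runs_ask hg Ks h hC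
  have h2 : Runs g (Gd qD (m + n) g) (ret (F (orc Ks (Ks.map fun K => signOut (dv g K)))))
      (F (sO g)) 0 := by
    rw [hF _ fun K hK => orc_sO g hK]
    exact Runs.done _ _ _ fun h => rfl
  have h3 := t_TT.1 _ _ _ _ _ (fun o => ret (F (orc Ks o))) _ _ _ _ h1 h2
  rwa [Nat.add_zero] at h3

/-- the number of queries of a step -/
def cS (m n : ℕ) : ℕ := (1 + n * (n + m + 1)) * (1 + 2 * (n + m + 1) + n)

omit hg in
theorem rb {β γ : Type} {G : ℝ → Prop} {T : TT β} {f : β → TT γ} {b : β} {b' : γ} {c c' : ℕ}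
    (h : Runs g G T b c) (h' : Runs g G (f b) b' c') : Runs g G (bnd T f) b' (c + c') :=
  t_TT.1 _ _ _ _ _ _ _ _ _ _ h h'

omit hg in
theorem rb5 {G : ℝ → Prop} {A₁ B₁ A₂ A₃ A₄ C : Type} {t1 : TT (A₁ × B₁)} {t2 : B₁ → TT (A₂ × A₃)}
    {t3 : A₂ → A₁ → TT A₄} {t4 : A₃ → A₁ → TT A₄} {t5 : A₄ → A₄ → TT C} {a1 : A₁} {b1 : B₁}
    {a2 : A₂} {a3 : A₃} {u1 u2 : A₄} {r : C} {c1 c2 c3 c4 c5 : ℕ}
    (h1 : Runs g G t1 (a1, b1) c1) (h2 : Runs g G (t2 b1) (a2, a3) c2)
    (h3 : Runs g G (t3 a2 a1) u1 c3) (h4 : Runs g G (t4 a3 a1) u2 c4)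
    (h5 : Runs g G (t5 u1 u2) r c5) :
    Runs g G (bnd t1 fun x => bnd (t2 x.2) fun y => bnd (t3 y.1 x.1) fun st =>
      bnd (t4 y.2 x.1) fun st' => t5 st st') r (c1 + (c2 + (c3 + (c4 + c5)))) :=
  rb h1 (rb h2 (rb h3 (rb h4 h5)))

omit hg in
theorem pl_len {Vi : List Row} {R : List ℕ} {k : ℕ} (hV : Vi.length ≤ n) (hR : R.length ≤ m) :
    (pl Vi R k).length ≤ n + m := by
  unfold pl
  rw [List.length_append, List.length_map]
  have := List.length_filter_le (fun i => decide (i < k)) R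
  omega

theorem runs_step {Vi : List Row} {R : List ℕ} (c : Row) (hV : Vi.length ≤ n)
    (hR : R.length ≤ m) {st : St} (hst : st.2.2.length ≤ n) :
    Runs g (Gd qD (m + n) g) (stepT n Vi R c st) (stepS (sO g) n Vi R c st)
      (cS m n * (qD.eval (m + n) + 1)) := by
  refine runs_comp hg _ (fun K hK => ?_) ?_ (fun s => stepS s n Vi R c st)
    (fun s hs => stepS_congr hs)
  · have := stepK_short hst K hK
    omega
  · refine (stepK_len _ _ _ _ _).trans ?_
    have := pl_len (k := st.2.1) hV hR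
    unfold cS
    gcongr

omit hg in
theorem stepS_len {s : Key → ℤ} {Vi : List Row} {R : List ℕ} {c : Row} {st : St}
    (hst : st.2.2.length = n) : (stepS s n Vi R c st).2.2.length = n := by
  unfold stepS
  split_ifs
  · exact hst
  · exact hst
  · exact hst
  · cases h : (nl s n c (pl Vi R st.2.1) st.2.2 st.2.1).head? with
    | none => exact hst
    | some L =>
      have h1 := List.mem_of_mem_head? h
      simp only [nl, List.mem_flatMap, List.mem_map] at h1
      obtain ⟨q, -, p, -, rfl⟩ := h1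
      exact len_upd _ _ _ _

omit hg in
theorem iter_len {s : Key → ℤ} {Vi : List Row} {R : List ℕ} {c : Row} {st : St}
    (hst : st.2.2.length = n) (i : ℕ) : ((stepS s n Vi R c)^[i] st).2.2.length = n := by
  induction i with
  | zero => exact hst
  | succ i ih =>
    rw [Function.iterate_succ_apply']
    exact stepS_len ih

theorem runs_iter {Vi : List Row} {R : List ℕ} (c : Row) (hV : Vi.length = n)
    (hR : R.length ≤ m) (k : ℕ) :
    Runs g (Gd qD (m + n) g) (iter (stepT n Vi R c) k (false, 0, Vi))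
      ((stepS (sO g) n Vi R c)^[k] (false, 0, Vi)) (k * (cS m n * (qD.eval (m + n) + 1))) := by
  refine t_TT.2.2.1 _ _ _ _ (fun i => (stepS (sO g) n Vi R c)^[i] (false, 0, Vi)) k _
    fun i _ => ?_
  show Runs _ _ _ ((stepS (sO g) n Vi R c)^[i + 1] (false, 0, Vi)) _
  rw [Function.iterate_succ_apply']
  exact runs_step hg c hV.le hR (iter_len (st := (false, 0, Vi)) hV i).le

omit hg in
theorem len_rl (s : Key → ℤ) : (rl s n m).length ≤ m := by
  have := List.length_filter_le (fun i => !parS s n 0 i) (List.range m)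
  rw [List.length_range] at this
  exact this

omit hg in
theorem len_v0 (s : Key → ℤ) : (v0 s n m).length ≤ n := by
  unfold v0
  rw [List.length_map, List.length_take]
  exact min_le_left _ _

/-- the number of queries -/
def cT (m n : ℕ) : ℕ := m * (m * (n * (n + 1) + n)) + ((n * 2 + 1) + (fuel m n * cS m n +
  (fuel m n * cS m n + (m * (m * (n * (n + 1) + n)) + m * 6))))

theorem runs_TA : Runs g (Gd qD (m + n) g) (TA m n) (ansS (sO g) n m)
    (cT m n * (qD.eval (m + n) + 1)) := by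
  have r1 : Runs g (Gd qD (m + n) g) (T1 m n) (rl (sO g) n m, v0 (sO g) n m) _ :=
    runs_comp hg (k1 n m) (fun K hK => by have := k1_short K hK; omega) (k1_len n m)
      (fun s => (rl s n m, v0 s n m)) fun s hs => by rw [rl_congr hs, v0_congr hs]
  have r2 : Runs g (Gd qD (m + n) g) (T2 n (v0 (sO g) n m))
      (vi (sO g) n (v0 (sO g) n m) (0, 1), vi (sO g) n (v0 (sO g) n m) (0, 2)) _ :=
    runs_comp hg (k2 n (v0 (sO g) n m)) (fun K hK => by
      have := k2_short (len_v0 (sO g)) K hK; omega) (k2_len n _)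
      (fun s => (vi s n (v0 (sO g) n m) (0, 1), vi s n (v0 (sO g) n m) (0, 2))) fun s hs => by
        rw [vi_congr hs (Or.inl rfl), vi_congr hs (Or.inr rfl)]
  have r3 : Runs g (Gd qD (m + n) g) (iter (stepT n (vi (sO g) n (v0 (sO g) n m) (0, 1))
      (rl (sO g) n m) (0, 1)) (fuel m n) (false, 0, vi (sO g) n (v0 (sO g) n m) (0, 1)))
      (runS (sO g) n m (0, 1)) (fuel m n * (cS m n * (qD.eval (m + n) + 1))) :=
    runs_iter hg (0, 1) (len_vi (sO g) n (v0 (sO g) n m) (0, 1)) (len_rl (sO g)) (fuel m n)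
  have r4 : Runs g (Gd qD (m + n) g) (iter (stepT n (vi (sO g) n (v0 (sO g) n m) (0, 2))
      (rl (sO g) n m) (0, 2)) (fuel m n) (false, 0, vi (sO g) n (v0 (sO g) n m) (0, 2)))
      (runS (sO g) n m (0, 2)) (fuel m n * (cS m n * (qD.eval (m + n) + 1))) :=
    runs_iter hg (0, 2) (len_vi (sO g) n (v0 (sO g) n m) (0, 2)) (len_rl (sO g)) (fuel m n)
  have l1 : (runS (sO g) n m (0, 1)).2.2.length ≤ n :=
    (iter_len (s := sO g) (st := (false, 0, _)) (len_vi (sO g) n (v0 (sO g) n m) (0, 1))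
      (fuel m n)).le
  have l2 : (runS (sO g) n m (0, 2)).2.2.length ≤ n :=
    (iter_len (s := sO g) (st := (false, 0, _)) (len_vi (sO g) n (v0 (sO g) n m) (0, 2))
      (fuel m n)).le
  have ha : ansS (sO g) n m = finS (sO g) n m (runS (sO g) n m (0, 1)) (runS (sO g) n m (0, 2)) :=
    ansS_eq _ _ _
  rw [ha]
  generalize runS (sO g) n m (0, 1) = u1 at r3 l1 ⊢
  generalize runS (sO g) n m (0, 2) = u2 at r4 l2 ⊢
  have r5 : Runs g (Gd qD (m + n) g) (T3 m n u1 u2) (finS (sO g) n m u1 u2) _ :=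
    runs_comp hg (k3 n m u1.2.2 u2.2.2) (fun K hK => by have := k3_short l1 l2 K hK; omega)
      (k3_len n m _ _) (fun s => finS s n m u1 u2) fun s hs => finS_congr hs
  obtain ⟨R, hR⟩ : ∃ R, R = rl (sO g) n m := ⟨_, rfl⟩
  obtain ⟨V0, hV0⟩ : ∃ V0, V0 = v0 (sO g) n m := ⟨_, rfl⟩
  rw [← hV0, ← hR] at r1 r3 r4
  rw [← hV0] at r2
  obtain ⟨v1, hv1⟩ : ∃ v1, v1 = vi (sO g) n V0 (0, 1) := ⟨_, rfl⟩
  obtain ⟨v2, hv2⟩ : ∃ v2, v2 = vi (sO g) n V0 (0, 2) := ⟨_, rfl⟩
  rw [← hv1] at r3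
  rw [← hv2] at r4
  rw [← hv1, ← hv2] at r2
  obtain ⟨N, hN⟩ : ∃ N, N = fuel m n := ⟨_, rfl⟩
  rw [← hN] at r3 r4
  have key := rb5 (t1 := T1 m n) (t2 := fun b => T2 n b)
    (t3 := fun a b => iter (stepT n a b (0, 1)) N (false, 0, a))
    (t4 := fun a b => iter (stepT n a b (0, 2)) N (false, 0, a))
    (t5 := fun st st' => T3 m n st st') r1 r2 r3 r4 r5
  unfold TA
  rw [← hN]
  refine t_TT.2.2.2 _ _ _ _ _ _ _ _ (fun _ h => h) (le_of_eq ?_) key
  unfold cT
  rw [← hN]
  ring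

/-- the polynomial for the number of queries -/
noncomputable def qT : Polynomial ℕ :=
  (Polynomial.X * (Polynomial.X * (Polynomial.X * (Polynomial.X + 1) + Polynomial.X)) +
    ((Polynomial.X * 2 + 1) + (Polynomial.X * (Polynomial.X * Polynomial.X + 2) *
      ((1 + Polynomial.X * (Polynomial.X + 1)) * (1 + 2 * (Polynomial.X + 1) + Polynomial.X)) +
      (Polynomial.X * (Polynomial.X * Polynomial.X + 2) *
      ((1 + Polynomial.X * (Polynomial.X + 1)) * (1 + 2 * (Polynomial.X + 1) + Polynomial.X)) +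
      (Polynomial.X * (Polynomial.X * (Polynomial.X * (Polynomial.X + 1) + Polynomial.X)) +
        Polynomial.X * 6))))) * (qD + 1)

omit hg in
theorem cT_le : cT m n * (qD.eval (m + n) + 1) ≤ qT.eval (m + n) := by
  unfold qT cT fuel cS
  simp only [Polynomial.eval_add, Polynomial.eval_mul, Polynomial.eval_X, Polynomial.eval_one,
    Polynomial.eval_ofNat]
  have hm : m ≤ m + n := Nat.le_add_right _ _
  have hn : n ≤ m + n := Nat.le_add_left _ _
  have hnm : n + m ≤ m + n := (Nat.add_comm n m).le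
  gcongr

theorem runs_TA' : Runs g (Gd qD (m + n) g) (TA m n) (ansS (sO g) n m) (qT.eval (m + n)) :=
  t_TT.2.2.2 _ _ _ _ _ _ _ _ (fun _ h => h) cT_le (runs_TA hg)

end

end Pool.Agent.H37.CH
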