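import Pool.Agent.H37.CH.Main
import Pool.Agent.H37.CH.Runs

/-! The signs of the determinants are correct. -/

set_option autoImplicit false

namespace Pool.Agent.H37.CH

open Matrix Pool.Agent.H622R3.SM Pool.Agent.W920.FC

theorem osg_sz (v : ℝ) : osg (signOut v) = sz v := by
  unfold signOut sz
  split_ifs <;> rfl

theorem det_cast {a b : ℕ} (h : a = b) (M : Matrix (Fin a) (Fin a) ℝ)
    (M' : Matrix (Fin b) (Fin b) ℝ)
    (hM : ∀ (i j : ℕ) (hi : i < a) (hj : j < a) (hi' : i < b) (hj' : j < b),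
      M ⟨i, hi⟩ ⟨j, hj⟩ = M' ⟨i, hi'⟩ ⟨j, hj'⟩) : M.det = M'.det := by
  subst h
  congr 1
  funext i j
  exact hM i j i.2 j.2 i.2 j.2

theorem dv_eq {g : Reg → ℝ} {K : Key} {b : ℕ} (h : K.length = b + 1)
    (M' : Matrix (Fin (b + 1)) (Fin (b + 1)) ℝ)
    (hM : ∀ i j : ℕ, ∀ (hi' : i < b + 1) (hj' : j < b + 1),
      sv g (kget K i j) = M' ⟨i, hi'⟩ ⟨j, hj'⟩) : dv g K = (-1) ^ b * M'.det := by
  unfold dv
  rw [if_neg (by omega), det_cast h (MK g K) M' fun i j _ _ hi' hj' => hM i j hi' hj', h,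
    Nat.add_sub_cancel]

namespace Data

variable {m n N : ℕ} (D : Data m n N)

theorem start0 {i j : ℕ} (hi : i < m) (hj : j < n) :
    start D.A D.b [0, i, j] = D.A (D.cl i) ⟨j, hj⟩ := by
  rw [D.cl_val hi]
  show (if h : i < m ∧ j < n then D.A ⟨i, h.1⟩ ⟨j, h.2⟩ else 0) = _
  rw [dif_pos ⟨hi, hj⟩]

theorem start1 {i : ℕ} (hi : i < m) : start D.A D.b [1, i] = D.b (D.cl i) := by
  rw [D.cl_val hi]
  show (if h : i < m then D.b ⟨i, h⟩ else 0) = _
  rw [dif_pos hi]

theorem start2 : start D.A D.b [2] = 1 := rfl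

theorem start3 : start D.A D.b [3] = 0 := rfl

theorem rd_ok {b : Bool} {r : Reg} (h : r.headD 0 < 4) : rd (b, r) = r := if_pos h

theorem sv_lt {r : Row} (hr : r.1 < m) (k : ℕ) {q : ℕ} (hq : q < n) :
    sv (start D.A D.b) (src n k r q) = D.v r ⟨q, hq⟩ := by
  unfold src
  rw [if_pos hq]
  unfold sv
  rw [rd_ok (by simp), D.start0 hr hq]
  unfold v sg
  by_cases h : r.2 = 2
  · rw [if_pos (by simpa using h), if_pos h]
    simp
  · rw [if_neg (by simpa using h), if_neg h]
    simp

theorem sv_ge {r : Row} (hr : r.1 < m) (k : ℕ) {q : ℕ} (hq : ¬q < n) :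
    sv (start D.A D.b) (src n k r q) = D.rhs k r := by
  unfold src rhs
  rw [if_neg hq]
  split_ifs with h1 h2 h2
  · unfold sv rd
    simp [D.start1 hr]
  · unfold sv rd
    simp [D.start3]
  · unfold sv rd
    simp [D.start3]
  · unfold sv rd
    simp [D.start2]

theorem sv_zero {i : ℕ} (hi : i < m) {q : ℕ} :
    sv (start D.A D.b) (src n 0 (i, 0) q) = D.e i q := by
  unfold e
  split_ifs with h
  · rw [D.sv_lt (r := (i, 0)) hi 0 h]
    simp [v, sg]
  · rw [D.sv_ge (r := (i, 0)) hi 0 h]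
    simp [rhs]

theorem kget_map {L : List Row} {w : ℕ} (f : Row → ℕ → Src) {i j : ℕ} (hi : i < L.length)
    (hj : j < w) : kget (L.map fun r => (List.range w).map fun q => f r q) i j =
      f (L.getD i (0, 0)) j := by
  unfold kget
  have e1 : (L.map fun r => (List.range w).map fun q => f r q).getD i [] =
      (List.range w).map fun q => f (L.getD i (0, 0)) q := by
    rw [List.getD_eq_getElem _ _ (by simpa using hi), List.getElem_map,
      List.getD_eq_getElem _ _ hi]
  rw [e1, List.getD_eq_getElem _ _ (by simpa using hj), List.getElem_map, List.getElem_range]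

theorem orc : D.Orc (sO (start D.A D.b)) := by
  have hn := D.hn
  constructor
  · intro L hL hl
    obtain ⟨b, rfl⟩ : ∃ b, n = b + 1 := ⟨n - 1, by omega⟩
    unfold sO
    rw [osg_sz, dv_eq (b := b) (by rw [len_keyA, hl]) (mat D.v (fn (b + 1) L)) ?_,
      Nat.add_sub_cancel]
    intro i j hi hj
    have hi2 : i < L.length := by omega
    unfold keyA
    rw [kget_map (f := fun r q => src (b + 1) 0 r q) hi2 hj,
      D.sv_lt (val_getD hL hi2).1 0 hj]
    rfl
  · intro k L hL hl
    unfold sO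
    rw [osg_sz, dv_eq (b := n) (by rw [len_keyB, hl])
      (bm D.v (D.rhs k) fun p => L.getD p (0, 0)) ?_]
    intro i j hi hj
    have hi2 : i < L.length := by omega
    unfold keyB
    rw [kget_map (f := fun r q => src n k r q) hi2 hj]
    simp only [bm, Matrix.of_apply]
    split_ifs with h
    · rw [D.sv_lt (val_getD hL hi2).1 k h]
    · rw [D.sv_ge (val_getD hL hi2).1 k h]
  · intro i i' j l hi hi' hj hl
    unfold sO
    rw [osg_sz, dv_eq (b := 1) (by simp [keyP]) !![D.e i j, D.e i l; D.e i' j, D.e i' l] ?_,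
      Matrix.det_fin_two]
    · simp only [Matrix.of_apply, Matrix.cons_val', Matrix.cons_val_zero, Matrix.cons_val_one,
        Matrix.cons_val_fin_one]
      congr 1
      ring
    · intro a b ha hb
      have h1 : a = 0 ∨ a = 1 := by omega
      have h2 : b = 0 ∨ b = 1 := by omega
      rcases h1 with rfl | rfl <;> rcases h2 with rfl | rfl
      · exact D.sv_zero hi
      · exact D.sv_zero hi
      · exact D.sv_zero hi'
      · exact D.sv_zero hi'
  · intro i j hi hj
    unfold sO
    rw [osg_sz, dv_eq (b := 0) (by simp [keyE]) !![D.e i j] ?_]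
    · simp
    · intro a b ha hb
      have h1 : a = 0 := by omega
      have h2 : b = 0 := by omega
      subst h1 h2
      exact D.sv_zero hi

end Data

end Pool.Agent.H37.CH
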