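import Pool.Agent.H37.CH.Tab
import Pool.Graph.R_seed8.H687R2.IntPoly
import Pool.Graph.R_seed8.H671R2.PolyAuto
import Pool.Graph.R_seed8.W920.FC.T_PT
import Pool.Graph.R_seed8.W920.FC.T_PTITER
import Pool.Graph.R_seed8.W920.FC.T_OUT

/-! The computation is controlled in polynomial time. -/

set_option autoImplicit false

namespace Pool.Agent.H37.CH

open Pool.Agent.NPC Pool.Agent.H558R2 Pool.Agent.H622R3.SM Pool.Agent.W920.FC

variable {α : Type} [TEnc α]

attribute [local fun_prop] NPC.Poly.range_length NPC.Poly.imul NPC.Poly.ile NPC.Poly.ilt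

theorem psrc {n k q : α → ℕ} {r : α → Row} (hn : Poly n) (hk : Poly k) (hr : Poly r)
    (hq : Poly q) : Poly (fun a => src (n a) (k a) (r a) (q a)) := by
  unfold src
  fun_prop

attribute [local fun_prop] psrc

theorem pkeyA {U : α → List Unit} {L : α → List Row} (hU : Poly U) (hL : Poly L) :
    Poly (fun a => keyA (U a).length (L a)) := by
  unfold keyA
  fun_prop

theorem range_succ' (U : List Unit) :
    List.range (U.length + 1) = List.range (() :: U).length := rfl

theorem pkeyB {U : α → List Unit} {k : α → ℕ} {L : α → List Row} (hU : Poly U) (hk : Poly k)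
    (hL : Poly L) : Poly (fun a => keyB (U a).length (k a) (L a)) := by
  unfold keyB
  simp only [range_succ']
  fun_prop

theorem pkeyP {U : α → List Unit} {i i' j l : α → ℕ} (hU : Poly U) (hi : Poly i) (hi' : Poly i')
    (hj : Poly j) (hl : Poly l) :
    Poly (fun a => keyP (U a).length (i a) (i' a) (j a) (l a)) := by
  unfold keyP
  fun_prop

theorem pkeyE {U : α → List Unit} {i j : α → ℕ} (hU : Poly U) (hi : Poly i)
    (hj : Poly j) : Poly (fun a => keyE (U a).length (i a) (j a)) := by
  unfold keyE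
  fun_prop

theorem pupd {U : α → List Unit} {L : α → List Row} {t : α → ℕ} {c : α → Row} (hU : Poly U)
    (hL : Poly L) (ht : Poly t) (hc : Poly c) :
    Poly (fun a => upd (U a).length (L a) (t a) (c a)) := by
  unfold upd
  fun_prop

theorem ppl {Vi : α → List Row} {R : α → List ℕ} {k : α → ℕ} (hV : Poly Vi) (hR : Poly R)
    (hk : Poly k) : Poly (fun a => pl (Vi a) (R a) (k a)) := by
  unfold pl
  fun_prop

attribute [local fun_prop] pkeyA pkeyB pkeyP pkeyE pupd ppl

section

variable {s : α → Key → ℤ} {U V : α → List Unit}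

theorem pgS (hs : Poly (fun p : α × Key => s p.1 p.2)) (hU : Poly U) {L : α → List Row}
    {r : α → Row} (hL : Poly L) (hr : Poly r) :
    Poly (fun a => gS (s a) (U a).length (L a) (r a)) := by
  unfold gS
  fun_prop

attribute [local fun_prop] pgS

theorem pallS (hs : Poly (fun p : α × Key => s p.1 p.2)) (hU : Poly U) {L P : α → List Row}
    (hL : Poly L) (hP : Poly P) : Poly (fun a => allS (s a) (U a).length (L a) (P a)) := by
  unfold allS
  fun_prop

theorem pdualS (hs : Poly (fun p : α × Key => s p.1 p.2)) (hU : Poly U) {c : α → Row}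
    {L : α → List Row} (hc : Poly c) (hL : Poly L) :
    Poly (fun a => dualS (s a) (U a).length (c a) (L a)) := by
  unfold dualS
  fun_prop

theorem pparS (hs : Poly (fun p : α × Key => s p.1 p.2)) (hU : Poly U) {i i' : α → ℕ}
    (hi : Poly i) (hi' : Poly i') :
    Poly (fun a => parS (s a) (U a).length (i a) (i' a)) := by
  unfold parS
  fun_prop

attribute [local fun_prop] pallS pdualS pparS

theorem pincS (hs : Poly (fun p : α × Key => s p.1 p.2)) (hU : Poly U) {i i' : α → ℕ}
    (hi : Poly i) (hi' : Poly i') :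
    Poly (fun a => incS (s a) (U a).length (i a) (i' a)) := by
  unfold incS
  fun_prop

theorem prl (hs : Poly (fun p : α × Key => s p.1 p.2)) (hU : Poly U) (hV : Poly V) :
    Poly (fun a => rl (s a) (U a).length (V a).length) := by
  unfold rl
  fun_prop

attribute [local fun_prop] pincS prl

theorem preps (hs : Poly (fun p : α × Key => s p.1 p.2)) (hU : Poly U) (hV : Poly V) :
    Poly (fun a => reps (s a) (U a).length (V a).length) := by
  unfold reps
  fun_prop

theorem pvi (hs : Poly (fun p : α × Key => s p.1 p.2)) (hU : Poly U) {V0 : α → List Row}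
    {c : α → Row} (hV : Poly V0) (hc : Poly c) :
    Poly (fun a => vi (s a) (U a).length (V0 a) (c a)) := by
  unfold vi
  fun_prop

theorem pmemS (hU : Poly U) {L : α → List Row} {k : α → ℕ} (hL : Poly L) (hk : Poly k) :
    Poly (fun a => memS (U a).length (L a) (k a)) := by
  unfold memS
  fun_prop

theorem pblockS (hs : Poly (fun p : α × Key => s p.1 p.2)) (hU : Poly U) {P L : α → List Row}
    {k : α → ℕ} {j : α → Row} (hP : Poly P) (hL : Poly L) (hk : Poly k) (hj : Poly j) :
    Poly (fun a => blockS (s a) (U a).length (P a) (L a) (k a) (j a)) := by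
  unfold blockS
  fun_prop

attribute [local fun_prop] preps pvi pmemS pblockS NPC.Poly.take_length

theorem pqs (hs : Poly (fun p : α × Key => s p.1 p.2)) (hU : Poly U) {P L : α → List Row}
    {k : α → ℕ} (hP : Poly P) (hL : Poly L) (hk : Poly k) :
    Poly (fun a => qs (s a) (U a).length (P a) (L a) (k a)) := by
  unfold qs
  fun_prop

theorem pv0 (hs : Poly (fun p : α × Key => s p.1 p.2)) (hU : Poly U) (hV : Poly V) :
    Poly (fun a => v0 (s a) (U a).length (V a).length) := by
  unfold v0
  fun_prop

theorem pincAll (hs : Poly (fun p : α × Key => s p.1 p.2)) (hU : Poly U) (hV : Poly V) :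
    Poly (fun a => incAll (s a) (U a).length (V a).length) := by
  unfold incAll
  fun_prop

theorem plastS (hs : Poly (fun p : α × Key => s p.1 p.2)) (hU : Poly U) (hV : Poly V)
    {L L' : α → List Row} (hL : Poly L) (hL' : Poly L') :
    Poly (fun a => lastS (s a) (U a).length (V a).length (L a) (L' a)) := by
  unfold lastS
  fun_prop

attribute [local fun_prop] pqs pv0 pincAll plastS

theorem pnl (hs : Poly (fun p : α × Key => s p.1 p.2)) (hU : Poly U) {c : α → Row}
    {P L : α → List Row} {k : α → ℕ} (hc : Poly c) (hP : Poly P) (hL : Poly L) (hk : Poly k) :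
    Poly (fun a => nl (s a) (U a).length (c a) (P a) (L a) (k a)) := by
  unfold nl
  fun_prop

attribute [local fun_prop] pnl

theorem pstepS (hs : Poly (fun p : α × Key => s p.1 p.2)) (hU : Poly U) {Vi : α → List Row}
    {R : α → List ℕ} {c : α → Row} {st : α → St} (hV : Poly Vi) (hR : Poly R) (hc : Poly c)
    (hst : Poly st) : Poly (fun a => stepS (s a) (U a).length (Vi a) (R a) (c a) (st a)) := by
  unfold stepS
  fun_prop

theorem pfinS (hs : Poly (fun p : α × Key => s p.1 p.2)) (hU : Poly U) (hV : Poly V)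
    {st st' : α → St} (hst : Poly st) (hst' : Poly st') :
    Poly (fun a => finS (s a) (U a).length (V a).length (st a) (st' a)) := by
  unfold finS
  fun_prop

end

/-! ### Keys -/

section

variable {U V : α → List Unit}

theorem pkS (hU : Poly U) {c : α → Row} {P L : α → List Row} (hc : Poly c) (hP : Poly P)
    (hL : Poly L) : Poly (fun a => kS (U a).length (c a) (P a) (L a)) := by
  unfold kS
  fun_prop

attribute [local fun_prop] pkS

theorem pstepK (hU : Poly U) {c : α → Row} {P L : α → List Row} {k : α → ℕ} (hc : Poly c)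
    (hP : Poly P) (hk : Poly k) (hL : Poly L) :
    Poly (fun a => stepK (U a).length (c a) (P a) (k a) (L a)) := by
  unfold stepK
  fun_prop

theorem pk1 (hU : Poly U) (hV : Poly V) : Poly (fun a => k1 (U a).length (V a).length) := by
  unfold k1
  simp only [range_succ']
  fun_prop

attribute [local fun_prop] pk1

theorem pk2 (hU : Poly U) {V0 : α → List Row} (h0 : Poly V0) :
    Poly (fun a => k2 (U a).length (V0 a)) := by
  unfold k2
  fun_prop

theorem pk3 (hU : Poly U) (hV : Poly V) {L L' : α → List Row} (hL : Poly L) (hL' : Poly L') :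
    Poly (fun a => k3 (U a).length (V a).length (L a) (L' a)) := by
  unfold k3
  fun_prop

end

theorem posg {o : α → Outcome} (h : Poly o) : Poly (fun a => osg (o a)) :=
  (NPC.Poly.ite (p := fun a => o a = some true) (NPC.Poly.dec_eq h (NPC.Poly.const _))
    (NPC.Poly.const (1 : ℤ)) (NPC.Poly.ite (p := fun a => o a = none)
      (NPC.Poly.dec_eq h (NPC.Poly.const _)) (NPC.Poly.const (0 : ℤ))
      (NPC.Poly.const (-1 : ℤ)))).congr fun a => by
    rcases o a with _ | _ | _ <;> rfl

theorem porc {Ks : α → List Key} {o : α → List Outcome} {K : α → Key} (h : Poly Ks) (ho : Poly o)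
    (hK : Poly K) : Poly (fun a => orc (Ks a) (o a) (K a)) := by
  unfold orc
  exact posg (by fun_prop)

/-! ### The computation -/

theorem paskT {Ks : α → List Key} (h : Poly Ks) : PT (fun a => askT (Ks a)) := by
  unfold askT
  exact t_PT.2.2 α _ (NPC.Poly.map (F := fun _ K => detK K) h (pdetK (NPC.Poly.snd NPC.Poly.id)))

theorem pcomp {β : Type} [TEnc β] {Ks : α → List Key} (h : Poly Ks) {F : α → (Key → ℤ) → β}
    (hF : Poly (fun p : α × List Outcome => F p.1 (orc (Ks p.1) p.2))) :
    PT (fun a => bnd (askT (Ks a)) fun o => ret (F a (orc (Ks a) o))) :=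
  t_PT.2.1 α _ β _ (fun a o => ret (F a (orc (Ks a) o))) (paskT h) (t_PT.1 _ _ _ hF)

theorem porcs {Ks : α → List Key} (h : Poly Ks) :
    Poly (fun p : (α × List Outcome) × Key => orc (Ks p.1.1) p.1.2 p.2) :=
  porc (h.comp (NPC.Poly.fst (NPC.Poly.fst NPC.Poly.id))) (NPC.Poly.snd (NPC.Poly.fst NPC.Poly.id))
    (NPC.Poly.snd NPC.Poly.id)

theorem pstepT' {U : α → List Unit} (hU : Poly U) {Vi : α → List Row}
    {R : α → List ℕ} {c : α → Row} {st : α → St} (hV : Poly Vi) (hR : Poly R) (hc : Poly c)
    (hst : Poly st) {Ks : α → List Key} (hK : Poly Ks) :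
    PT (fun a => bnd (askT (Ks a)) fun o =>
      ret (stepS (orc (Ks a) o) (U a).length (Vi a) (R a) (c a) (st a))) := by
  refine pcomp hK (F := fun a s => stepS s (U a).length (Vi a) (R a) (c a) (st a)) ?_
  exact pstepS (α := α × List Outcome) (s := fun p => orc (Ks p.1) p.2) (U := fun p => U p.1)
    (porcs hK) (hU.comp (NPC.Poly.fst NPC.Poly.id)) (hV.comp (NPC.Poly.fst NPC.Poly.id))
    (hR.comp (NPC.Poly.fst NPC.Poly.id)) (hc.comp (NPC.Poly.fst NPC.Poly.id))
    (hst.comp (NPC.Poly.fst NPC.Poly.id))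

theorem pstepT {U : α → List Unit} (hU : Poly U) {Vi : α → List Row}
    {R : α → List ℕ} {c : α → Row} {st : α → St} (hV : Poly Vi) (hR : Poly R) (hc : Poly c)
    (hst : Poly st) : PT (fun a => stepT (U a).length (Vi a) (R a) (c a) (st a)) := by
  have h1 : Poly (fun a => (st a).2.1) := NPC.Poly.fst (NPC.Poly.snd hst)
  have h2 : Poly (fun a => (st a).2.2) := NPC.Poly.snd (NPC.Poly.snd hst)
  exact pstepT' hU hV hR hc hst (pstepK hU hc (ppl hV hR h1) h1 h2)

theorem pT1' {U V : α → List Unit} (hU : Poly U) (hV : Poly V) {Ks : α → List Key}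
    (hK : Poly Ks) : PT (fun a => bnd (askT (Ks a)) fun o =>
      ret (rl (orc (Ks a) o) (V a).length (U a).length,
        v0 (orc (Ks a) o) (V a).length (U a).length)) := by
  refine pcomp hK (F := fun a s => (rl s (V a).length (U a).length,
    v0 s (V a).length (U a).length)) ?_
  exact NPC.Poly.pair
    (prl (α := α × List Outcome) (s := fun p => orc (Ks p.1) p.2) (U := fun p => V p.1)
      (V := fun p => U p.1) (porcs hK) (hV.comp (NPC.Poly.fst NPC.Poly.id))
      (hU.comp (NPC.Poly.fst NPC.Poly.id)))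
    (pv0 (α := α × List Outcome) (s := fun p => orc (Ks p.1) p.2) (U := fun p => V p.1)
      (V := fun p => U p.1) (porcs hK) (hV.comp (NPC.Poly.fst NPC.Poly.id))
      (hU.comp (NPC.Poly.fst NPC.Poly.id)))

theorem pT1 {U V : α → List Unit} (hU : Poly U) (hV : Poly V) :
    PT (fun a => T1 (U a).length (V a).length) :=
  pT1' hU hV (pk1 hV hU)

theorem pT2' {V : α → List Unit} {V0 : α → List Row} (hV : Poly V) (h0 : Poly V0)
    {Ks : α → List Key} (hK : Poly Ks) : PT (fun a => bnd (askT (Ks a)) fun o =>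
      ret (vi (orc (Ks a) o) (V a).length (V0 a) (0, 1),
        vi (orc (Ks a) o) (V a).length (V0 a) (0, 2))) := by
  refine pcomp hK (F := fun a s => (vi s (V a).length (V0 a) (0, 1),
    vi s (V a).length (V0 a) (0, 2))) ?_
  exact NPC.Poly.pair
    (pvi (α := α × List Outcome) (s := fun p => orc (Ks p.1) p.2) (U := fun p => V p.1)
      (V0 := fun p => V0 p.1) (c := fun _ => (0, 1))
      (porcs hK) (hV.comp (NPC.Poly.fst NPC.Poly.id)) (h0.comp (NPC.Poly.fst NPC.Poly.id))
      (NPC.Poly.const _))
    (pvi (α := α × List Outcome) (s := fun p => orc (Ks p.1) p.2) (U := fun p => V p.1)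
      (V0 := fun p => V0 p.1) (c := fun _ => (0, 2))
      (porcs hK) (hV.comp (NPC.Poly.fst NPC.Poly.id)) (h0.comp (NPC.Poly.fst NPC.Poly.id))
      (NPC.Poly.const _))

theorem pT2 {V : α → List Unit} {V0 : α → List Row} (hV : Poly V) (h0 : Poly V0) :
    PT (fun a => T2 (V a).length (V0 a)) :=
  pT2' hV h0 (pk2 hV h0)

theorem pT3' {U V : α → List Unit} (hU : Poly U) (hV : Poly V) {st st' : α → St}
    (h : Poly st) (h' : Poly st') {Ks : α → List Key} (hK : Poly Ks) :
    PT (fun a => bnd (askT (Ks a)) fun o =>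
      ret (finS (orc (Ks a) o) (V a).length (U a).length (st a) (st' a))) := by
  refine pcomp hK (F := fun a s => finS s (V a).length (U a).length (st a) (st' a)) ?_
  exact pfinS (α := α × List Outcome) (s := fun p => orc (Ks p.1) p.2) (U := fun p => V p.1)
    (V := fun p => U p.1) (st := fun p => st p.1) (st' := fun p => st' p.1) (porcs hK)
    (hV.comp (NPC.Poly.fst NPC.Poly.id)) (hU.comp (NPC.Poly.fst NPC.Poly.id))
    (h.comp (NPC.Poly.fst NPC.Poly.id)) (h'.comp (NPC.Poly.fst NPC.Poly.id))

theorem pT3 {U V : α → List Unit} (hU : Poly U) (hV : Poly V) {st st' : α → St}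
    (h : Poly st) (h' : Poly st') :
    PT (fun a => T3 (U a).length (V a).length (st a) (st' a)) :=
  pT3' hU hV h h' (pk3 hV hU (NPC.Poly.snd (NPC.Poly.snd h)) (NPC.Poly.snd (NPC.Poly.snd h')))

end Pool.Agent.H37.CH
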