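import Pool.Agent.H37.CH.Tsys

/-! Dual exchange steps. -/

set_option autoImplicit false

namespace Pool.Agent.H37.CH

open Finset Matrix Function

section basic

variable {E : Type} {n : ℕ} (v : E → Fin n → ℝ) (β : E → ℝ)

/-- the matrix of some rows -/
def mat (V : Fin n → E) : Matrix (Fin n) (Fin n) ℝ := Matrix.of fun p => v (V p)

/-- the slack of a row -/
def gap (r : E) (x : Fin n → ℝ) : ℝ := v r ⬝ᵥ x - β r

/-- all rows are tight -/
def Vert (V : Fin n → E) (x : Fin n → ℝ) : Prop := ∀ p, gap v β (V p) x = 0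

/-- `V` is dual feasible for the objective `c` -/
def Dual (c : Fin n → ℝ) (V : Fin n → E) : Prop :=
  ∃ y : Fin n → ℝ, (∀ p, 0 < y p) ∧ c = -∑ p, y p • v (V p)

variable {v β}

theorem exists_vert {V : Fin n → E} (h : (mat v V).det ≠ 0) : ∃ x, Vert v β V x := by
  refine ⟨(mat v V)⁻¹ *ᵥ fun p => β (V p), fun p => ?_⟩
  have : mat v V *ᵥ ((mat v V)⁻¹ *ᵥ fun p => β (V p)) = fun p => β (V p) := by
    rw [Matrix.mulVec_mulVec, Matrix.mul_nonsing_inv _ (isUnit_iff_ne_zero.2 h),
      Matrix.one_mulVec]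
  have := congrFun this p
  rw [gap, sub_eq_zero]
  exact this

theorem ker_zero {V : Fin n → E} (h : (mat v V).det ≠ 0) {x : Fin n → ℝ}
    (hx : ∀ p, v (V p) ⬝ᵥ x = 0) : x = 0 :=
  Matrix.eq_zero_of_mulVec_eq_zero h (funext hx)

theorem gap_sub (r : E) (x y : Fin n → ℝ) : gap v β r x - gap v β r y = v r ⬝ᵥ (x - y) := by
  rw [gap, gap, dotProduct_sub]
  ring

theorem vert_unique {V : Fin n → E} (h : (mat v V).det ≠ 0) {x y : Fin n → ℝ}
    (hx : Vert v β V x) (hy : Vert v β V y) : x = y := by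
  rw [← sub_eq_zero]
  refine ker_zero h fun p => ?_
  rw [← gap_sub (β := β), hx p, hy p, sub_zero]

theorem coords {V : Fin n → E} (h : (mat v V).det ≠ 0) (c : Fin n → ℝ) :
    ∃ y : Fin n → ℝ, c = ∑ p, y p • v (V p) := by
  refine ⟨c ᵥ* (mat v V)⁻¹, ?_⟩
  have : (c ᵥ* (mat v V)⁻¹) ᵥ* mat v V = c := by
    rw [Matrix.vecMul_vecMul, Matrix.nonsing_inv_mul _ (isUnit_iff_ne_zero.2 h),
      Matrix.vecMul_one]
  conv_lhs => rw [← this]
  rw [Matrix.vecMul_eq_sum]
  rfl

theorem sum_zero {V : Fin n → E} (h : (mat v V).det ≠ 0) {y : Fin n → ℝ}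
    (hy : ∑ p, y p • v (V p) = 0) : y = 0 := by
  refine Matrix.eq_zero_of_vecMul_eq_zero h ?_
  rw [Matrix.vecMul_eq_sum]
  exact hy

theorem det_coord {V : Fin n → E} {c y : Fin n → ℝ} (hc : c = ∑ p, y p • v (V p)) (p : Fin n) :
    ((mat v V).updateRow p c).det = y p * (mat v V).det := by
  have := Matrix.det_updateRow_sum (mat v V) p y
  rw [smul_eq_mul] at this
  rw [← this, hc]
  rfl

theorem mat_update (V : Fin n → E) (p : Fin n) (q : E) :
    mat v (update V p q) = (mat v V).updateRow p (v q) := by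
  funext s t
  simp only [mat, Matrix.of_apply, Matrix.updateRow_apply]
  by_cases h : s = p
  · rw [if_pos h, h, update_self]
  · rw [if_neg h, update_of_ne h]

theorem dual_iff {V : Fin n → E} (h : (mat v V).det ≠ 0) {c : Fin n → ℝ} :
    Dual v c V ↔ ∀ p, (mat v V).det * ((mat v V).updateRow p c).det < 0 := by
  constructor
  · rintro ⟨y, hy, hc⟩ p
    have hc' : c = ∑ p, (-y p) • v (V p) := by
      rw [hc, ← Finset.sum_neg_distrib]
      exact Finset.sum_congr rfl fun _ _ => (neg_smul _ _).symm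
    rw [det_coord hc' p]
    have := mul_pos (hy p) (mul_self_pos.2 h)
    nlinarith
  · intro H
    obtain ⟨y, hy⟩ := coords h c
    refine ⟨fun p => -y p, fun p => ?_, ?_⟩
    · have := H p
      rw [det_coord hy p] at this
      have h2 := mul_self_pos.2 h
      by_contra hneg
      push Not at hneg
      have : 0 ≤ y p * ((mat v V).det * (mat v V).det) := mul_nonneg (by linarith) h2.le
      nlinarith
    · rw [hy, ← Finset.sum_neg_distrib]
      exact Finset.sum_congr rfl fun _ _ => by rw [neg_smul, neg_neg]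

/-- The leaving coordinate is positive. -/
theorem exch_pos {V : Fin n → E} (h : (mat v V).det ≠ 0) {c : Fin n → ℝ} {p : Fin n} {q : E}
    {y y' z : Fin n → ℝ} (hy : 0 < y p) (hc : c = -∑ t, y t • v (V t)) (hy' : 0 < y' p)
    (hc' : c = -∑ t, y' t • v (update V p q t)) (hz : v q = ∑ t, z t • v (V t)) : 0 < z p := by
  have e : ∑ t, (update y' p 0 t + y' p * z t - y t) • v (V t) = 0 := by
    have h1 : ∑ t, y' t • v (update V p q t) = ∑ t, update y' p 0 t • v (V t) + y' p • v q := by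
      rw [← Finset.add_sum_erase _ _ (Finset.mem_univ p),
        ← Finset.add_sum_erase (f := fun t => update y' p 0 t • v (V t)) _ (Finset.mem_univ p),
        update_self, update_self, zero_smul, zero_add, add_comm]
      congr 1
      refine Finset.sum_congr rfl fun t ht => ?_
      have := (Finset.mem_erase.1 ht).1
      rw [update_of_ne this, update_of_ne this]
    have h2 : ∑ t, y' t • v (update V p q t) = ∑ t, y t • v (V t) := by
      rw [← neg_inj, ← hc', ← hc]
    simp only [sub_smul, add_smul, mul_smul, Finset.sum_sub_distrib, Finset.sum_add_distrib,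
      ← Finset.smul_sum]
    rw [← hz, ← h1, h2, sub_self]
  have := congrFun (sum_zero h e) p
  simp only [update_self, Pi.zero_apply, zero_add] at this
  by_contra hneg
  push Not at hneg
  have := mul_nonneg hy'.le (neg_nonneg.2 hneg)
  nlinarith

/-- The dual exchange step: either some row can leave, or the rows have no common solution. -/
theorem exchange {V : Fin n → E} (h : (mat v V).det ≠ 0) {c : Fin n → ℝ} (hd : Dual v c V)
    {x : Fin n → ℝ} (hx : Vert v β V x) {q : E} (hq : gap v β q x < 0)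
    (nd : ∀ p, (mat v (update V p q)).det ≠ 0 →
      ∀ t, ((mat v (update V p q)).updateRow t c).det ≠ 0) :
    (∃ p, (mat v (update V p q)).det ≠ 0 ∧ Dual v c (update V p q)) ∨
      ¬∃ x', (∀ p, 0 ≤ gap v β (V p) x') ∧ 0 ≤ gap v β q x' := by
  obtain ⟨z, hz⟩ := coords h (v q)
  obtain ⟨y, hy, hc⟩ := hd
  by_cases hneg : ∀ p, z p ≤ 0
  · right
    rintro ⟨x', h1, h2⟩
    have e : gap v β q x' - gap v β q x = ∑ p, z p * gap v β (V p) x' := by
      rw [gap_sub, hz, sum_dotProduct]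
      refine Finset.sum_congr rfl fun p _ => ?_
      rw [smul_dotProduct, smul_eq_mul, ← gap_sub (β := β), hx p, sub_zero]
    have : ∑ p, z p * gap v β (V p) x' ≤ 0 :=
      Finset.sum_nonpos fun p _ => mul_nonpos_of_nonpos_of_nonneg (hneg p) (h1 p)
    linarith
  · left
    push Not at hneg
    obtain ⟨p1, hp1⟩ := hneg
    obtain ⟨p, hp, hmin⟩ := Finset.exists_min_image (Finset.univ.filter fun p => 0 < z p)
      (fun p => y p / z p) ⟨p1, by simpa using hp1⟩
    simp only [Finset.mem_filter, Finset.mem_univ, true_and] at hp hmin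
    have hdet : (mat v (update V p q)).det ≠ 0 := by
      rw [mat_update, det_coord hz p]
      exact mul_ne_zero hp.ne' h
    refine ⟨p, hdet, ?_⟩
    set r := y p / z p with hr
    have hr0 : 0 < r := div_pos (hy p) hp
    let y' : Fin n → ℝ := update (fun s => y s - z s * r) p r
    have hc' : c = ∑ s, (-y' s) • v (update V p q s) := by
      have h1 : ∑ s, (-y' s) • v (update V p q s) =
          -(r • v q) - ∑ s ∈ Finset.univ.erase p, (y s - z s * r) • v (V s) := by
        rw [← Finset.add_sum_erase _ _ (Finset.mem_univ p)]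
        simp only [y', update_self, neg_smul]
        rw [sub_eq_add_neg, ← Finset.sum_neg_distrib]
        congr 1
        refine Finset.sum_congr rfl fun s hs => ?_
        have := (Finset.mem_erase.1 hs).1
        rw [update_of_ne this, update_of_ne this]
      have h2 : ∑ s ∈ Finset.univ.erase p, (y s - z s * r) • v (V s) =
          ∑ s, (y s - z s * r) • v (V s) := by
        rw [← Finset.add_sum_erase _ _ (Finset.mem_univ p)]
        have : y p - z p * r = 0 := by
          rw [hr]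
          field_simp
          ring
        rw [this, zero_smul, zero_add]
      rw [h1, h2]
      simp only [sub_smul, Finset.sum_sub_distrib]
      have h3 : ∑ s, (z s * r) • v (V s) = r • v q := by
        rw [hz, Finset.smul_sum]
        refine Finset.sum_congr rfl fun s _ => ?_
        rw [mul_comm, mul_smul]
      rw [h3, hc]
      abel
    refine ⟨y', fun s => ?_, ?_⟩
    · have hne : y' s ≠ 0 := by
        intro h0
        apply nd p hdet s
        have := det_coord (v := v) hc' s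
        rw [this, h0, neg_zero, zero_mul]
      refine lt_of_le_of_ne ?_ hne.symm
      simp only [y']
      by_cases hs : s = p
      · rw [hs, update_self]
        exact hr0.le
      · rw [update_of_ne hs, sub_nonneg]
        by_cases hzs : 0 < z s
        · have := hmin s hzs
          rwa [le_div_iff₀ hzs, mul_comm] at this
        · push Not at hzs
          exact (mul_nonpos_of_nonpos_of_nonneg hzs hr0.le).trans (hy s).le
    · rw [hc', ← Finset.sum_neg_distrib]
      exact Finset.sum_congr rfl fun s _ => neg_smul _ _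

/-! ### Moving along an edge -/

section move

variable {V : Fin n → E} {c : Fin n → ℝ} {pk : Fin n} {x0 y : Fin n → ℝ}

theorem move_facts (hy : Vert v β V y) (h0 : ∀ p, p ≠ pk → gap v β (V p) x0 = 0) :
    ∀ p, p ≠ pk → v (V p) ⬝ᵥ (y - x0) = 0 := fun p hp => by
  rw [← gap_sub (β := β), hy p, h0 p hp, sub_zero]

theorem move_k (h : (mat v V).det ≠ 0) (hy : Vert v β V y)
    (h0 : ∀ p, p ≠ pk → gap v β (V p) x0 = 0) (hk : gap v β (V pk) x0 ≤ 0) {j : E}
    (hj0 : 0 ≤ gap v β j x0) (hj : gap v β j y < 0) :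
    0 < v (V pk) ⬝ᵥ (y - x0) ∧ v j ⬝ᵥ (y - x0) < 0 := by
  have h1 : v j ⬝ᵥ (y - x0) < 0 := by
    rw [← gap_sub (β := β)]
    linarith
  refine ⟨lt_of_le_of_ne ?_ fun h2 => ?_, h1⟩
  · rw [← gap_sub (β := β), hy pk]
    linarith
  · have : y - x0 = 0 := by
      refine ker_zero h fun p => ?_
      by_cases hp : p = pk
      · rw [hp, ← h2]
      · exact move_facts hy h0 p hp
    rw [this, dotProduct_zero] at h1
    exact h1.false

theorem move_det (h : (mat v V).det ≠ 0) (hy : Vert v β V y)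
    (h0 : ∀ p, p ≠ pk → gap v β (V p) x0 = 0) (hk : gap v β (V pk) x0 ≤ 0) {j : E}
    (hj0 : 0 ≤ gap v β j x0) (hj : gap v β j y < 0) : (mat v (update V pk j)).det ≠ 0 := by
  obtain ⟨z, hz⟩ := coords h (v j)
  rw [mat_update, det_coord hz pk]
  refine mul_ne_zero (fun hz0 => ?_) h
  have h1 := (move_k h hy h0 hk hj0 hj).2
  have : v j ⬝ᵥ (y - x0) = 0 := by
    rw [hz, sum_dotProduct]
    refine Finset.sum_eq_zero fun p _ => ?_
    rw [smul_dotProduct, smul_eq_mul]
    by_cases hp : p = pk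
    · rw [hp, hz0, zero_mul]
    · rw [move_facts hy h0 p hp, mul_zero]
  rw [this] at h1
  exact h1.false

theorem move_ne (h : (mat v V).det ≠ 0) (hy : Vert v β V y)
    (h0 : ∀ p, p ≠ pk → gap v β (V p) x0 = 0) (hk : gap v β (V pk) x0 ≤ 0) {j : E}
    (hj0 : 0 ≤ gap v β j x0) (hj : gap v β j y < 0) (hd : Dual v c V) {p : Fin n}
    (hd' : Dual v c (update V p j)) : p ≠ pk := by
  rintro rfl
  obtain ⟨y1, hy1, hc⟩ := hd
  obtain ⟨y2, hy2, hc'⟩ := hd'
  obtain ⟨z, hz⟩ := coords h (v j)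
  have hzp := exch_pos h (hy1 p) hc (hy2 p) hc' hz
  obtain ⟨h1, h2⟩ := move_k h hy h0 hk hj0 hj
  have : v j ⬝ᵥ (y - x0) = z p * (v (V p) ⬝ᵥ (y - x0)) := by
    rw [hz, sum_dotProduct, Finset.sum_eq_single p]
    · rw [smul_dotProduct, smul_eq_mul]
    · intro t _ ht
      rw [smul_dotProduct, smul_eq_mul, move_facts hy h0 t ht, mul_zero]
    · exact fun h => absurd (Finset.mem_univ p) h
  rw [this] at h2
  have := mul_pos hzp h1
  linarith

theorem gap_line (r : E) (x y : Fin n → ℝ) (s : ℝ) :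
    gap v β r (x + s • (y - x)) = (1 - s) * gap v β r x + s * gap v β r y := by
  simp only [gap, dotProduct_add, dotProduct_smul, dotProduct_sub, smul_eq_mul]
  ring

/-- The vertex on the edge. -/
theorem move_vert (h : (mat v V).det ≠ 0) (hy : Vert v β V y)
    (h0 : ∀ p, p ≠ pk → gap v β (V p) x0 = 0) (hk : gap v β (V pk) x0 ≤ 0) {j : E}
    (hj0 : 0 ≤ gap v β j x0) (hj : gap v β j y < 0) {z : Fin n → ℝ}
    (hz : Vert v β (update V pk j) z) :
    z = x0 + (gap v β j x0 / (gap v β j x0 - gap v β j y)) • (y - x0) := by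
  refine vert_unique (move_det h hy h0 hk hj0 hj) hz fun p => ?_
  rw [gap_line]
  by_cases hp : p = pk
  · rw [hp, update_self]
    have : gap v β j x0 - gap v β j y ≠ 0 := by linarith
    field_simp
    ring
  · rw [update_of_ne hp, h0 p hp, hy p]
    ring

theorem move_gap_k (h : (mat v V).det ≠ 0) (hy : Vert v β V y)
    (h0 : ∀ p, p ≠ pk → gap v β (V p) x0 = 0) (hk : gap v β (V pk) x0 ≤ 0) {j : E}
    (hj0 : 0 ≤ gap v β j x0) (hj : gap v β j y < 0) {z : Fin n → ℝ}
    (hz : Vert v β (update V pk j) z) : gap v β (V pk) z ≤ 0 := by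
  rw [move_vert h hy h0 hk hj0 hj hz, gap_line, hy pk, mul_zero, add_zero]
  refine mul_nonpos_of_nonneg_of_nonpos ?_ hk
  rw [sub_nonneg, div_le_one (by linarith)]
  linarith

/-- There is a blocking row. -/
theorem exists_block (h : (mat v V).det ≠ 0) (hy : Vert v β V y)
    (h0 : ∀ p, p ≠ pk → gap v β (V p) x0 = 0) (hk : gap v β (V pk) x0 ≤ 0) {P : List E}
    (hP : ∀ r ∈ P, 0 ≤ gap v β r x0) (hv : ∃ r ∈ P, gap v β r y < 0) :
    ∃ j ∈ P, gap v β j y < 0 ∧ ∀ z, Vert v β (update V pk j) z → ∀ r ∈ P, 0 ≤ gap v β r z := by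
  classical
  obtain ⟨r0, hr0, hr0'⟩ := hv
  obtain ⟨j, hj, hmin⟩ := Finset.exists_min_image (P.toFinset.filter fun r => gap v β r y < 0)
    (fun r => gap v β r x0 / (gap v β r x0 - gap v β r y)) ⟨r0, by simp [hr0, hr0']⟩
  simp only [Finset.mem_filter, List.mem_toFinset] at hj hmin
  refine ⟨j, hj.1, hj.2, fun z hz r hr => ?_⟩
  rw [move_vert h hy h0 hk (hP j hj.1) hj.2 hz, gap_line]
  have hj0 := hP j hj.1
  have hr0 := hP r hr
  set s := gap v β j x0 / (gap v β j x0 - gap v β j y) with hs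
  have hs0 : 0 ≤ s := div_nonneg hj0 (by linarith [hj.2])
  have hs1 : s ≤ 1 := by
    rw [hs, div_le_one (by linarith [hj.2])]
    linarith [hj.2]
  by_cases hry : gap v β r y < 0
  · have hm := hmin r ⟨hr, hry⟩
    have hpos : 0 < gap v β r x0 - gap v β r y := by linarith
    have : s * (gap v β r x0 - gap v β r y) ≤ gap v β r x0 := by
      rwa [← le_div_iff₀ hpos]
    nlinarith
  · push Not at hry
    exact add_nonneg (mul_nonneg (by linarith) hr0) (mul_nonneg hs0 hry)

end move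

end basic

/-! ### Chebyshev systems -/

section cheb

variable {E : Type} {n N : ℕ} {v : E → Fin n → ℝ} {T : Fin N → Fin n → ℝ} (hT : IsCheb T)
  {ν : E → Fin N} {δ : E → ℝ} (hδ : ∀ r, δ r ≠ 0) (hv : ∀ r, v r = δ r • T (ν r))

include hT hδ hv in
theorem det_ne_iff {V : Fin n → E} : (mat v V).det ≠ 0 ↔ Injective fun p => ν (V p) := by
  constructor
  · intro h s t hst
    by_contra hne
    apply h
    have hst' : ν (V s) = ν (V t) := hst
    rw [← Matrix.exists_vecMul_eq_zero_iff]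
    refine ⟨Pi.single s (δ (V t)) - Pi.single t (δ (V s)), fun h0 => ?_, ?_⟩
    · have := congrFun h0 s
      rw [Pi.sub_apply, Pi.single_eq_same, Pi.single_eq_of_ne hne, sub_zero] at this
      exact hδ _ this
    · rw [Matrix.sub_vecMul, Matrix.single_vecMul, Matrix.single_vecMul, sub_eq_zero]
      show δ (V t) • v (V s) = δ (V s) • v (V t)
      rw [hv, hv (V t), hst', smul_smul, smul_smul, mul_comm]
  · intro h h0
    rw [← Matrix.exists_mulVec_eq_zero_iff] at h0
    obtain ⟨x, hx, hx'⟩ := h0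
    refine hx (hT.zero (S := Finset.univ.image fun p => ν (V p))
      (by rw [Finset.card_image_of_injective _ h, Finset.card_univ, Fintype.card_fin]) ?_)
    intro u hu
    obtain ⟨p, -, rfl⟩ := Finset.mem_image.1 hu
    have := congrFun hx' p
    have h2 : v (V p) ⬝ᵥ x = 0 := this
    rw [hv, smul_dotProduct, smul_eq_mul] at h2
    exact (mul_eq_zero.1 h2).resolve_left (hδ _)

include hT hδ hv in
/-- the objective is in general position -/
theorem nondeg {V : Fin n → E} (h : (mat v V).det ≠ 0) {c : E} (hc : ∀ p, ν (V p) ≠ ν c)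
    (t : Fin n) : ((mat v V).updateRow t (v c)).det ≠ 0 := by
  rw [← mat_update, det_ne_iff hT hδ hv]
  have hi := (det_ne_iff hT hδ hv).1 h
  intro a b hab
  have hab' : ν (update V t c a) = ν (update V t c b) := hab
  by_cases ha : a = t <;> by_cases hb : b = t
  · rw [ha, hb]
  · rw [ha, update_self, update_of_ne hb] at hab'
    exact absurd hab'.symm (hc b)
  · rw [hb, update_self, update_of_ne ha] at hab'
    exact absurd hab' (hc a)
  · rw [update_of_ne ha, update_of_ne hb] at hab'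
    exact hi hab'

include hT hδ hv in
/-- The exchange moves towards the row `k`. -/
theorem towards {V : Fin n → E} (h : (mat v V).det ≠ 0) {c : E} (hc : ∀ p, ν (V p) ≠ ν c)
    {pk p : Fin n} (hp : p ≠ pk) {j : E} (h' : (mat v (update V p j)).det ≠ 0)
    (hjc : ν j ≠ ν c) (hjk : ∀ p, ν j ≠ ν (V p)) (hd : Dual v (v c) V)
    (hd' : Dual v (v c) (update V p j)) {d : Fin n → ℝ}
    (hd0 : ∀ t, t ≠ pk → v (V t) ⬝ᵥ d = 0) (hdk : 0 < v (V pk) ⬝ᵥ d) (hdj : v j ⬝ᵥ d < 0) :
    (cyc (ν c) (ν (V pk)) < cyc (ν c) (ν j) ∧ cyc (ν c) (ν j) < cyc (ν c) (ν (V p))) ∨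
      (cyc (ν c) (ν (V p)) < cyc (ν c) (ν j) ∧ cyc (ν c) (ν j) < cyc (ν c) (ν (V pk))) := by
  have hi := (det_ne_iff hT hδ hv).1 h
  obtain ⟨y, hy, hcy⟩ := hd
  obtain ⟨y', hy', hcy'⟩ := hd'
  -- the vector `e`
  obtain ⟨e, he⟩ : ∃ e : Fin n → ℝ, ∀ t, v (V t) ⬝ᵥ e = if t = p then 1 else 0 := by
    refine ⟨(mat v V)⁻¹ *ᵥ fun t => if t = p then 1 else 0, fun t => ?_⟩
    have : mat v V *ᵥ ((mat v V)⁻¹ *ᵥ fun t => if t = p then 1 else 0) =
        fun t => if t = p then 1 else 0 := by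
      rw [Matrix.mulVec_mulVec, Matrix.mul_nonsing_inv _ (isUnit_iff_ne_zero.2 h),
        Matrix.one_mulVec]
    exact congrFun this t
  have hce : v c ⬝ᵥ e = -y p := by
    rw [hcy, neg_dotProduct, sum_dotProduct, Finset.sum_eq_single p]
    · rw [smul_dotProduct, he, if_pos rfl, smul_eq_mul, mul_one]
    · intro t _ ht
      rw [smul_dotProduct, he, if_neg ht, smul_zero]
    · exact fun h => absurd (Finset.mem_univ p) h
  have hce' : v c ⬝ᵥ e = -(y' p * (v j ⬝ᵥ e)) := by
    rw [hcy', neg_dotProduct, sum_dotProduct, Finset.sum_eq_single p]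
    · rw [smul_dotProduct, update_self, smul_eq_mul]
    · intro t _ ht
      rw [smul_dotProduct, update_of_ne ht, he, if_neg ht, smul_zero]
    · exact fun h => absurd (Finset.mem_univ p) h
  have hje : 0 < v j ⬝ᵥ e := by
    have h1 : y' p * (v j ⬝ᵥ e) = y p := by linarith
    by_contra hneg
    push Not at hneg
    have := mul_nonpos_of_nonneg_of_nonpos (hy' p).le hneg
    linarith [hy p]
  have hcd : v c ⬝ᵥ d = -(y pk * (v (V pk) ⬝ᵥ d)) := by
    rw [hcy, neg_dotProduct, sum_dotProduct, Finset.sum_eq_single pk]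
    · rw [smul_dotProduct, smul_eq_mul]
    · intro t _ ht
      rw [smul_dotProduct, hd0 t ht, smul_zero]
    · exact fun h => absurd (Finset.mem_univ pk) h
  have hcd0 : v c ⬝ᵥ d < 0 := by
    rw [hcd]
    have := mul_pos (hy pk) hdk
    linarith
  have hce0 : v c ⬝ᵥ e < 0 := by rw [hce]; linarith [hy p]
  -- the vector `h`
  let f : Fin n → ℝ := (v c ⬝ᵥ e) • d - (v c ⬝ᵥ d) • e
  have hf : ∀ r, v r ⬝ᵥ f = (v c ⬝ᵥ e) * (v r ⬝ᵥ d) - (v c ⬝ᵥ d) * (v r ⬝ᵥ e) := by
    intro r
    simp only [f, dotProduct_sub, dotProduct_smul, smul_eq_mul]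
  -- signs
  set Z : Finset (Fin N) := (Finset.univ.filter fun t : Fin n => t ≠ p ∧ t ≠ pk).image
    (fun t => ν (V t)) with hZ
  have hZcard : Z.card + 2 = n := by
    rw [hZ, Finset.card_image_of_injective _ hi]
    have h1 : (Finset.univ.filter fun t : Fin n => t ≠ p ∧ t ≠ pk) =
        (Finset.univ.erase p).erase pk := by
      ext t
      simp [and_comm]
    rw [h1, Finset.card_erase_of_mem (by simp [hp.symm]), Finset.card_erase_of_mem (by simp),
      Finset.card_univ, Fintype.card_fin]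
    have : 2 ≤ n := by
      have h2 : ({p, pk} : Finset (Fin n)).card ≤ Fintype.card (Fin n) := Finset.card_le_univ _
      rwa [Finset.card_pair hp, Fintype.card_fin] at h2
    omega
  have memZ : ∀ {u}, u ∈ Z ↔ ∃ t, t ≠ p ∧ t ≠ pk ∧ ν (V t) = u := by
    intro u
    rw [hZ, Finset.mem_image]
    simp [and_assoc]
  have hpZ : ν (V p) ∉ Z := by
    rw [memZ]
    rintro ⟨t, h1, h2, h3⟩
    exact h1 (hi h3)
  have hkZ : ν (V pk) ∉ Z := by
    rw [memZ]
    rintro ⟨t, h1, h2, h3⟩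
    exact h2 (hi h3)
  have hjZ : ν j ∉ Z := by
    rw [memZ]
    rintro ⟨t, h1, h2, h3⟩
    exact hjk t h3.symm
  have hcZ : ν c ∉ Z := by
    rw [memZ]
    rintro ⟨t, h1, h2, h3⟩
    exact hc t h3
  have hpk : ν (V p) ≠ ν (V pk) := fun h => hp (hi h)
  have tz : ∀ r x, v r ⬝ᵥ x = 0 → T (ν r) ⬝ᵥ x = 0 := by
    intro r x h0
    rw [hv, smul_dotProduct, smul_eq_mul] at h0
    exact (mul_eq_zero.1 h0).resolve_left (hδ _)
  have tv : ∀ r x, v r ⬝ᵥ x = δ r * (T (ν r) ⬝ᵥ x) := by
    intro r x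
    rw [hv, smul_dotProduct, smul_eq_mul]
  have s1 := hT.sign (Z := insert (ν (V pk)) Z) (x := e)
    (by rw [Finset.card_insert_of_notMem hkZ]; omega)
    (fun h0 => by rw [h0, dotProduct_zero] at hje; exact hje.false)
    (fun z hz => by
      rcases Finset.mem_insert.1 hz with rfl | hz
      · exact tz _ _ (by rw [he, if_neg hp.symm])
      · obtain ⟨t, h1, -, rfl⟩ := memZ.1 hz
        exact tz _ _ (by rw [he, if_neg h1]))
    (u := ν (V p)) (v := ν j)
    (by rw [Finset.mem_insert, not_or]; exact ⟨hpk, hpZ⟩)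
    (by rw [Finset.mem_insert, not_or]; exact ⟨hjk pk, hjZ⟩)
  have s2 := hT.sign (Z := insert (ν (V p)) Z) (x := d)
    (by rw [Finset.card_insert_of_notMem hpZ]; omega)
    (fun h0 => by rw [h0, dotProduct_zero] at hdk; exact hdk.false)
    (fun z hz => by
      rcases Finset.mem_insert.1 hz with rfl | hz
      · exact tz _ _ (hd0 p hp)
      · obtain ⟨t, -, h1, rfl⟩ := memZ.1 hz
        exact tz _ _ (hd0 t h1))
    (u := ν (V pk)) (v := ν j)
    (by rw [Finset.mem_insert, not_or]; exact ⟨hpk.symm, hkZ⟩)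
    (by rw [Finset.mem_insert, not_or]; exact ⟨hjk p, hjZ⟩)
  have hfp : v (V p) ⬝ᵥ f = -(v c ⬝ᵥ d) := by
    rw [hf, hd0 p hp, he, if_pos rfl]
    ring
  have hfk : v (V pk) ⬝ᵥ f = (v c ⬝ᵥ e) * (v (V pk) ⬝ᵥ d) := by
    rw [hf, he, if_neg hp.symm]
    ring
  have s3 := hT.sign (Z := insert (ν c) Z) (x := f)
    (by rw [Finset.card_insert_of_notMem hcZ]; omega)
    (fun h0 => by rw [h0, dotProduct_zero] at hfp; linarith)
    (fun z hz => by
      rcases Finset.mem_insert.1 hz with rfl | hz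
      · exact tz _ _ (by rw [hf]; ring)
      · obtain ⟨t, h1, h2, rfl⟩ := memZ.1 hz
        exact tz _ _ (by rw [hf, hd0 t h2, he, if_neg h1]; ring))
    (u := ν (V p)) (v := ν (V pk))
    (by rw [Finset.mem_insert, not_or]; exact ⟨hc p, hpZ⟩)
    (by rw [Finset.mem_insert, not_or]; exact ⟨hc pk, hkZ⟩)
  rw [nb_insert hkZ] at s1
  rw [nb_insert hpZ] at s2
  rw [nb_insert hcZ] at s3
  refine cyc_between (hjk p).symm hpk (hjk pk) (hc p).symm hjc.symm (hc pk).symm ?_
  have hev := nb_even Z hpZ hjZ hkZ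
  -- the product of the signs
  have a1 : 0 < (v (V p) ⬝ᵥ e) * (v j ⬝ᵥ e) := by
    rw [he, if_pos rfl, one_mul]
    exact hje
  have a2 : (v (V pk) ⬝ᵥ d) * (v j ⬝ᵥ d) < 0 := mul_neg_of_pos_of_neg hdk hdj
  have a3 : (v (V p) ⬝ᵥ f) * (v (V pk) ⬝ᵥ f) < 0 := by
    rw [hfp, hfk]
    exact mul_neg_of_pos_of_neg (by linarith) (mul_neg_of_neg_of_pos hce0 hdk)
  rw [tv (V p), tv j] at a1
  rw [tv (V pk), tv j] at a2
  rw [tv (V p), tv (V pk)] at a3
  by_contra hodd
  rw [Nat.not_even_iff_odd] at hodd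
  have hodd2 : Odd ((btw (ν (V pk)) (ν (V p)) (ν j) + nb Z (ν (V p)) (ν j)) +
      (btw (ν (V p)) (ν (V pk)) (ν j) + nb Z (ν (V pk)) (ν j)) +
      (btw (ν c) (ν (V p)) (ν (V pk)) + nb Z (ν (V p)) (ν (V pk)))) := by
    have := hodd.add_even hev
    convert this using 1
    ring
  have hprod := mul_pos (mul_pos s1 s2) s3
  have hprod2 := mul_pos_of_neg_of_neg a2 a3
  have hprod3 := mul_pos a1 hprod2
  have e1 : ∀ (k1 k2 k3 : ℕ) (a b c d' e' f' : ℝ),
      ((-1 : ℝ) ^ k1 * (a * b)) * ((-1) ^ k2 * (c * d')) * ((-1) ^ k3 * (e' * f')) =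
      (-1) ^ (k1 + k2 + k3) * ((a * b) * (c * d') * (e' * f')) := by
    intro k1 k2 k3 a b c d' e' f'
    rw [pow_add, pow_add]
    ring
  rw [e1, hodd2.neg_one_pow] at hprod
  have e2 : δ (V p) * (T (ν (V p)) ⬝ᵥ e) * (δ j * (T (ν j) ⬝ᵥ e)) *
      (δ (V pk) * (T (ν (V pk)) ⬝ᵥ d) * (δ j * (T (ν j) ⬝ᵥ d)) *
        (δ (V p) * (T (ν (V p)) ⬝ᵥ f) * (δ (V pk) * (T (ν (V pk)) ⬝ᵥ f)))) =
      (δ (V p) * δ j * δ (V pk)) ^ 2 * (((T (ν (V p)) ⬝ᵥ e) * (T (ν j) ⬝ᵥ e)) *
        ((T (ν (V pk)) ⬝ᵥ d) * (T (ν j) ⬝ᵥ d)) * ((T (ν (V p)) ⬝ᵥ f) * (T (ν (V pk)) ⬝ᵥ f))) := by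
    ring
  rw [e2] at hprod3
  have := (pos_iff_pos_of_mul_pos hprod3).1 (by
    have : δ (V p) * δ j * δ (V pk) ≠ 0 := mul_ne_zero (mul_ne_zero (hδ _) (hδ _)) (hδ _)
    positivity)
  linarith

end cheb

end Pool.Agent.H37.CH
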