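import Pool.Agent.H37.CH.Final

/-! Totally positive matrices and unit vectors. -/

set_option autoImplicit false

namespace Pool.Agent.H37.CH

open Matrix

/-- All minors of `T` are positive. -/
def TotPos {m n : ℕ} (T : Fin m → Fin n → ℝ) : Prop :=
  ∀ (r : ℕ) (f : Fin r → Fin m) (g : Fin r → Fin n), StrictMono f → StrictMono g →
    0 < (Matrix.of fun p q => T (f p) (g q)).det

/-- The rows of `T`, and the unit vectors in the reversed order and with alternating signs. -/
noncomputable def ext (m n : ℕ) (T : Fin m → Fin n → ℝ) (u : ℕ) (j : Fin n) : ℝ :=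
  if h : u < m then T ⟨u, h⟩ j else if (j : ℕ) + (u - m) + 1 = n then (-1) ^ (u - m) else 0

theorem ext_pos {m : ℕ} : ∀ (n : ℕ) (T : Fin m → Fin n → ℝ), TotPos T → ∀ f : Fin n → ℕ,
    StrictMono f → (∀ p, f p < m + n) → 0 < (Matrix.of fun p => ext m n T (f p)).det := by
  intro n
  induction n with
  | zero =>
    intro T _ f _ _
    simp
  | succ n ih =>
    intro T hT f hf hlt
    by_cases hl : f (Fin.last n) < m
    · have hall : ∀ p, f p < m := fun p => (hf.monotone (Fin.le_last p)).trans_lt hl
      have := hT (n + 1) (fun p => ⟨f p, hall p⟩) id (fun a b hab => hf hab) strictMono_id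
      convert this using 2
      funext p q
      simp only [Matrix.of_apply, ext, dif_pos (hall p), id]
    · have hj : f (Fin.last n) - m < n + 1 := by
        have := hlt (Fin.last n)
        omega
      obtain ⟨j, hjj⟩ : ∃ j, j = f (Fin.last n) - m := ⟨_, rfl⟩
      rw [← hjj] at hj
      have hfl : f (Fin.last n) = m + j := by omega
      let c : Fin (n + 1) := ⟨n - j, by omega⟩
      rw [Matrix.det_succ_row _ (Fin.last n), Finset.sum_eq_single c]
      · have e1 : (Matrix.of fun p => ext m (n + 1) T (f p)) (Fin.last n) c = (-1) ^ j := by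
          simp only [Matrix.of_apply, ext]
          rw [dif_neg hl, if_pos (by simp only [c]; omega), ← hjj]
        have e2 : ((-1 : ℝ)) ^ ((Fin.last n : ℕ) + (c : ℕ)) * (-1) ^ j = 1 := by
          rw [← pow_add]
          refine Even.neg_one_pow ⟨n, ?_⟩
          simp only [Fin.val_last, c]
          omega
        rw [e1, e2, one_mul]
        have h3 := ih (fun i q => T i (c.succAbove q)) (fun r f' g' hf' hg' =>
          hT r f' (fun q => c.succAbove (g' q)) hf'
            (fun a b hab => (Fin.strictMono_succAbove c) (hg' hab))) (fun p => f p.castSucc)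
          (fun a b hab => hf (by simpa using hab)) (fun p => by
            have := hf (Fin.castSucc_lt_last p)
            omega)
        convert h3 using 2
        funext p q
        simp only [Matrix.submatrix_apply, Matrix.of_apply, Fin.succAbove_last, ext]
        by_cases hp : f p.castSucc < m
        · rw [dif_pos hp, dif_pos hp]
        · rw [dif_neg hp, dif_neg hp]
          have hlt' := hf (Fin.castSucc_lt_last p)
          have hq : ((c.succAbove q : Fin (n + 1)) : ℕ) = if (q : ℕ) < n - j then (q : ℕ)
              else q + 1 := by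
            unfold Fin.succAbove
            simp only [Fin.lt_def, Fin.val_castSucc, c]
            split_ifs <;> rfl
          rw [hq]
          by_cases hqc : (q : ℕ) < n - j
          · rw [if_pos hqc, if_neg (by omega), if_neg (by omega)]
          · rw [if_neg hqc]
            by_cases h5 : (q : ℕ) + (f p.castSucc - m) + 1 = n
            · rw [if_pos (by omega), if_pos h5]
            · rw [if_neg (by omega), if_neg h5]
      · intro q _ hq
        have : (Matrix.of fun p => ext m (n + 1) T (f p)) (Fin.last n) q = 0 := by
          simp only [Matrix.of_apply, ext]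
          rw [dif_neg hl, if_neg]
          intro h
          exact hq (Fin.ext (by simp only [c]; omega))
        rw [this]
        ring
      · exact fun h => absurd (Finset.mem_univ _) h

/-- Every row of `A` is a nonzero multiple of a row of the totally positive matrix `T`, or of a
unit vector. -/
theorem chebyshevRows_totPos {m n M : ℕ} {T : Fin M → Fin n → ℝ} (hT : TotPos T)
    {A : Matrix (Fin m) (Fin n) ℝ}
    (hA : ∀ i, ∃ δ : ℝ, δ ≠ 0 ∧ ((∃ u, ∀ j, A i j = δ * T u j) ∨
      ∃ c, ∀ j, A i j = δ * if j = c then 1 else 0)) : ChebyshevRows m n A := by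
  refine ⟨M + n, fun u => ext M n T u, ⟨Nat.le_add_left _ _, 1, fun f hf => ?_⟩, fun i => ?_⟩
  · rw [one_mul]
    exact ext_pos n T hT (fun p => f p) (fun a b hab => hf hab) fun p => (f p).2
  · obtain ⟨δ, hδ, ⟨u, hu⟩ | ⟨c, hc⟩⟩ := hA i
    · refine ⟨⟨u, by have := u.2; omega⟩, δ, hδ, fun j => ?_⟩
      rw [hu j]
      simp only [ext]
      rw [dif_pos u.2]
    · have hcn := c.2
      refine ⟨⟨M + (n - 1 - c), by omega⟩, δ * (-1) ^ (n - 1 - (c : ℕ)),
        mul_ne_zero hδ (pow_ne_zero _ (by norm_num)), fun j => ?_⟩
      rw [hc j, mul_assoc]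
      congr 1
      simp only [ext]
      rw [dif_neg (by omega)]
      by_cases h : j = c
      · subst h
        rw [if_pos rfl, if_pos (by omega), ← pow_add]
        refine (Even.neg_one_pow ⟨n - 1 - (j : ℕ), ?_⟩).symm
        omega
      · rw [if_neg h, if_neg, mul_zero]
        intro h2
        exact h (Fin.ext (by omega))

end Pool.Agent.H37.CH
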