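import Pool.Agent.H37.CH.Det

/-! The adaptive computation. -/

set_option autoImplicit false

namespace Pool.Agent.H37.CH

open Pool.Agent.NPC Pool.Agent.H558R2 Pool.Agent.H622R3.SM Pool.Agent.W920.FC

/-! ### Tables of answers -/

/-- The table of the outcomes `o` of the queries `Ks`. -/
def orc (Ks : List Key) (o : List Outcome) (K : Key) : ℤ :=
  osg (((((Ks.zip o).filter fun e => decide (e.1 = K)).head?).map fun e => e.2).getD none)

theorem orc_eq (f : Key → Outcome) {Ks : List Key} {K : Key} (h : K ∈ Ks) :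
    orc Ks (Ks.map f) K = osg (f K) := by
  unfold orc
  congr 1
  induction Ks with
  | nil => exact absurd h (by simp)
  | cons K' Ks ih =>
    rw [List.map_cons, List.zip_cons_cons, List.filter_cons]
    by_cases h' : K' = K
    · rw [if_pos (by simpa using h'), h']
      rfl
    · rw [if_neg (by simpa using h')]
      exact ih ((List.mem_cons.1 h).resolve_left fun e => h' e.symm)

/-! ### Congruences -/

theorem all_congr' {α : Type} {l : List α} {p q : α → Bool} (h : ∀ a ∈ l, p a = q a) :
    l.all p = l.all q := by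
  induction l with
  | nil => rfl
  | cons a l ih =>
    simp only [List.all_cons]
    rw [h a (by simp), ih fun b hb => h b (by simp [hb])]

theorem any_congr' {α : Type} {l : List α} {p q : α → Bool} (h : ∀ a ∈ l, p a = q a) :
    l.any p = l.any q := by
  induction l with
  | nil => rfl
  | cons a l ih =>
    simp only [List.any_cons]
    rw [h a (by simp), ih fun b hb => h b (by simp [hb])]

theorem flatMap_congr' {α β : Type} {l : List α} {p q : α → List β} (h : ∀ a ∈ l, p a = q a) :
    l.flatMap p = l.flatMap q := by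
  induction l with
  | nil => rfl
  | cons a l ih =>
    simp only [List.flatMap_cons]
    rw [h a (by simp), ih fun b hb => h b (by simp [hb])]

/-- the keys for one list of rows -/
def kS (n : ℕ) (c : Row) (P : List Row) (L : List Row) : List Key :=
  keyA n L :: ((P.flatMap fun r => [keyB n 1 (L ++ [r]), keyB n 0 (L ++ [r])]) ++
    (List.range n).map fun t => keyA n (upd n L t c))

/-- the keys for a step -/
def stepK (n : ℕ) (c : Row) (P : List Row) (k : ℕ) (L : List Row) : List Key :=
  kS n c (P ++ [(k, 0)]) L ++ (List.range n).flatMap fun p =>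
    (P ++ [(k, 0)]).flatMap fun q => kS n c (P ++ [(k, 0)]) (upd n L p q)

/-- the keys for the pairs of rows -/
def k1 (n m : ℕ) : List Key := (List.range m).flatMap fun i => (List.range m).flatMap fun i' =>
  ((List.range n).flatMap fun j => (List.range (n + 1)).map fun l => keyP n i i' j l) ++
    (List.range n).map fun j => keyE n i j

/-- the keys for the first vertex -/
def k2 (n : ℕ) (V0 : List Row) : List Key := keyA n V0 :: (List.range n).flatMap fun p =>
  [keyA n (upd n V0 p (0, 1)), keyA n (upd n V0 p (0, 2))]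

/-- the keys for the last test -/
def k3 (n m : ℕ) (L L' : List Row) : List Key := k1 n m ++ (List.range m).flatMap fun i =>
  [keyA n L, keyB n 1 (L ++ [(i, 0)]), keyB n 0 (L ++ [(i, 0)]), keyA n L',
    keyB n 1 (L' ++ [(i, 0)]), keyB n 0 (L' ++ [(i, 0)])]

section

variable {s s' : Key → ℤ} {n m : ℕ} {c : Row} {P : List Row} {k : ℕ} {L L' : List Row}

theorem gS_congr {r : Row} (h0 : s (keyA n L) = s' (keyA n L))
    (h1 : s (keyB n 1 (L ++ [r])) = s' (keyB n 1 (L ++ [r])))
    (h2 : s (keyB n 0 (L ++ [r])) = s' (keyB n 0 (L ++ [r]))) : gS s n L r = gS s' n L r := by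
  unfold gS
  rw [h0, h1, h2]

theorem gS_congr' (h : ∀ K ∈ kS n c P L, s K = s' K) {r : Row} (hr : r ∈ P) :
    gS s n L r = gS s' n L r := by
  refine gS_congr (h _ ?_) (h _ ?_) (h _ ?_)
  · simp [kS]
  · refine List.mem_cons_of_mem _ (List.mem_append_left _ (List.mem_flatMap.2 ⟨r, hr, ?_⟩))
    simp
  · refine List.mem_cons_of_mem _ (List.mem_append_left _ (List.mem_flatMap.2 ⟨r, hr, ?_⟩))
    simp

theorem allS_congr (h : ∀ K ∈ kS n c P L, s K = s' K) {Q : List Row} (hQ : ∀ r ∈ Q, r ∈ P) :
    allS s n L Q = allS s' n L Q := by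
  unfold allS
  exact all_congr' fun r hr => by rw [gS_congr' h (hQ r hr)]

theorem dualS_congr (h : ∀ K ∈ kS n c P L, s K = s' K) : dualS s n c L = dualS s' n c L := by
  unfold dualS
  have h0 : s (keyA n L) = s' (keyA n L) := h _ (by simp [kS])
  rw [h0]
  congr 1
  refine all_congr' fun t ht => ?_
  rw [h (keyA n (upd n L t c)) (List.mem_cons_of_mem _ (List.mem_append_right _
    (List.mem_map.2 ⟨t, ht, rfl⟩)))]

theorem stepK_left (h : ∀ K ∈ stepK n c P k L, s K = s' K) :
    ∀ K ∈ kS n c (P ++ [(k, 0)]) L, s K = s' K :=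
  fun K hK => h K (List.mem_append_left _ hK)

theorem stepK_right (h : ∀ K ∈ stepK n c P k L, s K = s' K) {p : ℕ} (hp : p < n) {q : Row}
    (hq : q ∈ P ++ [(k, 0)]) : ∀ K ∈ kS n c (P ++ [(k, 0)]) (upd n L p q), s K = s' K :=
  fun K hK => h K (List.mem_append_right _ (List.mem_flatMap.2 ⟨p, List.mem_range.2 hp,
    List.mem_flatMap.2 ⟨q, hq, hK⟩⟩))

theorem blockS_congr (h : ∀ K ∈ stepK n c P k L, s K = s' K) {j : Row} (hj : j ∈ P) :
    blockS s n P L k j = blockS s' n P L k j := by
  unfold blockS
  rw [gS_congr' (stepK_left h) (List.mem_append_left _ hj)]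
  congr 1
  refine any_congr' fun p hp => ?_
  have h1 := stepK_right h (List.mem_range.1 hp) (List.mem_append_left _ hj)
  rw [allS_congr h1 fun r hr => List.mem_append_left _ hr, h1 _ (by simp [kS])]

theorem qs_congr (h : ∀ K ∈ stepK n c P k L, s K = s' K) : qs s n P L k = qs s' n P L k := by
  unfold qs
  rw [List.filter_congr fun j hj => blockS_congr h hj]

theorem mem_qs {q : Row} (h : q ∈ qs s n P L k) : q ∈ P ++ [(k, 0)] := by
  unfold qs at h
  split_ifs at h
  · exact List.mem_append_left _ (List.mem_filter.1 h).1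
  · exact List.mem_append_right _ h

theorem nl_congr (h : ∀ K ∈ stepK n c P k L, s K = s' K) : nl s n c P L k = nl s' n c P L k := by
  unfold nl
  rw [← qs_congr h]
  refine flatMap_congr' fun q hq => ?_
  rw [List.filter_congr fun p hp => dualS_congr (stepK_right h (List.mem_range.1 hp) (mem_qs hq))]

theorem stepS_congr {Vi : List Row} {R : List ℕ} {st : St}
    (h : ∀ K ∈ stepK n c (pl Vi R st.2.1) st.2.1 st.2.2, s K = s' K) :
    stepS s n Vi R c st = stepS s' n Vi R c st := by
  unfold stepS
  rw [nl_congr h, allS_congr (stepK_left h) fun r hr => hr]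

theorem parS_congr (h : ∀ K ∈ k1 n m, s K = s' K) {i i' : ℕ} (hi : i < m) (hi' : i' < m) :
    parS s n i i' = parS s' n i i' := by
  unfold parS
  refine all_congr' fun j hj => all_congr' fun l hl => ?_
  rw [h]
  refine List.mem_flatMap.2 ⟨i, List.mem_range.2 hi, List.mem_flatMap.2 ⟨i', List.mem_range.2 hi',
    List.mem_append_left _ (List.mem_flatMap.2 ⟨j, hj, List.mem_map.2 ⟨l, ?_, rfl⟩⟩)⟩⟩
  rw [List.mem_range] at hl ⊢
  omega

theorem incS_congr (h : ∀ K ∈ k1 n m, s K = s' K) {i i' : ℕ} (hi : i < m) (hi' : i' < m) :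
    incS s n i i' = incS s' n i i' := by
  have hE : ∀ i < m, ∀ j ∈ List.range n, s (keyE n i j) = s' (keyE n i j) := fun i hi j hj =>
    h _ (List.mem_flatMap.2 ⟨i, List.mem_range.2 hi, List.mem_flatMap.2 ⟨i, List.mem_range.2 hi,
      List.mem_append_right _ (List.mem_map.2 ⟨j, hj, rfl⟩)⟩⟩)
  unfold incS
  rw [parS_congr h hi hi']
  congr 1
  refine any_congr' fun j hj => ?_
  rw [hE i hi j hj, hE i' hi' j hj, h (keyP n i i' j n) (List.mem_flatMap.2 ⟨i,
    List.mem_range.2 hi, List.mem_flatMap.2 ⟨i', List.mem_range.2 hi', List.mem_append_left _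
      (List.mem_flatMap.2 ⟨j, hj, List.mem_map.2 ⟨n, List.mem_range.2 (Nat.lt_succ_self n),
        rfl⟩⟩)⟩⟩)]

theorem rl_congr (h : ∀ K ∈ k1 n m, s K = s' K) : rl s n m = rl s' n m := by
  unfold rl
  refine List.filter_congr fun i hi => ?_
  rw [List.mem_range] at hi
  rw [parS_congr h (by omega) hi]

theorem rl_lt {i : ℕ} (h : i ∈ rl s n m) : i < m := List.mem_range.1 (List.mem_filter.1 h).1

theorem reps_congr (h : ∀ K ∈ k1 n m, s K = s' K) : reps s n m = reps s' n m := by
  unfold reps
  rw [← rl_congr h]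
  refine List.filter_congr fun i hi => all_congr' fun i' hi' => ?_
  rw [parS_congr h (rl_lt (List.mem_filter.1 hi').1) (rl_lt hi)]

theorem v0_congr (h : ∀ K ∈ k1 n m, s K = s' K) : v0 s n m = v0 s' n m := by
  unfold v0
  rw [reps_congr h]

theorem incAll_congr (h : ∀ K ∈ k1 n m, s K = s' K) : incAll s n m = incAll s' n m := by
  unfold incAll
  exact any_congr' fun i hi => any_congr' fun i' hi' =>
    incS_congr h (List.mem_range.1 hi) (List.mem_range.1 hi')

theorem vi_congr {V0 : List Row} (h : ∀ K ∈ k2 n V0, s K = s' K)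
    (hc : c = (0, 1) ∨ c = (0, 2)) : vi s n V0 c = vi s' n V0 c := by
  unfold vi
  refine List.map_congr_left fun p hp => ?_
  rw [h (keyA n V0) (by simp [k2]), h (keyA n (upd n V0 p c)) (List.mem_cons_of_mem _
    (List.mem_flatMap.2 ⟨p, hp, by rcases hc with rfl | rfl <;> simp⟩))]

/-- the last decision -/
def finS (s : Key → ℤ) (n m : ℕ) (st st' : St) : Bool :=
  !incAll s n m && (decide ((reps s n m).length < n) ||
    (!st.1 && (!st'.1 && lastS s n m st.2.2 st'.2.2)))

theorem finS_congr {st st' : St} (h : ∀ K ∈ k3 n m st.2.2 st'.2.2, s K = s' K) :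
    finS s n m st st' = finS s' n m st st' := by
  have h1 : ∀ K ∈ k1 n m, s K = s' K := fun K hK => h K (List.mem_append_left _ hK)
  have h2 : lastS s n m st.2.2 st'.2.2 = lastS s' n m st.2.2 st'.2.2 := by
    unfold lastS
    refine all_congr' fun i hi => ?_
    have h3 : ∀ K ∈ [keyA n st.2.2, keyB n 1 (st.2.2 ++ [(i, 0)]), keyB n 0 (st.2.2 ++ [(i, 0)]),
        keyA n st'.2.2, keyB n 1 (st'.2.2 ++ [(i, 0)]), keyB n 0 (st'.2.2 ++ [(i, 0)])],
        s K = s' K := fun K hK =>
      h K (List.mem_append_right _ (List.mem_flatMap.2 ⟨i, hi, hK⟩))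
    rw [List.mem_range] at hi
    rw [parS_congr h1 (by omega) hi, gS_congr (h3 _ (by simp)) (h3 _ (by simp)) (h3 _ (by simp)),
      gS_congr (h3 _ (by simp)) (h3 _ (by simp)) (h3 _ (by simp))]
  unfold finS
  rw [incAll_congr h1, reps_congr h1, h2]

theorem ansS_eq (s : Key → ℤ) (n m : ℕ) :
    ansS s n m = finS s n m (runS s n m (0, 1)) (runS s n m (0, 2)) := rfl

end

/-! ### The computation -/

/-- asking the signs of determinants -/
def askT (Ks : List Key) : TT (List Outcome) := batch (Ks.map detK)

/-- a step -/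
def stepT (n : ℕ) (Vi : List Row) (R : List ℕ) (c : Row) (st : St) : TT St :=
  bnd (askT (stepK n c (pl Vi R st.2.1) st.2.1 st.2.2)) fun o =>
    ret (stepS (orc (stepK n c (pl Vi R st.2.1) st.2.1 st.2.2) o) n Vi R c st)

/-- the first phase -/
def T1 (m n : ℕ) : TT (List ℕ × List Row) :=
  bnd (askT (k1 n m)) fun o => ret (rl (orc (k1 n m) o) n m, v0 (orc (k1 n m) o) n m)

/-- the second phase -/
def T2 (n : ℕ) (V0 : List Row) : TT (List Row × List Row) :=
  bnd (askT (k2 n V0)) fun o => ret (vi (orc (k2 n V0) o) n V0 (0, 1),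
    vi (orc (k2 n V0) o) n V0 (0, 2))

/-- the last phase -/
def T3 (m n : ℕ) (st st' : St) : TT Bool :=
  bnd (askT (k3 n m st.2.2 st'.2.2)) fun o =>
    ret (finS (orc (k3 n m st.2.2 st'.2.2) o) n m st st')

/-- the computation -/
def TA (m n : ℕ) : TT Bool :=
  bnd (T1 m n) fun x => bnd (T2 n x.2) fun y =>
    bnd (iter (stepT n y.1 x.1 (0, 1)) (fuel m n) (false, 0, y.1)) fun st =>
      bnd (iter (stepT n y.2 x.1 (0, 2)) (fuel m n) (false, 0, y.2)) fun st' => T3 m n st st'

/-- the algorithm -/
def alg : Alg := algOf TA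

/-! ### Lengths -/

theorem len_keyA (n : ℕ) (L : List Row) : (keyA n L).length = L.length := by
  simp [keyA]

theorem len_keyB (n k : ℕ) (L : List Row) : (keyB n k L).length = L.length := by
  simp [keyB]

theorem len_upd (n : ℕ) (L : List Row) (t : ℕ) (c : Row) : (upd n L t c).length = n := by
  simp [upd]

theorem len_vi (s : Key → ℤ) (n : ℕ) (V0 : List Row) (c : Row) : (vi s n V0 c).length = n := by
  simp [vi]

theorem kS_short {n : ℕ} {c : Row} {P L : List Row} (hL : L.length ≤ n) :
    ∀ K ∈ kS n c P L, K.length ≤ n + 1 := by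
  intro K hK
  simp only [kS, List.mem_cons, List.mem_append, List.mem_flatMap, List.mem_map,
    List.mem_range, List.not_mem_nil, or_false] at hK
  rcases hK with rfl | ⟨r, -, rfl | rfl⟩ | ⟨t, -, rfl⟩
  · rw [len_keyA]; omega
  · rw [len_keyB, List.length_append, List.length_singleton]; omega
  · rw [len_keyB, List.length_append, List.length_singleton]; omega
  · rw [len_keyA, len_upd]; omega

theorem stepK_short {n : ℕ} {c : Row} {P L : List Row} {k : ℕ} (hL : L.length ≤ n) :
    ∀ K ∈ stepK n c P k L, K.length ≤ n + 1 := by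
  intro K hK
  simp only [stepK, List.mem_append, List.mem_flatMap] at hK
  rcases hK with hK | ⟨p, -, q, -, hK⟩
  · exact kS_short hL K hK
  · exact kS_short (len_upd _ _ _ _).le K hK

theorem k1_short {n m : ℕ} : ∀ K ∈ k1 n m, K.length ≤ 2 := by
  intro K hK
  simp only [k1, List.mem_append, List.mem_flatMap, List.mem_map] at hK
  obtain ⟨i, -, i', -, ⟨j, -, l, -, rfl⟩ | ⟨j, -, rfl⟩⟩ := hK
  · simp [keyP]
  · simp [keyE]

theorem k2_short {n : ℕ} {V0 : List Row} (hV : V0.length ≤ n) :
    ∀ K ∈ k2 n V0, K.length ≤ n + 1 := by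
  intro K hK
  simp only [k2, List.mem_cons, List.mem_flatMap, List.not_mem_nil, or_false] at hK
  rcases hK with rfl | ⟨p, -, rfl | rfl⟩
  · rw [len_keyA]; omega
  · rw [len_keyA, len_upd]; omega
  · rw [len_keyA, len_upd]; omega

theorem k3_short {n m : ℕ} {L L' : List Row} (hL : L.length ≤ n) (hL' : L'.length ≤ n) :
    ∀ K ∈ k3 n m L L', K.length ≤ n + 2 := by
  intro K hK
  simp only [k3, List.mem_cons, List.mem_append, List.mem_flatMap, List.not_mem_nil,
    or_false] at hK
  rcases hK with hK | ⟨i, -, rfl | rfl | rfl | rfl | rfl | rfl⟩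
  · have := k1_short K hK
    omega
  all_goals first
    | rw [len_keyA]; omega
    | rw [len_keyB, List.length_append, List.length_singleton]; omega

theorem len_flatMap_le {α β : Type} (l : List α) (f : α → List β) (B : ℕ)
    (h : ∀ a ∈ l, (f a).length ≤ B) : (l.flatMap f).length ≤ l.length * B := by
  induction l with
  | nil => simp
  | cons a l ih =>
    rw [List.flatMap_cons, List.length_append, List.length_cons, Nat.succ_mul]
    have h1 := h a (by simp)
    have h2 := ih fun b hb => h b (by simp [hb])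
    omega

theorem kS_len (n : ℕ) (c : Row) (P L : List Row) :
    (kS n c P L).length ≤ 1 + 2 * P.length + n := by
  have h := len_flatMap_le P (fun r => [keyB n 1 (L ++ [r]), keyB n 0 (L ++ [r])]) 2
    fun a _ => by simp
  simp only [kS, List.length_cons, List.length_append, List.length_map, List.length_range]
  omega

theorem stepK_len (n : ℕ) (c : Row) (P : List Row) (k : ℕ) (L : List Row) :
    (stepK n c P k L).length ≤
      (1 + n * (P.length + 1)) * (1 + 2 * (P.length + 1) + n) := by
  have e : (P ++ [((k, 0) : Row)]).length = P.length + 1 := by simp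
  have h1 : ∀ L, (kS n c (P ++ [(k, 0)]) L).length ≤ 1 + 2 * (P.length + 1) + n := fun L => by
    have := kS_len n c (P ++ [(k, 0)]) L
    rwa [e] at this
  have h2 := len_flatMap_le (List.range n) (fun p =>
    (P ++ [((k, 0) : Row)]).flatMap fun q => kS n c (P ++ [(k, 0)]) (upd n L p q))
    ((P.length + 1) * (1 + 2 * (P.length + 1) + n)) (fun p _ => by
      have := len_flatMap_le (P ++ [((k, 0) : Row)])
        (fun q => kS n c (P ++ [(k, 0)]) (upd n L p q)) _ fun q _ => h1 _
      rwa [e] at this)
  rw [List.length_range] at h2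
  unfold stepK
  rw [List.length_append]
  have h3 := h1 L
  calc _ ≤ (1 + 2 * (P.length + 1) + n) +
        n * ((P.length + 1) * (1 + 2 * (P.length + 1) + n)) := Nat.add_le_add h3 h2
    _ = _ := by ring

theorem k1_len (n m : ℕ) : (k1 n m).length ≤ m * (m * (n * (n + 1) + n)) := by
  have h := len_flatMap_le (List.range m) (fun i => (List.range m).flatMap fun i' =>
    ((List.range n).flatMap fun j => (List.range (n + 1)).map fun l => keyP n i i' j l) ++
      (List.range n).map fun j => keyE n i j) (m * (n * (n + 1) + n)) (fun i _ => by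
    have := len_flatMap_le (List.range m) (fun i' =>
      ((List.range n).flatMap fun j => (List.range (n + 1)).map fun l => keyP n i i' j l) ++
        (List.range n).map fun j => keyE n i j) (n * (n + 1) + n) (fun i' _ => by
      have := len_flatMap_le (List.range n) (fun j => (List.range (n + 1)).map fun l =>
        keyP n i i' j l) (n + 1) fun j _ => by simp
      rw [List.length_range] at this
      rw [List.length_append, List.length_map, List.length_range]
      omega)
    rwa [List.length_range] at this)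
  rwa [List.length_range] at h

theorem k2_len (n : ℕ) (V0 : List Row) : (k2 n V0).length ≤ n * 2 + 1 := by
  have := len_flatMap_le (List.range n) (fun p =>
    [keyA n (upd n V0 p (0, 1)), keyA n (upd n V0 p (0, 2))]) 2 fun _ _ => by simp
  rw [List.length_range] at this
  unfold k2
  rw [List.length_cons]
  omega

theorem k3_len (n m : ℕ) (L L' : List Row) :
    (k3 n m L L').length ≤ m * (m * (n * (n + 1) + n)) + m * 6 := by
  have := len_flatMap_le (List.range m) (fun i =>
    [keyA n L, keyB n 1 (L ++ [((i, 0) : Row)]), keyB n 0 (L ++ [(i, 0)]), keyA n L',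
      keyB n 1 (L' ++ [(i, 0)]), keyB n 0 (L' ++ [(i, 0)])]) 6 fun _ _ => by simp
  rw [List.length_range] at this
  unfold k3
  rw [List.length_append]
  have h1 := k1_len n m
  omega

end Pool.Agent.H37.CH
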