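import Mathlib

/-! Chebyshev systems on finite ordered sets: zeros and signs. -/

set_option autoImplicit false

namespace Pool.Agent.H37.CH

open Finset Matrix

/-- The rows of `T` are the values of a Chebyshev system at `N` increasing points: all maximal
minors of `T` are different from zero and have the same sign. -/
def IsCheb {N n : ℕ} (T : Fin N → Fin n → ℝ) : Prop :=
  ∃ σ : ℝ, ∀ s : Fin n ↪o Fin N, 0 < σ * (Matrix.of fun p => T (s p)).det

variable {N n : ℕ} {T : Fin N → Fin n → ℝ}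

theorem IsCheb.ne (hT : IsCheb T) (s : Fin n ↪o Fin N) :
    (Matrix.of fun p => T (s p)).det ≠ 0 := by
  obtain ⟨σ, hσ⟩ := hT
  intro h
  have := hσ s
  rw [h, mul_zero] at this
  exact lt_irrefl _ this

theorem IsCheb.alt (hT : IsCheb T) (s : Fin (n + 1) ↪o Fin N) (ε : ℝ) (hε : ε ≠ 0)
    (x : Fin n → ℝ) (h : ∀ p : Fin (n + 1), 0 ≤ ε * ((-1) ^ (p : ℕ) * (T (s p) ⬝ᵥ x))) :
    x = 0 := by
  let Mx : Matrix (Fin (n + 1)) (Fin (n + 1)) ℝ :=
    Matrix.of fun p => Fin.cons (T (s p) ⬝ᵥ x) (T (s p))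
  have hdet : Mx.det = 0 := by
    rw [← Matrix.exists_mulVec_eq_zero_iff]
    refine ⟨Fin.cons 1 (-x), fun h => ?_, ?_⟩
    · have := congrFun h 0
      simp at this
    · funext p
      simp only [Matrix.mulVec, dotProduct, Mx, Matrix.of_apply, Fin.sum_univ_succ, Fin.cons_zero,
        Fin.cons_succ, Pi.neg_apply, Pi.zero_apply, mul_neg, Finset.sum_neg_distrib]
      ring
  rw [Matrix.det_succ_column_zero] at hdet
  have hne := hT.ne ((Fin.succAboveOrderEmb (Fin.last n)).trans s)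
  obtain ⟨σ, hT⟩ := hT
  have hw : ∀ i : Fin (n + 1), 0 < σ * (Mx.submatrix i.succAbove Fin.succ).det := by
    intro i
    have := hT ((Fin.succAboveOrderEmb i).trans s)
    exact this
  have hsum : ∑ i : Fin (n + 1), ε * ((-1) ^ (i : ℕ) * (T (s i) ⬝ᵥ x)) *
      (σ * (Mx.submatrix i.succAbove Fin.succ).det) = 0 := by
    have : ε * σ * (∑ i : Fin (n + 1), (-1) ^ (i : ℕ) * Mx i 0 *
        (Mx.submatrix i.succAbove Fin.succ).det) = 0 := by rw [hdet, mul_zero]
    rw [← this, Finset.mul_sum]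
    refine Finset.sum_congr rfl fun i _ => ?_
    have : Mx i 0 = T (s i) ⬝ᵥ x := rfl
    rw [this]
    ring
  have hz := (Finset.sum_eq_zero_iff_of_nonneg fun i _ => mul_nonneg (h i) (hw i).le).1 hsum
  have hz' : ∀ i, T (s i) ⬝ᵥ x = 0 := by
    intro i
    have := hz i (Finset.mem_univ i)
    rcases mul_eq_zero.1 this with h1 | h1
    · rcases mul_eq_zero.1 h1 with h2 | h2
      · exact absurd h2 hε
      · rcases mul_eq_zero.1 h2 with h3 | h3
        · exact absurd h3 (pow_ne_zero _ (by norm_num))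
        · exact h3
    · exact absurd h1 (hw i).ne'
  refine Matrix.eq_zero_of_mulVec_eq_zero hne ?_
  funext p
  exact hz' _

/-- the number of smaller elements -/
def idx (S : Finset (Fin N)) (u : Fin N) : ℕ := (S.filter (· < u)).card

theorem idx_emb {S : Finset (Fin N)} {k : ℕ} (h : S.card = k) (p : Fin k) :
    idx S (S.orderEmbOfFin h p) = p := by
  unfold idx
  have : S.filter (· < S.orderEmbOfFin h p) =
      (Finset.univ.filter (· < p)).map (S.orderEmbOfFin h).toEmbedding := by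
    ext u
    simp only [Finset.mem_filter, Finset.mem_map, Finset.mem_univ, true_and]
    constructor
    · rintro ⟨hu, hlt⟩
      have : u ∈ Set.range (S.orderEmbOfFin h) := by
        rw [Finset.range_orderEmbOfFin]; exact hu
      obtain ⟨q, rfl⟩ := this
      exact ⟨q, (S.orderEmbOfFin h).lt_iff_lt.1 hlt, rfl⟩
    · rintro ⟨q, hq, rfl⟩
      exact ⟨Finset.orderEmbOfFin_mem _ _ _, (S.orderEmbOfFin h).lt_iff_lt.2 hq⟩
  rw [this, Finset.card_map]
  have : Finset.univ.filter (· < p) = Finset.Iio p := by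
    ext q
    simp
  rw [this, Fin.card_Iio]

theorem IsCheb.altS (hT : IsCheb T) {S : Finset (Fin N)} (hS : S.card = n + 1) (ε : ℝ)
    (hε : ε ≠ 0) (x : Fin n → ℝ)
    (h : ∀ u ∈ S, 0 ≤ ε * ((-1) ^ idx S u * (T u ⬝ᵥ x))) : x = 0 := by
  refine hT.alt (S.orderEmbOfFin hS) ε hε x fun p => ?_
  have := h _ (Finset.orderEmbOfFin_mem S hS p)
  rwa [idx_emb] at this

/-- A vector orthogonal to `n` rows vanishes. -/
theorem IsCheb.zero (hT : IsCheb T) {S : Finset (Fin N)} (hS : S.card = n) {x : Fin n → ℝ}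
    (h : ∀ u ∈ S, T u ⬝ᵥ x = 0) : x = 0 := by
  refine Matrix.eq_zero_of_mulVec_eq_zero (hT.ne (S.orderEmbOfFin hS)) ?_
  funext p
  exact h _ (Finset.orderEmbOfFin_mem S hS p)

/-- `z` lies between `u` and `v` -/
def btw (z u v : Fin N) : ℕ := if (u < z ∧ z < v) ∨ (v < z ∧ z < u) then 1 else 0

/-- the number of elements of `Z` between `u` and `v` -/
def nb (Z : Finset (Fin N)) (u v : Fin N) : ℕ := ∑ z ∈ Z, btw z u v

theorem idx_succ {Z : Finset (Fin N)} {u v : Fin N} (huv : u < v) (hu : u ∉ Z) (hv : v ∉ Z) :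
    idx (insert u (insert v Z)) v = idx (insert u (insert v Z)) u + 1 + nb Z u v := by
  have e : ∀ w, idx (insert u (insert v Z)) w =
      (if u < w then 1 else 0) + (if v < w then 1 else 0) + ∑ z ∈ Z, if z < w then 1 else 0 := by
    intro w
    have h1 : u ∉ insert v Z := by
      rw [Finset.mem_insert, not_or]
      exact ⟨huv.ne, hu⟩
    rw [idx, Finset.card_filter, Finset.sum_insert h1, Finset.sum_insert hv, add_assoc]
  have e2 : (∑ z ∈ Z, if z < v then 1 else 0) = (∑ z ∈ Z, if z < u then 1 else 0) + nb Z u v := by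
    rw [nb, ← Finset.sum_add_distrib]
    refine Finset.sum_congr rfl fun z hz => ?_
    have h1 : z ≠ u := fun h => hu (h ▸ hz)
    have h2 : z ≠ v := fun h => hv (h ▸ hz)
    rw [Ne, Fin.ext_iff] at h1 h2
    unfold btw
    simp only [Fin.lt_def] at huv ⊢
    split_ifs <;> omega
  rw [e, e, if_pos huv, if_neg (lt_irrefl _), if_neg (lt_irrefl _), if_neg huv.asymm, e2]
  ring

/-- The signs of a vector which is orthogonal to `n - 1` rows. -/
theorem IsCheb.sign (hT : IsCheb T) {Z : Finset (Fin N)} (hZ : Z.card + 1 = n) {x : Fin n → ℝ}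
    (hx : x ≠ 0) (h : ∀ z ∈ Z, T z ⬝ᵥ x = 0) {u v : Fin N} (hu : u ∉ Z) (hv : v ∉ Z) :
    0 < (-1) ^ nb Z u v * ((T u ⬝ᵥ x) * (T v ⬝ᵥ x)) := by
  have nz : ∀ u ∉ Z, T u ⬝ᵥ x ≠ 0 := by
    intro u hu h0
    refine hx (hT.zero (S := insert u Z) (by rw [Finset.card_insert_of_notMem hu, hZ]) ?_)
    intro w hw
    rcases Finset.mem_insert.1 hw with rfl | hw
    · exact h0
    · exact h w hw
  have key : ∀ u v : Fin N, u ∉ Z → v ∉ Z → u < v →
      0 < (-1) ^ nb Z u v * ((T u ⬝ᵥ x) * (T v ⬝ᵥ x)) := by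
    intro u v hu hv huv
    by_contra hneg
    have hu0 := nz u hu
    have hv0 := nz v hv
    have hne : (-1 : ℝ) ^ nb Z u v * ((T u ⬝ᵥ x) * (T v ⬝ᵥ x)) ≠ 0 :=
      mul_ne_zero (pow_ne_zero _ (by norm_num)) (mul_ne_zero hu0 hv0)
    have hlt : (-1 : ℝ) ^ nb Z u v * ((T u ⬝ᵥ x) * (T v ⬝ᵥ x)) < 0 :=
      lt_of_le_of_ne (not_lt.1 hneg) hne
    set S := insert u (insert v Z) with hS
    have hcard : S.card = n + 1 := by
      rw [hS, Finset.card_insert_of_notMem, Finset.card_insert_of_notMem hv, hZ]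
      rw [Finset.mem_insert, not_or]
      exact ⟨huv.ne, hu⟩
    refine hx (hT.altS hcard ((-1) ^ idx S u * (T u ⬝ᵥ x))
      (mul_ne_zero (pow_ne_zero _ (by norm_num)) hu0) x ?_)
    intro w hw
    rw [hS, Finset.mem_insert, Finset.mem_insert] at hw
    rcases hw with rfl | rfl | hw
    · exact mul_self_nonneg _
    · rw [idx_succ huv hu hv, ← hS, pow_add, pow_add, pow_one]
      have e : ((-1 : ℝ) ^ idx S u * (T u ⬝ᵥ x)) * (((-1) ^ idx S u * -1 * (-1) ^ nb Z u w) *
          (T w ⬝ᵥ x)) = ((-1) ^ idx S u * (-1) ^ idx S u) *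
          -((-1 : ℝ) ^ nb Z u w * ((T u ⬝ᵥ x) * (T w ⬝ᵥ x))) := by ring
      rw [e, ← pow_add, Even.neg_one_pow ⟨_, rfl⟩, one_mul]
      linarith
    · rw [h w hw, mul_zero, mul_zero]
  rcases lt_trichotomy u v with huv | rfl | huv
  · exact key u v hu hv huv
  · have : nb Z u u = 0 := by
      unfold nb
      refine Finset.sum_eq_zero fun z _ => ?_
      unfold btw
      rw [if_neg]
      rintro (⟨h1, h2⟩ | ⟨h1, h2⟩) <;> exact (h1.trans h2).false
    rw [this, pow_zero, one_mul]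
    exact mul_self_pos.2 (nz u hu)
  · have := key v u hv hu huv
    have e : nb Z u v = nb Z v u := by
      unfold nb
      refine Finset.sum_congr rfl fun z _ => ?_
      unfold btw
      simp only [or_comm]
    rw [e, mul_comm (T u ⬝ᵥ x)]
    exact this

theorem nb_even (Z : Finset (Fin N)) {r j k : Fin N} (hr : r ∉ Z) (hj : j ∉ Z) (hk : k ∉ Z) :
    Even (nb Z r j + nb Z k j + nb Z r k) := by
  unfold nb
  rw [← Finset.sum_add_distrib, ← Finset.sum_add_distrib]
  refine Finset.even_sum _ fun z hz => ?_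
  have h1 : z ≠ r := fun h => hr (h ▸ hz)
  have h2 : z ≠ j := fun h => hj (h ▸ hz)
  have h3 : z ≠ k := fun h => hk (h ▸ hz)
  rw [Ne, Fin.ext_iff] at h1 h2 h3
  unfold btw
  simp only [Fin.lt_def]
  split_ifs <;> first | decide | (exfalso; omega)

theorem nb_insert {Z : Finset (Fin N)} {a : Fin N} (ha : a ∉ Z) (u v : Fin N) :
    nb (insert a Z) u v = btw a u v + nb Z u v := Finset.sum_insert ha

/-- the position after `c`, cyclically -/
def cyc (c v : Fin N) : ℕ := if c < v then (v : ℕ) - c else v + N - c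

theorem cyc_between {r j k c : Fin N} (hrj : r ≠ j) (hrk : r ≠ k) (hjk : j ≠ k) (hcr : c ≠ r)
    (hcj : c ≠ j) (hck : c ≠ k) (he : Even (btw k r j + btw r k j + btw c r k)) :
    (cyc c k < cyc c j ∧ cyc c j < cyc c r) ∨ (cyc c r < cyc c j ∧ cyc c j < cyc c k) := by
  rw [Ne, Fin.ext_iff] at hrj hrk hjk hcr hcj hck
  have h1 := r.2
  have h2 := j.2
  have h3 := k.2
  have h4 := c.2
  unfold btw at he
  unfold cyc
  simp only [Fin.lt_def] at he ⊢
  rw [Nat.even_iff] at he
  split_ifs at he ⊢ <;> omega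

end Pool.Agent.H37.CH
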